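import Pool.Agent.Lib.MP_8416b9_lc.Core2

/-!
# MP_8416b9_lc, module AMP: amplification by independent repetition
-/

set_option autoImplicit false

namespace Pool.Agent.GAKT

/-- Counting functions whose restrictions to `M` disjoint blocks lie in a given set. -/
theorem amp_block (N M L : ℕ) (ι : Fin M × Fin L → Fin N) (hι : Function.Injective ι)
    (B : Set (Fin L → Bool)) :
    {r : Fin N → Bool | ∀ u : Fin M, (fun j => r (ι (u, j))) ∈ B}.ncard ≤
      B.ncard ^ M * 2 ^ (N - M * L) := by
  classical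
  set C : Set (Fin N → Bool) := {r : Fin N → Bool | ∀ u : Fin M, (fun j => r (ι (u, j))) ∈ B}
    with hC
  let g : C → (Fin M → B) × ({i : Fin N // i ∉ Set.range ι} → Bool) := fun r =>
    (fun u => ⟨fun j => r.1 (ι (u, j)), r.2 u⟩, fun i => r.1 i.1)
  have hg : Function.Injective g := by
    intro r r' h
    apply Subtype.ext
    funext i
    by_cases hi : i ∈ Set.range ι
    · obtain ⟨⟨u, j⟩, rfl⟩ := hi
      have h1 := congrFun (congrArg Prod.fst h) u
      have h2 := congrFun (congrArg Subtype.val h1) j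
      exact h2
    · exact congrFun (congrArg Prod.snd h) ⟨i, hi⟩
  have h1 := Nat.card_le_card_of_injective g hg
  have hc : Nat.card {i : Fin N // i ∉ Set.range ι} = N - M * L := by
    have h2 : Nat.card {i : Fin N // i ∈ Set.range ι} = M * L := by
      rw [← Nat.card_congr (Equiv.ofInjective ι hι)]
      simp
    have h3 : Nat.card {i : Fin N // i ∈ Set.range ι} + Nat.card {i : Fin N // i ∉ Set.range ι} =
        N := by
      rw [Nat.card_eq_fintype_card, Nat.card_eq_fintype_card,
        ← Fintype.card_sum, Fintype.card_congr (Equiv.sumCompl (fun i => i ∈ Set.range ι)),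
        Fintype.card_fin]
    omega
  rw [Nat.card_prod, Nat.card_fun, Nat.card_fun, Nat.card_fin, hc, Nat.card_coe_set_eq,
    Nat.card_coe_set_eq, Nat.card_eq_fintype_card, Fintype.card_bool] at h1
  exact h1

theorem amp_num (Q : ℕ) (h : 1 ≤ Q) : 2 * Q * 3 ^ (4 * Q) ≤ 4 ^ (4 * Q) := by
  induction Q, h using Nat.le_induction with
  | base => norm_num
  | succ n hn ih =>
    have e1 : (3:ℕ) ^ (4 * (n + 1)) = 81 * 3 ^ (4 * n) := by
      rw [mul_add, pow_add]; norm_num; ring
    have e2 : (4:ℕ) ^ (4 * (n + 1)) = 256 * 4 ^ (4 * n) := by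
      rw [mul_add, pow_add]; norm_num; ring
    rw [e1, e2]
    have : 2 * (n + 1) * (81 * 3 ^ (4 * n)) ≤ 256 * (2 * n * 3 ^ (4 * n)) := by
      have : 2 * (n + 1) * 81 ≤ 256 * (2 * n) := by omega
      calc 2 * (n + 1) * (81 * 3 ^ (4 * n)) = (2 * (n + 1) * 81) * 3 ^ (4 * n) := by ring
        _ ≤ (256 * (2 * n)) * 3 ^ (4 * n) := Nat.mul_le_mul_right _ this
        _ = 256 * (2 * n * 3 ^ (4 * n)) := by ring
    omega

theorem amp : AmpStatement := by
  intro Q L N F V hQ hN hV
  classical
  set M := 4 * Q with hM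
  -- index map of the blocks
  have hidx : ∀ v < Q, ∀ (u : Fin M) (j : Fin L), (v * M + u) * L + j < N := by
    intro v hv u j
    have hu := u.2
    have hj := j.2
    calc (v * M + u) * L + j < (v * M + u) * L + L := by omega
      _ = (v * M + u + 1) * L := by ring
      _ ≤ (Q * M) * L := by
        apply Nat.mul_le_mul_right
        have : (v + 1) * M ≤ Q * M := Nat.mul_le_mul_right _ hv
        have : v * M + u + 1 ≤ (v + 1) * M := by rw [add_mul]; omega
        omega
      _ ≤ N := hN
  have hblock : ∀ v ∈ V, 4 ^ M *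
      {r : Fin N → Bool | ∀ u < M, F v (((List.ofFn r).drop ((v * M + u) * L)).take L)}.ncard ≤
        3 ^ M * 2 ^ N := by
    intro v hv
    obtain ⟨hvQ, hB⟩ := hV v hv
    set B : Set (Fin L → Bool) := {s : Fin L → Bool | F v (List.ofFn s)} with hBdef
    let ι : Fin M × Fin L → Fin N := fun p => ⟨(v * M + p.1) * L + p.2, hidx v hvQ p.1 p.2⟩
    have hι : Function.Injective ι := by
      rintro ⟨u, j⟩ ⟨u', j'⟩ h
      simp only [ι, Fin.mk.injEq] at h
      have hj := j.2
      have hj' := j'.2
      have hL : 0 < L := by omega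
      have h1 : (v * M + u : ℕ) = v * M + u' := by
        have e1 : ((v * M + (u:ℕ)) * L + j) / L = v * M + u := by
          rw [mul_comm, Nat.mul_add_div hL, Nat.div_eq_of_lt hj, add_zero]
        have e2 : ((v * M + (u':ℕ)) * L + j') / L = v * M + u' := by
          rw [mul_comm, Nat.mul_add_div hL, Nat.div_eq_of_lt hj', add_zero]
        rw [← e1, ← e2, h]
      have h2 : (u : ℕ) = u' := by omega
      have h3 : (j : ℕ) = j' := by rw [h2] at h; omega
      rw [Prod.mk.injEq]
      exact ⟨Fin.ext h2, Fin.ext h3⟩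
    have hsub : {r : Fin N → Bool | ∀ u < M, F v (((List.ofFn r).drop ((v * M + u) * L)).take L)} ⊆
        {r : Fin N → Bool | ∀ u : Fin M, (fun j => r (ι (u, j))) ∈ B} := by
      intro r hr u
      have h := hr u u.2
      have e : ((List.ofFn r).drop ((v * M + u) * L)).take L =
          List.ofFn (fun j => r (ι (u, j))) := by
        apply List.ext_getElem
        · simp only [List.length_take, List.length_drop, List.length_ofFn]
          rcases Nat.eq_zero_or_pos L with hL | hL
          · subst hL; simp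
          · have := hidx v hvQ u ⟨L - 1, by omega⟩
            simp only at this
            omega
        · intro i h1 h2
          simp [ι]
      rw [e] at h
      exact h
    have h1 := Set.ncard_le_ncard hsub (Set.toFinite _)
    have h2 := amp_block N M L ι hι B
    have hML : M * L ≤ N := by
      calc M * L ≤ Q * M * L := by
            apply Nat.mul_le_mul_right
            exact Nat.le_mul_of_pos_left _ hQ
        _ ≤ N := hN
    calc 4 ^ M * _ ≤ 4 ^ M * (B.ncard ^ M * 2 ^ (N - M * L)) :=
          Nat.mul_le_mul_left _ (h1.trans h2)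
      _ = (4 * B.ncard) ^ M * 2 ^ (N - M * L) := by rw [mul_pow]; ring
      _ ≤ (3 * 2 ^ L) ^ M * 2 ^ (N - M * L) :=
          Nat.mul_le_mul_right _ (Nat.pow_le_pow_left hB _)
      _ = 3 ^ M * 2 ^ N := by
          rw [mul_pow, ← pow_mul, mul_assoc, ← pow_add, mul_comm L M, Nat.add_sub_cancel' hML]
  -- union bound
  have hun : {r : Fin N → Bool | ∃ v ∈ V, ∀ u < M,
      F v (((List.ofFn r).drop ((v * M + u) * L)).take L)} ⊆
      ⋃ v ∈ (Finset.range Q).filter (· ∈ V), {r : Fin N → Bool | ∀ u < M,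
        F v (((List.ofFn r).drop ((v * M + u) * L)).take L)} := by
    rintro r ⟨v, hv, h⟩
    simp only [Set.mem_iUnion]
    exact ⟨v, Finset.mem_filter.2 ⟨Finset.mem_range.2 (hV v hv).1, hv⟩, h⟩
  have h3 : {r : Fin N → Bool | ∃ v ∈ V, ∀ u < M,
      F v (((List.ofFn r).drop ((v * M + u) * L)).take L)}.ncard ≤
      ∑ v ∈ (Finset.range Q).filter (· ∈ V), {r : Fin N → Bool | ∀ u < M,
        F v (((List.ofFn r).drop ((v * M + u) * L)).take L)}.ncard :=
    (Set.ncard_le_ncard hun (Set.toFinite _)).trans (Finset.set_ncard_biUnion_le _ _)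
  have h4 : 4 ^ M * ∑ v ∈ (Finset.range Q).filter (· ∈ V), {r : Fin N → Bool | ∀ u < M,
        F v (((List.ofFn r).drop ((v * M + u) * L)).take L)}.ncard ≤ Q * (3 ^ M * 2 ^ N) := by
    rw [Finset.mul_sum]
    calc _ ≤ ∑ _v ∈ (Finset.range Q).filter (· ∈ V), (3 ^ M * 2 ^ N) :=
          Finset.sum_le_sum fun v hv => hblock v (Finset.mem_filter.1 hv).2
      _ = ((Finset.range Q).filter (· ∈ V)).card * (3 ^ M * 2 ^ N) := by
          rw [Finset.sum_const, smul_eq_mul]
      _ ≤ Q * (3 ^ M * 2 ^ N) := by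
          apply Nat.mul_le_mul_right
          exact (Finset.card_filter_le _ _).trans (by simp)
  have h5 := amp_num Q hQ
  rw [← hM] at h5
  have hpos : 0 < 4 ^ M := by positivity
  refine Nat.le_of_mul_le_mul_left ?_ hpos
  calc 4 ^ M * (2 * _) = 2 * (4 ^ M * _) := by ring
    _ ≤ 2 * (Q * (3 ^ M * 2 ^ N)) :=
        Nat.mul_le_mul_left _ ((Nat.mul_le_mul_left _ h3).trans h4)
    _ = (2 * Q * 3 ^ M) * 2 ^ N := by ring
    _ ≤ 4 ^ M * 2 ^ N := Nat.mul_le_mul_right _ h5

end Pool.Agent.GAKT
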