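import Pool.Agent.Lib.MP_8416b9_lc.Core

/-!
# MP_8416b9_lc: binary numbers
-/

set_option autoImplicit false

namespace Pool.Agent.GAKT

theorem val_nil : val [] = 0 := rfl
theorem val_cons (b : Bool) (l : List Bool) : val (b :: l) = (if b then 1 else 0) + 2 * val l := rfl

theorem val_append (l l' : List Bool) : val (l ++ l') = val l + 2 ^ l.length * val l' := by
  induction l with
  | nil => simp [val]
  | cons b l ih =>
    simp only [List.cons_append, val_cons, ih, List.length_cons, pow_succ]
    ring

theorem val_lt (l : List Bool) : val l < 2 ^ l.length := by
  induction l with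
  | nil => simp [val]
  | cons b l ih =>
    simp only [val_cons, List.length_cons, pow_succ]
    split <;> omega

theorem val_replicate_false (n : ℕ) : val (List.replicate n false) = 0 := by
  induction n with
  | zero => rfl
  | succ n ih => simp [List.replicate_succ, val_cons, ih]

theorem val_bits (n : ℕ) : val (Nat.bits n) = n := by
  induction n using Nat.binaryRec' with
  | zero => simp [val]
  | bit b n h ih =>
    rw [Nat.bits_append_bit _ _ h, val_cons, ih, Nat.bit_val]
    cases b <;> simp <;> omega

/-- increment of a binary number -/
def incB (l : List Bool) : List Bool :=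
  let s := l.foldl (fun (s : List Bool × Bool) b => (s.1 ++ [xor b s.2], b && s.2)) ([], true)
  if s.2 then s.1 ++ [true] else s.1

theorem inc_fold (l acc : List Bool) (c : Bool) :
    let s := l.foldl (fun (s : List Bool × Bool) b => (s.1 ++ [xor b s.2], b && s.2)) (acc, c)
    s.1.length = acc.length + l.length ∧
      val s.1 + 2 ^ s.1.length * s.2.toNat = val acc + 2 ^ acc.length * (val l + c.toNat) := by
  induction l generalizing acc c with
  | nil => simp [val]
  | cons b l ih =>
    have h := ih (acc ++ [xor b c]) (b && c)
    simp only [List.foldl_cons, List.length_append, List.length_cons, List.length_nil] at h ⊢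
    refine ⟨by omega, h.2.trans ?_⟩
    rw [val_append]
    simp only [val_cons, val_nil, pow_succ, Nat.zero_add]
    cases b <;> cases c <;> simp <;> ring

theorem val_incB (l : List Bool) : val (incB l) = val l + 1 := by
  have h := inc_fold l [] true
  simp only [List.length_nil, Nat.zero_add, pow_zero, one_mul, val_nil] at h
  unfold incB
  simp only
  split
  · rename_i hc
    rw [val_append]
    have h2 := h.2
    rw [hc] at h2
    simp only [val_cons, val_nil]
    simpa using h2
  · rename_i hc
    have h2 := h.2
    rw [Bool.not_eq_true] at hc
    rw [hc] at h2
    simpa using h2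

theorem length_incB (l : List Bool) : (incB l).length ≤ l.length + 1 := by
  have h := (inc_fold l [] true).1
  simp only [List.length_nil, Nat.zero_add] at h
  unfold incB
  simp only
  split
  · rw [List.length_append, h]; simp
  · rw [h]; omega

/-- the binary digits of a number given in unary -/
def ubin (n : ℕ) : List Bool := Nat.rec (motive := fun _ => List Bool) [] (fun _ l => incB l) n

theorem val_ubin (n : ℕ) : val (ubin n) = n := by
  induction n with
  | zero => rfl
  | succ n ih =>
    show val (incB (ubin n)) = n + 1
    rw [val_incB, ih]

theorem length_ubin (n : ℕ) : (ubin n).length ≤ n := by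
  induction n with
  | zero => simp [ubin]
  | succ n ih =>
    show (incB (ubin n)).length ≤ n + 1
    exact (length_incB _).trans (by omega)

/-- `min c (val l)` -/
def capval (c : ℕ) (l : List Bool) : ℕ :=
  l.foldr (fun b v => min c (2 * v + (if b then 1 else 0))) 0

theorem capval_eq (c : ℕ) (l : List Bool) : capval c l = min c (val l) := by
  unfold capval
  induction l with
  | nil => simp [val]
  | cons b l ih =>
    rw [List.foldr_cons, ih, val_cons]
    split <;> omega

/-- the `k` lowest digits -/
def qlow (k : ℕ) (l : List Bool) : List Bool := (l ++ List.replicate k false).take k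

theorem length_qlow (k : ℕ) (l : List Bool) : (qlow k l).length = k := by
  unfold qlow
  rw [List.length_take, List.length_append, List.length_replicate]
  omega

theorem val_take_drop (k : ℕ) (l : List Bool) : val l = val (l.take k) + 2 ^ k * val (l.drop k) := by
  by_cases h : k ≤ l.length
  · conv_lhs => rw [← List.take_append_drop k l, val_append]
    rw [List.length_take, min_eq_left h]
  · push Not at h
    rw [List.take_of_length_le h.le, List.drop_of_length_le h.le]
    simp [val]

theorem val_qlow_add (k : ℕ) (l : List Bool) : val l = val (qlow k l) + 2 ^ k * val (l.drop k) := by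
  unfold qlow
  by_cases h : k ≤ l.length
  · rw [List.take_append_of_le_length h]
    exact val_take_drop k l
  · push Not at h
    rw [List.take_append, List.take_of_length_le h.le, List.take_replicate, val_append,
      val_replicate_false, List.drop_of_length_le h.le]
    simp [val]

theorem val_qlow (k : ℕ) (l : List Bool) : val (qlow k l) = val l % 2 ^ k := by
  have h1 := val_qlow_add k l
  have h2 := val_lt (qlow k l)
  rw [length_qlow] at h2
  rw [h1, Nat.add_mul_mod_self_left, Nat.mod_eq_of_lt h2]

theorem val_drop (k : ℕ) (l : List Bool) : val (l.drop k) = val l / 2 ^ k := by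
  have h1 := val_qlow_add k l
  have h2 := val_lt (qlow k l)
  rw [length_qlow] at h2
  rw [h1, Nat.add_mul_div_left _ _ (by positivity), Nat.div_eq_of_lt h2, Nat.zero_add]

/-- number of leading `true`s -/
def lead (l : List Bool) : ℕ :=
  ((List.range (l.length + 1)).find? (fun i => !(l.getD i false))).getD 0

theorem lead_eq (k : ℕ) (r : List Bool) (hr : r.getD 0 false = false) :
    lead (List.replicate k true ++ r) = k := by
  unfold lead
  have h1 : ∀ i < k, (List.replicate k true ++ r).getD i false = true := by
    intro i hi
    rw [List.getD_eq_getElem?_getD, List.getElem?_append_left (by simpa using hi)]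
    simp [hi]
  have h2 : (List.replicate k true ++ r).getD k false = false := by
    rw [List.getD_eq_getElem?_getD, List.getElem?_append_right (by simp)]
    simpa [List.getD_eq_getElem?_getD] using hr
  rw [(List.find?_range_eq_some (n := (List.replicate k true ++ r).length + 1) (i := k)).2]
  · rfl
  · refine ⟨by rw [h2]; rfl, ?_, ?_⟩
    · rw [List.mem_range, List.length_append, List.length_replicate]; omega
    · intro j hj
      rw [h1 j hj]
      rfl

theorem lead_nil : lead [] = 0 := lead_eq 0 [] rfl

theorem lead_replicate (k : ℕ) : lead (List.replicate k true) = k := by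
  have := lead_eq k [] rfl
  rwa [List.append_nil] at this

end Pool.Agent.GAKT
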