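import Pool.Agent.Lib.MP_8416b9_lc.Core

/-!
# MP_8416b9_lc: the strict order `blt` on words of equal length, ranks
-/

set_option autoImplicit false

namespace Pool.Agent.GAKT

theorem foldl_cmp_some (l : List (Bool × Bool)) (b : Bool) : l.foldl cmpStep (some b) = some b := by
  induction l with
  | nil => rfl
  | cons p l ih => simpa [cmpStep] using ih

@[simp] theorem blt_nil_left (v : List Bool) : blt [] v = false := by
  simp [blt]

@[simp] theorem blt_nil_right (u : List Bool) : blt u [] = false := by
  simp [blt]

theorem blt_cons (a b : Bool) (u v : List Bool) :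
    blt (a :: u) (b :: v) = if a = b then blt u v else b := by
  unfold blt
  rw [List.zip_cons_cons, List.foldl_cons]
  by_cases h : a = b
  · simp [cmpStep, h]
  · simp only [cmpStep, h, if_false, foldl_cmp_some]
    cases b <;> rfl

theorem blt_irrefl (u : List Bool) : blt u u = false := by
  induction u with
  | nil => simp
  | cons a u ih => simp [blt_cons, ih]

theorem blt_trans {u v x : List Bool} (huv : u.length = v.length) (hvx : v.length = x.length)
    (h1 : blt u v = true) (h2 : blt v x = true) : blt u x = true := by
  induction u generalizing v x with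
  | nil => simp at h1
  | cons a u ih =>
    obtain ⟨b, v, rfl⟩ : ∃ b v', v = b :: v' := by
      cases v with
      | nil => simp at huv
      | cons b v => exact ⟨b, v, rfl⟩
    obtain ⟨c, x, rfl⟩ : ∃ c x', x = c :: x' := by
      cases x with
      | nil => simp at hvx
      | cons c x => exact ⟨c, x, rfl⟩
    simp only [List.length_cons, Nat.add_right_cancel_iff] at huv hvx
    rw [blt_cons] at h1 h2 ⊢
    by_cases hab : a = b
    · subst hab
      rw [if_pos rfl] at h1
      by_cases hac : a = c
      · subst hac
        rw [if_pos rfl] at h2 ⊢
        exact ih huv hvx h1 h2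
      · rw [if_neg hac] at h2 ⊢
        exact h2
    · rw [if_neg hab] at h1
      by_cases hbc : b = c
      · subst hbc
        rw [if_neg hab]
        exact h1
      · rw [if_neg hbc] at h2
        exact absurd (h1.trans h2.symm) hbc

theorem blt_trichotomy {u v : List Bool} (huv : u.length = v.length) (h1 : blt u v = false)
    (h2 : blt v u = false) : u = v := by
  induction u generalizing v with
  | nil =>
    cases v with
    | nil => rfl
    | cons b v => simp at huv
  | cons a u ih =>
    cases v with
    | nil => simp at huv
    | cons b v =>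
      simp only [List.length_cons, Nat.add_right_cancel_iff] at huv
      rw [blt_cons] at h1 h2
      by_cases hab : a = b
      · subst hab
        rw [if_pos rfl] at h1 h2
        rw [ih huv h1 h2]
      · rw [if_neg hab] at h1
        rw [if_neg (Ne.symm hab)] at h2
        exact absurd (h2.trans h1.symm) hab

theorem blt_asymm {u v : List Bool} (huv : u.length = v.length) (h1 : blt u v = true) :
    blt v u = false := by
  by_contra h
  rw [Bool.not_eq_false] at h
  have := blt_trans huv huv.symm h1 h
  rw [blt_irrefl] at this
  exact absurd this (by simp)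

/-- the first position where two words differ -/
theorem blt_split {u v : List Bool} (huv : u.length = v.length) (h : blt u v = true) :
    ∃ p u' v', u = p ++ false :: u' ∧ v = p ++ true :: v' := by
  induction u generalizing v with
  | nil => simp at h
  | cons a u ih =>
    cases v with
    | nil => simp at huv
    | cons b v =>
      simp only [List.length_cons, Nat.add_right_cancel_iff] at huv
      rw [blt_cons] at h
      by_cases hab : a = b
      · subst hab
        rw [if_pos rfl] at h
        obtain ⟨p, u', v', rfl, rfl⟩ := ih huv h
        exact ⟨a :: p, u', v', rfl, rfl⟩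
      · rw [if_neg hab] at h
        subst h
        have : a = false := by simpa using hab
        subst this
        exact ⟨[], u, v, rfl, rfl⟩

theorem rank_lt_of_blt {m w : ℕ} {f : ℕ → List Bool} (hf : LabOn m w f) {u v : ℕ} (hu : u < m)
    (hv : v < m) (h : blt (f u) (f v) = true) : rank m f u < rank m f v := by
  unfold rank
  have hl : ∀ x < m, ∀ y < m, (f x).length = (f y).length := fun x hx y hy => by
    rw [hf x hx, hf y hy]
  have hsub : (List.range m).filter (fun x => blt (f x) (f u)) =
      ((List.range m).filter (fun x => blt (f x) (f v))).filter (fun x => blt (f x) (f u)) := by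
    rw [List.filter_filter]
    apply List.filter_congr
    intro x hx
    rw [List.mem_range] at hx
    cases hxu : blt (f x) (f u) with
    | false => simp
    | true => simp [blt_trans (hl x hx u hu) (hl u hu v hv) hxu h]
  rw [hsub]
  apply List.length_filter_lt_length_iff_exists.2
  refine ⟨u, ?_, ?_⟩
  · rw [List.mem_filter, List.mem_range]
    exact ⟨hu, h⟩
  · simp [blt_irrefl]

theorem rank_lt {m : ℕ} {f : ℕ → List Bool} {v : ℕ} (hv : v < m) : rank m f v < m := by
  unfold rank
  conv_rhs => rw [← List.length_range (n := m)]
  apply List.length_filter_lt_length_iff_exists.2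
  exact ⟨v, List.mem_range.2 hv, by simp [blt_irrefl]⟩

theorem rank_inj {m w : ℕ} {f : ℕ → List Bool} (hf : LabOn m w f) (hi : InjLab m f) {u v : ℕ}
    (hu : u < m) (hv : v < m) (h : rank m f u = rank m f v) : u = v := by
  have hl : (f u).length = (f v).length := by rw [hf u hu, hf v hv]
  by_contra hne
  cases h1 : blt (f u) (f v) with
  | true => have := rank_lt_of_blt hf hu hv h1; omega
  | false =>
    cases h2 : blt (f v) (f u) with
    | true => have := rank_lt_of_blt hf hv hu h2; omega
    | false => exact hne (hi u hu v hv (blt_trichotomy hl h1 h2))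

theorem vr_lt {m : ℕ} (f : ℕ → List Bool) (hm : 0 < m) (r : ℕ) : vr m f r < m := by
  unfold vr
  cases h : (List.range m).find? (fun v => rank m f v == r) with
  | none => simpa using hm
  | some v =>
    have := List.mem_of_find?_eq_some h
    simpa using this

/-- every rank is attained -/
theorem rank_surj {m w : ℕ} {f : ℕ → List Bool} (hf : LabOn m w f) (hi : InjLab m f) {r : ℕ}
    (hr : r < m) : ∃ v < m, rank m f v = r := by
  have h1 : Function.Injective (fun v : Fin m => (⟨rank m f v, rank_lt v.2⟩ : Fin m)) := by
    intro u v h
    apply Fin.ext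
    exact rank_inj hf hi u.2 v.2 (by simpa using h)
  obtain ⟨v, hv⟩ := (Finite.injective_iff_surjective.1 h1) ⟨r, hr⟩
  exact ⟨v, v.2, by simpa using congrArg Fin.val hv⟩

theorem rank_vr {m w : ℕ} {f : ℕ → List Bool} (hf : LabOn m w f) (hi : InjLab m f) {r : ℕ}
    (hr : r < m) : rank m f (vr m f r) = r := by
  obtain ⟨v, hv, hvr⟩ := rank_surj hf hi hr
  unfold vr
  cases h : (List.range m).find? (fun v => rank m f v == r) with
  | none =>
    rw [List.find?_eq_none] at h
    exact absurd (by simpa using hvr) (h v (List.mem_range.2 hv))
  | some u =>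
    have := List.find?_some h
    simpa using this

theorem vr_rank {m w : ℕ} {f : ℕ → List Bool} (hf : LabOn m w f) (hi : InjLab m f) {v : ℕ}
    (hv : v < m) : vr m f (rank m f v) = v :=
  rank_inj hf hi (vr_lt f (by omega) _) hv (rank_vr hf hi (rank_lt hv))

theorem rank_congr {m : ℕ} {f f' : ℕ → List Bool} (h : ∀ v < m, f v = f' v) {v : ℕ} (hv : v < m) :
    rank m f v = rank m f' v := by
  unfold rank
  congr 1
  apply List.filter_congr
  intro u hu
  rw [h u (List.mem_range.1 hu), h v hv]

theorem find?_congr' {α : Type} {l : List α} {p q : α → Bool} (h : ∀ x ∈ l, p x = q x) :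
    l.find? p = l.find? q := by
  induction l with
  | nil => rfl
  | cons a l ih =>
    rw [List.find?_cons, List.find?_cons, h a (by simp), ih fun x hx => h x (by simp [hx])]

theorem vr_congr {m : ℕ} {f f' : ℕ → List Bool} (h : ∀ v < m, f v = f' v) (r : ℕ) :
    vr m f r = vr m f' r := by
  unfold vr
  rw [find?_congr' (q := fun v => rank m f' v == r)]
  intro v hv
  rw [rank_congr h (List.mem_range.1 hv)]

theorem flatMap_congr' {α β : Type} {l : List α} {g g' : α → List β} (h : ∀ x ∈ l, g x = g' x) :
    l.flatMap g = l.flatMap g' := by
  induction l with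
  | nil => rfl
  | cons a l ih =>
    rw [List.flatMap_cons, List.flatMap_cons, h a (by simp), ih fun x hx => h x (by simp [hx])]

theorem yF_congr {m : ℕ} {X X' : ℕ → ℕ → List Bool} {f f' : ℕ → List Bool}
    (hX : ∀ i < m, ∀ j < m, X i j = X' i j) (h : ∀ v < m, f v = f' v) :
    yF m X f = yF m X' f' := by
  unfold yF
  congr 1
  · apply flatMap_congr'
    intro r hr
    rw [← vr_congr h]
    exact h _ (vr_lt f (by have := List.mem_range.1 hr; omega) r)
  · apply flatMap_congr'
    intro r hr
    apply flatMap_congr'
    intro s _
    rw [← vr_congr h, ← vr_congr h]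
    have : 0 < m := by have := List.mem_range.1 hr; omega
    exact hX _ (vr_lt f this r) _ (vr_lt f this s)

end Pool.Agent.GAKT
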