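import Pool.Agent.Lib.MP_8416b9_lc.Bits
import Pool.Agent.Lib.MP_8416b9_lc.Order

/-!
# MP_8416b9_lc: short codes for the labellings with `f 0 < f 1`
-/

set_option autoImplicit false

namespace Pool.Agent.GAKT

/-! ### slices of concatenations of blocks of equal length -/

theorem len_flatMap_const {α β : Type} {l : List α} {g : α → List β} {w : ℕ}
    (hg : ∀ t ∈ l, (g t).length = w) : (l.flatMap g).length = l.length * w := by
  induction l with
  | nil => simp
  | cons a l ih =>
    rw [List.flatMap_cons, List.length_append, hg a (by simp), ih fun t ht => hg t (by simp [ht]),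
      List.length_cons]
    ring

theorem length_flatMap_range {β : Type} {g : ℕ → List β} {w n : ℕ}
    (hg : ∀ t < n, (g t).length = w) : ((List.range n).flatMap g).length = n * w := by
  rw [len_flatMap_const (w := w) fun t ht => hg t (List.mem_range.1 ht), List.length_range]

theorem drop_flatMap_range {β : Type} {g : ℕ → List β} {w n : ℕ}
    (hg : ∀ t < n, (g t).length = w) {t : ℕ} (ht : t ≤ n) :
    ((List.range n).flatMap g).drop (t * w) = ((List.range (n - t)).flatMap fun i => g (t + i)) := by
  obtain ⟨c, rfl⟩ := Nat.exists_eq_add_of_le ht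
  rw [List.range_add, List.flatMap_append, List.drop_append, length_flatMap_range
    (fun t ht => hg t (by omega)), Nat.sub_self, List.drop_of_length_le, List.nil_append,
    List.drop_zero, List.flatMap_map, Nat.add_sub_cancel_left]
  rw [length_flatMap_range (fun t ht => hg t (by omega))]

theorem slice_flatMap_range {β : Type} {g : ℕ → List β} {w n : ℕ}
    (hg : ∀ t < n, (g t).length = w) {t : ℕ} (ht : t < n) :
    (((List.range n).flatMap g).drop (t * w)).take w = g t := by
  rw [drop_flatMap_range hg ht.le]
  obtain ⟨c, hc⟩ : ∃ c, n - t = c + 1 := ⟨n - t - 1, by omega⟩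
  rw [hc, List.range_succ_eq_map, List.flatMap_cons, Nat.add_zero,
    List.take_append_of_le_length (by rw [hg t ht]), List.take_of_length_le (by rw [hg t ht])]

theorem slice_flatMap_range_append {β : Type} {g : ℕ → List β} {w n : ℕ} {r : List β}
    (hg : ∀ t < n, (g t).length = w) {t : ℕ} (ht : t < n) :
    (((List.range n).flatMap g ++ r).drop (t * w)).take w = g t := by
  have hl := length_flatMap_range hg
  have h1 : (t + 1) * w ≤ n * w := Nat.mul_le_mul_right w ht
  rw [List.drop_append_of_le_length (by rw [hl]; nlinarith),
    List.take_append_of_le_length, slice_flatMap_range hg ht]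
  rw [List.length_drop, hl]
  have : (t + 1) * w = t * w + w := by ring
  omega

theorem getElem?_table {β : Type} {g : ℕ → ℕ → β} {n T : ℕ} {s q : ℕ} (hs : s < n) (hq : q < T) :
    ((List.range n).flatMap fun s => (List.range T).map fun q => g s q)[s * T + q]? =
      some (g s q) := by
  have h1 : ∀ t < n, ((List.range T).map fun q => g t q).length = T := by simp
  have h2 := slice_flatMap_range (g := fun s => (List.range T).map fun q => g s q) h1 hs
  have h3 : ((((List.range n).flatMap fun s => (List.range T).map fun q => g s q).drop (s * T)).take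
      T)[q]? = some (g s q) := by
    rw [h2]
    simp [hq]
  rw [List.getElem?_take_of_lt hq, List.getElem?_drop] at h3
  exact h3

/-! ### pairs -/

/-- the pair of words of length `w` with the code `c` -/
def dec2 (w : ℕ) (c : List Bool) : List Bool × List Bool :=
  let j := lead (c.map fun x => !x)
  ((c.drop (j + 1)).take j ++ false :: ((c.drop (j + 1 + j)).take (w - 1 - j)),
    (c.drop (j + 1)).take j ++ true :: ((c.drop (j + 1 + j + (w - 1 - j))).take (w - 1 - j)))

theorem dec2_surj {w : ℕ} {u v : List Bool} (hu : u.length = w) (hv : v.length = w)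
    (h : blt u v = true) : ∃ c, c.length = 2 * w - 1 ∧ dec2 w c = (u, v) := by
  obtain ⟨p, u', v', rfl, rfl⟩ := blt_split (hu.trans hv.symm) h
  simp only [List.length_append, List.length_cons] at hu hv
  refine ⟨List.replicate p.length false ++ (true :: (p ++ (u' ++ v'))), ?_, ?_⟩
  · simp only [List.length_append, List.length_replicate, List.length_cons]
    omega
  · unfold dec2
    have h1 : lead ((List.replicate p.length false ++ (true :: (p ++ (u' ++ v')))).map
        fun x => !x) = p.length := by
      rw [List.map_append, List.map_replicate, List.map_cons]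
      exact lead_eq _ _ rfl
    have e0 : (List.replicate p.length false ++ (true :: (p ++ (u' ++ v')))).drop (p.length + 1) =
        p ++ (u' ++ v') := by
      rw [← List.drop_drop, List.drop_left' (by simp)]
      rfl
    have e1 : (List.replicate p.length false ++ (true :: (p ++ (u' ++ v')))).drop
        (p.length + 1 + p.length) = u' ++ v' := by
      rw [← List.drop_drop, e0, List.drop_left' rfl]
    have hw : w - 1 - p.length = u'.length := by omega
    have e2 : (List.replicate p.length false ++ (true :: (p ++ (u' ++ v')))).drop
        (p.length + 1 + p.length + u'.length) = v' := by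
      rw [← List.drop_drop, e1, List.drop_left' rfl]
    simp only [h1, hw, e0, e1, e2]
    rw [List.take_left' rfl, List.take_left' rfl, List.take_of_length_le (by omega)]

/-- the labelling with the code `c` -/
def decF (w : ℕ) (c : List Bool) (v : ℕ) : List Bool :=
  if v = 0 then (dec2 w (c.take (2 * w - 1))).1
  else if v = 1 then (dec2 w (c.take (2 * w - 1))).2
  else (c.drop (2 * w - 1 + (v - 2) * w)).take w

theorem decF_surj {m w : ℕ} {f : ℕ → List Bool} (hm : 2 ≤ m) (hw : 1 ≤ w) (hf : LabOn m w f)
    (h : blt (f 0) (f 1) = true) :
    ∃ c, c.length = m * w - 1 ∧ ∀ v < m, decF w c v = f v := by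
  obtain ⟨c2, hc2, hd⟩ := dec2_surj (hf 0 (by omega)) (hf 1 (by omega)) h
  obtain ⟨n, rfl⟩ : ∃ n, m = n + 2 := ⟨m - 2, by omega⟩
  have hg : ∀ t < n, (f (t + 2)).length = w := fun t ht => hf _ (by omega)
  refine ⟨c2 ++ (List.range n).flatMap fun t => f (t + 2), ?_, ?_⟩
  · rw [List.length_append, hc2, length_flatMap_range hg]
    have : (n + 2) * w = n * w + 2 * w := by ring
    omega
  · intro v hv
    unfold decF
    rw [List.take_left' hc2, hd]
    split
    · rename_i h0; rw [h0]
    · split
      · rename_i h1; rw [h1]
      · have e : (c2 ++ (List.range n).flatMap fun t => f (t + 2)).drop (2 * w - 1 + (v - 2) * w) =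
            ((List.range n).flatMap fun t => f (t + 2)).drop ((v - 2) * w) := by
          rw [← List.drop_drop, List.drop_left' hc2]
        rw [e, slice_flatMap_range hg (by omega)]
        congr 1
        omega

end Pool.Agent.GAKT
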