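import Pool.Agent.Lib.MP_8416b9_lc.Order

/-!
# MP_8416b9_lc: combinatorics of the labelled copies (Comb1, Comb2, Comb3)
-/

set_option autoImplicit false

namespace Pool.Agent.GAKT

theorem length_flatMap_const {α β : Type} (l : List α) (g : α → List β) (c : ℕ)
    (h : ∀ x ∈ l, (g x).length = c) : (l.flatMap g).length = l.length * c := by
  induction l with
  | nil => simp
  | cons a l ih =>
    rw [List.flatMap_cons, List.length_append, h a (by simp), ih fun x hx => h x (by simp [hx]),
      List.length_cons]
    ring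

theorem flatMap_inj_of_length {α β : Type} (l : List α) (a b : α → List β)
    (h : ∀ x ∈ l, (a x).length = (b x).length) (heq : l.flatMap a = l.flatMap b) :
    ∀ x ∈ l, a x = b x := by
  induction l with
  | nil => intro x hx; simp at hx
  | cons y l ih =>
    rw [List.flatMap_cons, List.flatMap_cons] at heq
    obtain ⟨h1, h2⟩ := List.append_inj heq (h y (by simp))
    intro x hx
    rcases List.mem_cons.1 hx with rfl | hx
    · exact h1
    · exact ih (fun x hx => h x (by simp [hx])) h2 x hx

theorem comb3 : Comb3 := by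
  intro m w C X f hf hX
  unfold yF
  rw [List.length_append]
  have h1 : ((List.range m).flatMap fun r => f (vr m f r)).length = m * w := by
    rw [length_flatMap_const _ _ w, List.length_range]
    intro r hr
    rw [List.mem_range] at hr
    exact hf _ (vr_lt f (by omega) r)
  have h2 : ((List.range m).flatMap fun r => (List.range m).flatMap fun s =>
      X (vr m f r) (vr m f s)).length = m * m * C := by
    rw [length_flatMap_const _ _ (m * C), List.length_range, mul_assoc]
    intro r hr
    rw [List.mem_range] at hr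
    rw [length_flatMap_const _ _ C, List.length_range]
    intro s _
    exact hX _ (vr_lt f (by omega) r) _ (vr_lt f (by omega) s)
  rw [h1, h2]

theorem PermOn.surj {m : ℕ} {ρ : ℕ → ℕ} (h : PermOn m ρ) {v : ℕ} (hv : v < m) :
    ∃ u < m, ρ u = v := by
  have h1 : Function.Injective (fun u : Fin m => (⟨ρ u, h.1 u u.2⟩ : Fin m)) := by
    intro u u' huu
    apply Fin.ext
    exact h.2 u u.2 u' u'.2 (by simpa using huu)
  obtain ⟨u, hu⟩ := (Finite.injective_iff_surjective.1 h1) ⟨v, hv⟩
  exact ⟨u, u.2, by simpa using congrArg Fin.val hu⟩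

theorem PermOn.perm_range {m : ℕ} {ρ : ℕ → ℕ} (h : PermOn m ρ) :
    ((List.range m).map ρ).Perm (List.range m) := by
  apply (List.perm_ext_iff_of_nodup ?_ List.nodup_range).2
  · intro v
    rw [List.mem_map, List.mem_range]
    constructor
    · rintro ⟨u, hu, rfl⟩
      exact h.1 u (List.mem_range.1 hu)
    · intro hv
      obtain ⟨u, hu, huv⟩ := h.surj hv
      exact ⟨u, List.mem_range.2 hu, huv⟩
  · refine List.Nodup.map_on ?_ List.nodup_range
    intro u hu v hv huv
    exact h.2 u (List.mem_range.1 hu) v (List.mem_range.1 hv) huv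

theorem rank_comp {m : ℕ} {f : ℕ → List Bool} {ρ : ℕ → ℕ} (h : PermOn m ρ) (v : ℕ) :
    rank m (fun i => f (ρ i)) v = rank m f (ρ v) := by
  unfold rank
  rw [← List.countP_eq_length_filter, ← List.countP_eq_length_filter]
  have h1 := h.perm_range.countP_eq (fun u => blt (f u) (f (ρ v)))
  rw [List.countP_map] at h1
  exact h1

theorem comb1 : Comb1 := by
  intro m w X f ρ hf hi hρ
  have hf' : LabOn m w (fun i => f (ρ i)) := fun v hv => hf _ (hρ.1 v hv)
  have hi' : InjLab m (fun i => f (ρ i)) := fun u hu v hv huv =>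
    hρ.2 u hu v hv (hi _ (hρ.1 u hu) _ (hρ.1 v hv) huv)
  have key : ∀ r < m, ρ (vr m (fun i => f (ρ i)) r) = vr m f r := by
    intro r hr
    have hv := vr_lt (fun i => f (ρ i)) (by omega : 0 < m) r
    have h1 : rank m f (ρ (vr m (fun i => f (ρ i)) r)) = r := by
      rw [← rank_comp hρ, rank_vr hf' hi' hr]
    have h2 : rank m f (vr m f r) = r := rank_vr hf hi hr
    exact rank_inj hf hi (hρ.1 _ hv) (vr_lt f (by omega) r) (h1.trans h2.symm)
  unfold yF
  congr 1
  · apply flatMap_congr'
    intro r hr
    rw [List.mem_range] at hr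
    show f (ρ (vr m (fun i => f (ρ i)) r)) = f (vr m f r)
    rw [key r hr]
  · apply flatMap_congr'
    intro r hr
    apply flatMap_congr'
    intro s hs
    rw [List.mem_range] at hr hs
    show X (ρ (vr m (fun i => f (ρ i)) r)) (ρ (vr m (fun i => f (ρ i)) s)) = _
    rw [key r hr, key s hs]

theorem comb2 : Comb2 := by
  intro m w C X f g hf hg hif hig hX hrig heq
  rcases Nat.eq_zero_or_pos m with rfl | hm
  · intro v hv
    omega
  have hl1 : ∀ h : ℕ → List Bool, LabOn m w h →
      ((List.range m).flatMap fun r => h (vr m h r)).length = m * w := by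
    intro h hh
    rw [length_flatMap_const _ _ w, List.length_range]
    intro r _
    exact hh _ (vr_lt h hm r)
  obtain ⟨h1, h2⟩ := List.append_inj heq ((hl1 f hf).trans (hl1 g hg).symm)
  have hlab : ∀ r < m, f (vr m f r) = g (vr m g r) := by
    intro r hr
    refine flatMap_inj_of_length _ _ _ ?_ h1 r (List.mem_range.2 hr)
    intro x _
    rw [hf _ (vr_lt f hm x), hg _ (vr_lt g hm x)]
  have hent : ∀ r < m, ∀ s < m, X (vr m f r) (vr m f s) = X (vr m g r) (vr m g s) := by
    intro r hr
    have h3 : ((List.range m).flatMap fun s => X (vr m f r) (vr m f s)) =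
        (List.range m).flatMap fun s => X (vr m g r) (vr m g s) := by
      refine flatMap_inj_of_length _ _ _ ?_ h2 r (List.mem_range.2 hr)
      intro x _
      rw [length_flatMap_const _ _ C, length_flatMap_const _ _ C]
      · intro s _
        exact hX _ (vr_lt g hm x) _ (vr_lt g hm s)
      · intro s _
        exact hX _ (vr_lt f hm x) _ (vr_lt f hm s)
    intro s hs
    refine flatMap_inj_of_length _ _ _ ?_ h3 s (List.mem_range.2 hs)
    intro x _
    rw [hX _ (vr_lt f hm r) _ (vr_lt f hm x), hX _ (vr_lt g hm r) _ (vr_lt g hm x)]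
  have hρ : AutOn m X (fun v => vr m g (rank m f v)) := by
    refine ⟨⟨fun i _ => vr_lt g hm _, ?_⟩, ?_⟩
    · intro i hi j hj hij
      have h4 : rank m f i = rank m f j := by
        rw [← rank_vr hg hig (rank_lt hi), ← rank_vr hg hig (rank_lt hj)]
        exact congrArg (rank m g) hij
      exact rank_inj hf hif hi hj h4
    · intro i hi j hj
      show X (vr m g (rank m f i)) (vr m g (rank m f j)) = X i j
      rw [← hent _ (rank_lt hi) _ (rank_lt hj), vr_rank hf hif hi, vr_rank hf hif hj]
  intro v hv
  have h5 : vr m g (rank m f v) = v := hrig _ hρ v hv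
  have h6 := hlab _ (rank_lt (f := f) hv)
  rw [vr_rank hf hif hv, h5] at h6
  exact h6

end Pool.Agent.GAKT
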