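import Pool.Agent.Lib.MP_8416b9_lc.Order

/-!
# MP_8416b9_lc, module COMPL: a rigid structure passes the test with probability at least `1/4`
-/

set_option autoImplicit false

namespace Pool.Agent.GAKT

/-! ### general facts on lists and indices -/

theorem take_drop_ofFn {α : Type} {N : ℕ} (s : Fin N → α) (p n : ℕ) (h : p + n ≤ N) :
    ((List.ofFn s).drop p).take n = List.ofFn (fun t : Fin n => s ⟨p + t, by omega⟩) := by
  apply List.ext_getElem
  · simp; omega
  · intro i h1 h2; simp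

theorem idx_lt {x X y Y : ℕ} (hx : x < X) (hy : y < Y) : x * Y + y < X * Y := by
  have h := Nat.mul_le_mul_right Y (show x + 1 ≤ X from hx)
  rw [Nat.succ_mul] at h
  omega

theorem idx_surj {X Y i : ℕ} (h : i < X * Y) : ∃ x < X, ∃ y < Y, i = x * Y + y := by
  have hY : 0 < Y := Nat.pos_of_ne_zero (by rintro rfl; simp at h)
  exact ⟨i / Y, (Nat.div_lt_iff_lt_mul hY).2 h, i % Y, Nat.mod_lt _ hY,
    (Nat.div_add_mod' i Y).symm⟩

theorem length_flatMap_const {α β : Type} {l : List α} {g : α → List β} {c : ℕ}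
    (h : ∀ x ∈ l, (g x).length = c) : (l.flatMap g).length = l.length * c := by
  induction l with
  | nil => simp
  | cons x l ih =>
    rw [List.flatMap_cons, List.length_append, h x (by simp), ih (fun y hy => h y (by simp [hy])),
      List.length_cons, Nat.succ_mul, Nat.add_comm]

theorem flatMap_range_inj {β : Type} {c : ℕ} {g g' : ℕ → List β} (n : ℕ)
    (h : ∀ j < n, (g j).length = c) (h' : ∀ j < n, (g' j).length = c)
    (e : (List.range n).flatMap g = (List.range n).flatMap g') : ∀ j < n, g j = g' j := by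
  induction n with
  | zero => intro j hj; omega
  | succ n ih =>
    rw [List.range_succ, List.flatMap_append, List.flatMap_append] at e
    have hl : ((List.range n).flatMap g).length = ((List.range n).flatMap g').length := by
      rw [length_flatMap_const (c := c) (fun x hx => h x (by have := List.mem_range.1 hx; omega)),
        length_flatMap_const (c := c) (fun x hx => h' x (by have := List.mem_range.1 hx; omega))]
    obtain ⟨e1, e2⟩ := List.append_inj e hl
    intro j hj
    rcases Nat.lt_succ_iff_lt_or_eq.1 hj with hj | rfl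
    · exact ih (fun j hj => h j (by omega)) (fun j hj => h' j (by omega)) e1 j hj
    · simpa using e2

theorem flatMap_finRange {β : Type} (n : ℕ) (g : Fin n → List β) (g' : ℕ → List β)
    (h : ∀ i : Fin n, g i = g' i) : (List.range n).flatMap g' = (List.finRange n).flatMap g := by
  rw [← List.map_coe_finRange_eq_range (n := n), List.flatMap_map]
  exact flatMap_congr' fun i _ => (h i).symm

theorem map_finRange {β : Type} (n : ℕ) (g : Fin n → β) (g' : ℕ → β)
    (h : ∀ i : Fin n, g i = g' i) : (List.range n).map g' = (List.finRange n).map g := by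
  rw [← List.map_coe_finRange_eq_range (n := n), List.map_map]
  exact List.map_congr_left fun i _ => (h i).symm

theorem zipWith_ofFn {α β γ : Type} {n : ℕ} (f : α → β → γ) (g : Fin n → α) (h : Fin n → β) :
    List.zipWith f (List.ofFn g) (List.ofFn h) = List.ofFn fun i => f (g i) (h i) := by
  apply List.ext_getElem
  · simp
  · intro i h1 h2; simp

theorem ofFn_mul_eq_flatMap {α : Type} (l a : ℕ) (H : Fin l → Fin a → α) (s : Fin (l * a) → α)
    (h : ∀ (r : Fin l) (c : Fin a), s ⟨r * a + c, idx_lt r.2 c.2⟩ = H r c) :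
    List.ofFn s = (List.finRange l).flatMap fun r => List.ofFn (H r) := by
  have e : (List.finRange l).flatMap (fun r => List.ofFn (H r)) =
      (List.ofFn fun r => List.ofFn (H r)).flatten := by
    rw [List.flatMap_def, List.ofFn_eq_map (f := fun r => List.ofFn (H r))]
  rw [e, List.ofFn_mul]
  congr 2
  funext i
  congr 1
  funext j
  rw [← h i j]

/-! ### decoding the coins -/

section

variable (m k : ℕ)

/-- the raw data of a block: the labels of all samples -/
abbrev Raw : Type := Fin (bN k) → Fin m → Fin (wL k) → Bool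

/-- the sample space of a block: distinct labels in all samples -/
abbrev Smp : Type := Fin (bN k) → (Fin m ↪ (Fin (wL k) → Bool))

variable {m k}

theorem labIdx {q j v t : ℕ} (hq : q < 2 ^ k) (hj : j < bN k) (hv : v < m) (ht : t < wL k) :
    lN m k * aN m k + ((q * bN k + j) * m + v) * wL k + t < coinN m k := by
  have := idx_lt (idx_lt (idx_lt hq hj) hv) ht
  unfold coinN
  omega

theorem hIdx {r c : ℕ} (hr : r < lN m k) (hc : c < aN m k) : r * aN m k + c < coinN m k := by
  have := idx_lt hr hc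
  unfold coinN
  omega

/-- the linear map read from the coins -/
def Hof (s : Fin (coinN m k) → Bool) : Fin (lN m k) → Fin (aN m k) → Bool :=
  fun r c => s ⟨r * aN m k + c, hIdx r.2 c.2⟩

/-- the labels read from the coins -/
def Lof (s : Fin (coinN m k) → Bool) : Fin (2 ^ k) → Raw m k :=
  fun q j v t => s ⟨lN m k * aN m k + ((q * bN k + j) * m + v) * wL k + t,
    labIdx q.2 j.2 v.2 t.2⟩

theorem decode_injective : Function.Injective
    (fun s : Fin (coinN m k) → Bool => (Hof s, Lof s)) := by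
  intro s s' h
  simp only [Prod.mk.injEq] at h
  obtain ⟨h1, h2⟩ := h
  funext ⟨i, hi⟩
  by_cases hlt : i < lN m k * aN m k
  · obtain ⟨r, hr, c, hc, rfl⟩ := idx_surj hlt
    exact congrFun (congrFun h1 ⟨r, hr⟩) ⟨c, hc⟩
  · have hi' : i - lN m k * aN m k < 2 ^ k * bN k * m * wL k := by
      unfold coinN at hi; omega
    obtain ⟨x, hx, t, ht, h3⟩ := idx_surj hi'
    obtain ⟨y, hy, v, hv, rfl⟩ := idx_surj hx
    obtain ⟨q, hq, j, hj, rfl⟩ := idx_surj hy
    have hii : i = lN m k * aN m k + ((q * bN k + j) * m + v) * wL k + t := by omega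
    subst hii
    exact congrFun (congrFun (congrFun (congrFun h2 ⟨q, hq⟩) ⟨j, hj⟩) ⟨v, hv⟩) ⟨t, ht⟩

/-- number of raw blocks -/
theorem card_raw : Fintype.card (Raw m k) = 2 ^ (m * bN k * wL k) := by
  simp only [Raw, Fintype.card_pi, Fintype.card_bool, Finset.prod_const, Finset.card_univ,
    Fintype.card_fin, ← pow_mul]
  congr 1; ring

theorem card_decode : Fintype.card (Fin (coinN m k) → Bool) =
    Fintype.card ((Fin (lN m k) → Fin (aN m k) → Bool) × (Fin (2 ^ k) → Raw m k)) := by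
  have h1 : Fintype.card (Fin (2 ^ k) → Raw m k) = (2 ^ (m * bN k * wL k)) ^ (2 ^ k) := by
    rw [Fintype.card_fun, card_raw, Fintype.card_fin]
  rw [Fintype.card_prod, h1]
  simp only [Fintype.card_pi, Fintype.card_bool, Finset.prod_const, Finset.card_univ,
    Fintype.card_fin, ← pow_mul]
  rw [← pow_add]
  congr 1
  unfold coinN; ring

/-- the coins are a linear map and the labels -/
noncomputable def decode : (Fin (coinN m k) → Bool) ≃
    (Fin (lN m k) → Fin (aN m k) → Bool) × (Fin (2 ^ k) → Raw m k) :=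
  Equiv.ofBijective _ ((Fintype.bijective_iff_injective_and_card _).2
    ⟨decode_injective, card_decode⟩)

theorem decode_apply (s : Fin (coinN m k) → Bool) : decode s = (Hof s, Lof s) := rfl

/-- the labels of a raw block -/
def labelsOf (G : Raw m k) (j v : ℕ) : List Bool :=
  if h : j < bN k ∧ v < m then List.ofFn (G ⟨j, h.1⟩ ⟨v, h.2⟩) else []

theorem labelsOf_eq (G : Raw m k) {j v : ℕ} (hj : j < bN k) (hv : v < m) :
    labelsOf G j v = List.ofFn (G ⟨j, hj⟩ ⟨v, hv⟩) := dif_pos ⟨hj, hv⟩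

theorem labF_ofFn (s : Fin (coinN m k) → Bool) {q j v : ℕ} (hq : q < 2 ^ k) (hj : j < bN k)
    (hv : v < m) : labF m k (List.ofFn s) q j v = labelsOf (Lof s ⟨q, hq⟩) j v := by
  rw [labelsOf_eq _ hj hv]
  unfold labF
  rw [take_drop_ofFn]
  · rfl
  · have h2 : (q * bN k + j) * m + v + 1 ≤ 2 ^ k * bN k * m := idx_lt (idx_lt hq hj) hv
    have h3 := Nat.mul_le_mul_right (wL k) h2
    rw [Nat.succ_mul] at h3
    unfold coinN
    omega

theorem labOn_labelsOf (G : Raw m k) {j : ℕ} (hj : j < bN k) : LabOn m (wL k) (labelsOf G j) := by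
  intro v hv
  rw [labelsOf_eq _ hj hv, List.length_ofFn]

theorem injLab_labelsOf (G : Raw m k) {j : ℕ} (hj : j < bN k) :
    InjLab m (labelsOf G j) ↔ Function.Injective (G ⟨j, hj⟩) := by
  constructor
  · intro h u v huv
    have := h u u.2 v v.2 (by rw [labelsOf_eq _ hj u.2, labelsOf_eq _ hj v.2, huv])
    exact Fin.ext this
  · intro h u hu v hv huv
    rw [labelsOf_eq _ hj hu, labelsOf_eq _ hj hv] at huv
    have := h (List.ofFn_injective huv)
    exact congrArg Fin.val this

theorem good_iff (s : Fin (coinN m k) → Bool) : goodCoins m k (List.ofFn s) = true ↔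
    ∀ q j, Function.Injective (Lof s q j) := by
  rw [goodCoins_iff]
  constructor
  · intro h q j
    rw [← injLab_labelsOf _ j.2]
    intro u hu v hv
    rw [← labF_ofFn s q.2 j.2 hu, ← labF_ofFn s q.2 j.2 hv]
    exact h q q.2 j j.2 u hu v hv
  · intro h q hq j hj u hu v hv
    rw [labF_ofFn s hq hj hu, labF_ofFn s hq hj hv]
    exact (injLab_labelsOf _ hj).2 (h ⟨q, hq⟩ ⟨j, hj⟩) u hu v hv

theorem yBlock_length (h3 : Comb3) {X : ℕ → ℕ → List Bool} (hX : EntOn m (cN m) X) (G : Raw m k) :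
    (yBlock m k X (labelsOf G)).length = aN m k := by
  unfold yBlock
  rw [length_flatMap_const (c := m * wL k + m * m * cN m), List.length_range]
  · rfl
  · intro j hj
    exact h3 m (wL k) (cN m) X _ (labOn_labelsOf G (List.mem_range.1 hj)) hX

/-- the bits of the copies of a block -/
def Yfun (X : ℕ → ℕ → List Bool) (G : Raw m k) : Fin (aN m k) → Bool :=
  fun c => (yBlock m k X (labelsOf G)).getD c false

theorem ofFn_Yfun (h3 : Comb3) {X : ℕ → ℕ → List Bool} (hX : EntOn m (cN m) X) (G : Raw m k) :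
    List.ofFn (Yfun X G) = yBlock m k X (labelsOf G) := by
  apply List.ext_getElem
  · rw [List.length_ofFn, yBlock_length h3 hX]
  · intro i h1 h2
    rw [List.getElem_ofFn]
    exact List.getD_eq_getElem _ _ h2

/-- the raw block of a sample -/
def Smp.raw (F : Smp m k) : Raw m k := fun j v => F j v

theorem Yfun_injective (h2 : Comb2) (h3 : Comb3) {X : ℕ → ℕ → List Bool}
    (hX : EntOn m (cN m) X) (hr : RigidOn m X) :
    Function.Injective (fun F : Smp m k => Yfun X F.raw) := by
  intro F F' h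
  have h' : Yfun X F.raw = Yfun X F'.raw := h
  have e : yBlock m k X (labelsOf F.raw) = yBlock m k X (labelsOf F'.raw) := by
    rw [← ofFn_Yfun h3 hX, ← ofFn_Yfun h3 hX, h']
  have e2 := flatMap_range_inj (c := m * wL k + m * m * cN m) (bN k)
    (fun j hj => h3 m (wL k) (cN m) X _ (labOn_labelsOf F.raw hj) hX)
    (fun j hj => h3 m (wL k) (cN m) X _ (labOn_labelsOf F'.raw hj) hX) e
  funext j
  have e3 := h2 m (wL k) (cN m) X _ _ (labOn_labelsOf F.raw j.2) (labOn_labelsOf F'.raw j.2)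
    ((injLab_labelsOf F.raw j.2).2 (F j).injective)
    ((injLab_labelsOf F'.raw j.2).2 (F' j).injective) hX hr (e2 j j.2)
  apply DFunLike.ext
  intro v
  have e4 := e3 v v.2
  rw [labelsOf_eq _ j.2 v.2, labelsOf_eq _ j.2 v.2] at e4
  exact List.ofFn_injective e4

/-! ### the full string -/

/-- the hash values -/
def hashOf (H : Fin (lN m k) → Fin (aN m k) → Bool) (Y : Fin (2 ^ k) → Fin (aN m k) → Bool) :
    Fin (2 ^ k) → Fin (lN m k) → Bool :=
  fun q r => (List.ofFn fun c => H r c && Y q c).foldl xor false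

/-- the string with given hash values -/
def fullOf (H : Fin (lN m k) → Fin (aN m k) → Bool) (z : Fin (2 ^ k) → Fin (lN m k) → Bool) :
    List Bool :=
  ((List.finRange (lN m k)).flatMap fun r => (List.finRange (2 ^ k)).map fun q => z q r) ++
    (List.finRange (lN m k)).flatMap fun r => List.ofFn (H r)

theorem take_H (s : Fin (coinN m k) → Bool) : (List.ofFn s).take (lN m k * aN m k) =
    List.ofFn (fun t : Fin (lN m k * aN m k) => s ⟨t, by
      have := t.2; unfold coinN; omega⟩) := by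
  have h := take_drop_ofFn s 0 (lN m k * aN m k) (by unfold coinN; omega)
  rw [List.drop_zero] at h
  rw [h]
  congr 1
  funext t
  congr 1
  apply Fin.ext
  simp

theorem hbit_eq (h3 : Comb3) {X : ℕ → ℕ → List Bool} (hX : EntOn m (cN m) X)
    (s : Fin (coinN m k) → Bool) {q r : ℕ} (hq : q < 2 ^ k) (hr : r < lN m k) :
    hbit ((List.ofFn s).take (lN m k * aN m k)) (aN m k)
      (yBlock m k X (labF m k (List.ofFn s) q)) r =
      hashOf (Hof s) (fun q => Yfun X (Lof s q)) ⟨q, hq⟩ ⟨r, hr⟩ := by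
  have e1 : yBlock m k X (labF m k (List.ofFn s) q) = List.ofFn (Yfun X (Lof s ⟨q, hq⟩)) := by
    rw [ofFn_Yfun h3 hX]
    unfold yBlock
    apply flatMap_congr'
    intro j hj
    apply yF_congr (fun _ _ _ _ => rfl)
    intro v hv
    exact labF_ofFn s hq (List.mem_range.1 hj) hv
  have e2 : (((List.ofFn s).take (lN m k * aN m k)).drop (r * aN m k)).take (aN m k) =
      List.ofFn (Hof s ⟨r, hr⟩) := by
    rw [take_H, take_drop_ofFn]
    · rfl
    · have := Nat.mul_le_mul_right (aN m k) (show r + 1 ≤ lN m k from hr)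
      rw [Nat.succ_mul] at this
      exact this
  unfold hbit hashOf
  rw [e1, e2, zipWith_ofFn]

theorem fullStr_eq (h3 : Comb3) {X : ℕ → ℕ → List Bool} (hX : EntOn m (cN m) X)
    (s : Fin (coinN m k) → Bool) : fullStr m k X (List.ofFn s) =
      fullOf (Hof s) (hashOf (Hof s) (fun q => Yfun X (Lof s q))) := by
  unfold fullStr fullOf
  congr 1
  · apply flatMap_finRange
    intro r
    symm
    apply map_finRange
    intro q
    exact (hbit_eq h3 hX s q.2 r.2).symm
  · rw [take_H]
    exact ofFn_mul_eq_flatMap _ _ _ _ fun r c => rfl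

theorem fullOf_length (H : Fin (lN m k) → Fin (aN m k) → Bool)
    (z : Fin (2 ^ k) → Fin (lN m k) → Bool) :
    (fullOf H z).length = lN m k * 2 ^ k + lN m k * aN m k := by
  unfold fullOf
  rw [List.length_append, length_flatMap_const (c := 2 ^ k), length_flatMap_const (c := aN m k)]
  · simp
  · intro r _; simp
  · intro r _; simp


theorem flatMap_finRange_inj {β : Type} {c n : ℕ} {g g' : Fin n → List β}
    (h : ∀ j, (g j).length = c) (h' : ∀ j, (g' j).length = c)
    (e : (List.finRange n).flatMap g = (List.finRange n).flatMap g') (j : Fin n) :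
    g j = g' j := by
  rw [← flatMap_finRange n g (fun j => if h : j < n then g ⟨j, h⟩ else []) (fun i => by simp),
    ← flatMap_finRange n g' (fun j => if h : j < n then g' ⟨j, h⟩ else []) (fun i => by simp)] at e
  have := flatMap_range_inj (c := c) n (fun j hj => by simp [hj, h]) (fun j hj => by simp [hj, h'])
    e j j.2
  simpa using this

theorem fullOf_injective : Function.Injective
    (fun p : (Fin (lN m k) → Fin (aN m k) → Bool) × (Fin (2 ^ k) → Fin (lN m k) → Bool) =>
      fullOf p.1 p.2) := by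
  rintro ⟨H, z⟩ ⟨H', z'⟩ h
  simp only [fullOf] at h
  obtain ⟨e1, e2⟩ := List.append_inj h (by
    rw [length_flatMap_const (c := 2 ^ k), length_flatMap_const (c := 2 ^ k)] <;> simp)
  have f1 := flatMap_finRange_inj (c := 2 ^ k) (by simp) (by simp) e1
  have f2 := flatMap_finRange_inj (c := aN m k) (by simp) (by simp) e2
  refine Prod.ext (funext fun r => List.ofFn_injective (f2 r)) (funext fun q => funext fun r => ?_)
  have := f1 r
  rw [← List.ofFn_eq_map, ← List.ofFn_eq_map] at this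
  exact congrFun (List.ofFn_injective this) q

end

/-- strings whose tail is outside `A` -/
theorem card_tail {α : Type} [Finite α] (n : ℕ) (A : Set (List Bool))
    (hA : 2 * {x : Fin n → Bool | List.ofFn x ∉ A}.ncard ≤ 2 ^ n) (f : α → List Bool)
    (hf : Function.Injective f) (hl : ∀ x, (f x).length = n + 1) :
    {x : α | (f x).tail ∉ A}.ncard ≤ 2 ^ n := by
  refine le_trans ?_ hA
  have h2 : ((Set.univ : Set Bool) ×ˢ {x : Fin n → Bool | List.ofFn x ∉ A}).ncard =
      2 * {x : Fin n → Bool | List.ofFn x ∉ A}.ncard := by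
    rw [Set.ncard_prod, Set.ncard_univ]
    simp
  rw [← h2]
  have ht : ∀ x, List.ofFn (fun i : Fin n => (f x).getD (i + 1) false) = (f x).tail := by
    intro x
    apply List.ext_getElem
    · rw [List.length_ofFn, List.length_tail, hl]; rfl
    · intro i h1 h2
      rw [List.getElem_ofFn, List.getElem_tail]
      exact List.getD_eq_getElem _ _ (by rw [List.length_ofFn] at h1; rw [hl x]; omega)
  apply Set.ncard_le_ncard_of_injOn
    (fun x => ((f x).getD 0 false, fun i : Fin n => (f x).getD (i + 1) false))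
  · intro x hx
    refine ⟨Set.mem_univ _, ?_⟩
    show List.ofFn (fun i : Fin n => (f x).getD (i + 1) false) ∉ A
    rw [ht]
    exact hx
  · intro x _ y _ hxy
    simp only [Prod.mk.injEq] at hxy
    apply hf
    have h3 : (f x).tail = (f y).tail := by rw [← ht, ← ht, hxy.2]
    have hx := hl x
    have hy := hl y
    revert hx hy h3 hxy
    generalize f x = u
    generalize f y = v
    intro hxy h3 hx hy
    cases u with
    | nil => simp at hx
    | cons c u =>
      cases v with
      | nil => simp at hy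
      | cons d v =>
        simp only [List.tail_cons] at h3
        have := hxy.1
        simp only [List.getD_cons_zero] at this
        rw [this, h3]

/-- a lower bound for the number of injections -/
theorem descFactorial_lower (n m : ℕ) (hn : 0 < n) :
    (n : ℝ) ^ m * (1 - (m : ℝ) * (m - 1) / (2 * n)) ≤ (n.descFactorial m : ℝ) := by
  have hn' : (0 : ℝ) < n := by exact_mod_cast hn
  induction m with
  | zero => simp
  | succ m ih =>
    rcases le_or_gt (1 - ((m + 1 : ℕ) : ℝ) * ((m + 1 : ℕ) - 1) / (2 * n)) 0 with h0 | h0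
    · exact le_trans (mul_nonpos_of_nonneg_of_nonpos (by positivity) h0) (by positivity)
    · have hm : m ≤ n := by
        have h1 : ((m + 1 : ℕ) : ℝ) * ((m + 1 : ℕ) - 1) / (2 * n) < 1 := by linarith
        rw [div_lt_one (by positivity)] at h1
        push_cast at h1
        have h2 : (m + 1) * m < 2 * n := by
          have : ((m : ℝ) + 1) * m < 2 * n := by linarith
          exact_mod_cast this
        rcases Nat.eq_zero_or_pos m with rfl | hm
        · omega
        · nlinarith
      rw [Nat.descFactorial_succ, Nat.cast_mul, Nat.cast_sub hm]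
      have h3 : (n : ℝ) ^ (m + 1) * (1 - ((m + 1 : ℕ) : ℝ) * ((m + 1 : ℕ) - 1) / (2 * n)) ≤
          ((n : ℝ) - m) * ((n : ℝ) ^ m * (1 - (m : ℝ) * (m - 1) / (2 * n))) := by
        have e : ((n : ℝ) - m) * ((n : ℝ) ^ m * (1 - (m : ℝ) * (m - 1) / (2 * n))) -
            (n : ℝ) ^ (m + 1) * (1 - ((m + 1 : ℕ) : ℝ) * ((m + 1 : ℕ) - 1) / (2 * n)) =
            (n : ℝ) ^ m * (m * ((m : ℝ) * (m - 1)) / (2 * n)) := by
          push_cast
          field_simp
          ring
        have h4 : 0 ≤ (m : ℝ) * (m - 1) := by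
          rcases Nat.eq_zero_or_pos m with rfl | hm
          · simp
          · have : (1 : ℝ) ≤ m := by exact_mod_cast hm
            exact mul_nonneg (by linarith) (by linarith)
        have h5 : 0 ≤ (n : ℝ) ^ m * (m * ((m : ℝ) * (m - 1)) / (2 * n)) := by positivity
        linarith
      refine le_trans h3 (mul_le_mul_of_nonneg_left ih ?_)
      have : (m : ℝ) ≤ n := by exact_mod_cast hm
      linarith

theorem card_smp (m k : ℕ) :
    Fintype.card (Smp m k) = ((2 ^ wL k).descFactorial m) ^ (bN k) := by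
  rw [Fintype.card_fun, Fintype.card_embedding_eq, Fintype.card_fin, Fintype.card_fin,
    Fintype.card_fun, Fintype.card_fin, Fintype.card_bool]

theorem card_smp_lower {m k : ℕ} (hk : 4 * bN k * m ^ 2 ≤ 2 ^ k) :
    (2 : ℝ) ^ (m * bN k * wL k) * (1 - bN k * m ^ 2 / (2 * 2 ^ wL k)) ≤
      (Fintype.card (Smp m k) : ℝ) := by
  rw [card_smp]
  have h1 := descFactorial_lower (2 ^ wL k) m (by positivity)
  push_cast at h1 ⊢
  have hb : 1 ≤ bN k := by unfold bN; omega
  have hm2 : (m : ℝ) ^ 2 ≤ 2 ^ wL k := by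
    have h2 : m ^ 2 ≤ 2 ^ k := by nlinarith
    have h3 : (m : ℝ) ^ 2 ≤ 2 ^ k := by exact_mod_cast h2
    refine le_trans h3 (pow_le_pow_right₀ (by norm_num) (by unfold wL; omega))
  have hW : (0 : ℝ) < 2 ^ wL k := by positivity
  have hd : (m : ℝ) ^ 2 / (2 * 2 ^ wL k) ≤ 1 / 2 := by
    rw [div_le_div_iff₀ (by positivity) (by norm_num)]
    linarith
  have h4 : ((2 : ℝ) ^ wL k) ^ m * (1 - m ^ 2 / (2 * 2 ^ wL k)) ≤
      ((2 ^ wL k).descFactorial m : ℝ) := by
    refine le_trans (mul_le_mul_of_nonneg_left ?_ (by positivity)) h1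
    have : (m : ℝ) * (m - 1) / (2 * 2 ^ wL k) ≤ (m : ℝ) ^ 2 / (2 * 2 ^ wL k) := by
      apply div_le_div_of_nonneg_right _ (by positivity)
      have : (0 : ℝ) ≤ m := by positivity
      nlinarith
    linarith
  calc (2 : ℝ) ^ (m * bN k * wL k) * (1 - bN k * m ^ 2 / (2 * 2 ^ wL k))
      ≤ (2 : ℝ) ^ (m * bN k * wL k) * (1 - m ^ 2 / (2 * 2 ^ wL k)) ^ bN k := by
        apply mul_le_mul_of_nonneg_left _ (by positivity)
        have := one_add_mul_le_pow (a := -((m : ℝ) ^ 2 / (2 * 2 ^ wL k))) (by linarith) (bN k)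
        have e : (1 : ℝ) - bN k * m ^ 2 / (2 * 2 ^ wL k) =
            1 + bN k * -((m : ℝ) ^ 2 / (2 * 2 ^ wL k)) := by ring
        rw [e, sub_eq_add_neg]
        exact this
    _ = (((2 : ℝ) ^ wL k) ^ m * (1 - m ^ 2 / (2 * 2 ^ wL k))) ^ bN k := by
        rw [mul_pow, ← pow_mul, ← pow_mul]
        congr 2
        ring
    _ ≤ _ := by
        apply pow_le_pow_left₀ _ h4
        apply mul_nonneg (by positivity)
        linarith

theorem card_smp_upper (m k : ℕ) :
    (Fintype.card (Smp m k) : ℝ) ≤ (2 : ℝ) ^ (m * bN k * wL k) := by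
  rw [card_smp]
  have h1 : (2 ^ wL k).descFactorial m ≤ (2 ^ wL k) ^ m := Nat.descFactorial_le_pow _ _
  have h2 := Nat.pow_le_pow_left h1 (bN k)
  rw [← pow_mul, ← pow_mul] at h2
  have e : wL k * (m * bN k) = m * bN k * wL k := by ring
  rw [e] at h2
  exact_mod_cast h2

/-! ### the good coins -/

section

variable (m k : ℕ)

/-- the coins given by a linear map and samples -/
noncomputable def embS (p : (Fin (lN m k) → Fin (aN m k) → Bool) × (Fin (2 ^ k) → Smp m k)) :
    Fin (coinN m k) → Bool :=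
  decode.symm (p.1, fun q => (p.2 q).raw)

theorem embS_injective : Function.Injective (embS m k) := by
  intro p p' h
  have h2 := decode.symm.injective h
  simp only [Prod.mk.injEq] at h2
  refine Prod.ext h2.1 (funext fun q => ?_)
  have := congrFun h2.2 q
  funext j
  apply DFunLike.ext
  intro v
  exact congrFun (congrFun this j) v

variable {m k}

theorem Hof_embS (p : (Fin (lN m k) → Fin (aN m k) → Bool) × (Fin (2 ^ k) → Smp m k)) :
    Hof (embS m k p) = p.1 := by
  have := decode.apply_symm_apply (p.1, fun q => (p.2 q).raw)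
  exact congrArg Prod.fst this

theorem Lof_embS (p : (Fin (lN m k) → Fin (aN m k) → Bool) × (Fin (2 ^ k) → Smp m k)) :
    Lof (embS m k p) = fun q => (p.2 q).raw := by
  have := decode.apply_symm_apply (p.1, fun q => (p.2 q).raw)
  exact congrArg Prod.snd this

theorem good_eq_range : {s : Fin (coinN m k) → Bool | goodCoins m k (List.ofFn s) = true} =
    Set.range (embS m k) := by
  ext s
  rw [Set.mem_ofPred_eq, good_iff]
  constructor
  · intro h
    refine ⟨(Hof s, fun q j => ⟨Lof s q j, h q j⟩), ?_⟩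
    apply decode.injective
    unfold embS
    rw [Equiv.apply_symm_apply, decode_apply]
    rfl
  · rintro ⟨p, rfl⟩ q j
    rw [Lof_embS]
    exact (p.2 q j).injective

theorem ncard_good : {s : Fin (coinN m k) → Bool | goodCoins m k (List.ofFn s) = true}.ncard =
    2 ^ (lN m k * aN m k) * Fintype.card (Smp m k) ^ 2 ^ k := by
  rw [good_eq_range, ← Set.image_univ, Set.ncard_image_of_injective _ (embS_injective m k),
    Set.ncard_univ, Nat.card_eq_fintype_card, Fintype.card_prod, Fintype.card_fun (α := Fin (2 ^ k)),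
    Fintype.card_fin, Fintype.card_fun, Fintype.card_fun, Fintype.card_bool, Fintype.card_fin,
    Fintype.card_fin, ← pow_mul, Nat.mul_comm (aN m k)]

end

theorem compl_aux1 {m k : ℕ} (hb : 4 * bN k * m ^ 2 ≤ 2 ^ k) :
    ({s : Fin (coinN m k) → Bool | ¬ goodCoins m k (List.ofFn s) = true}.ncard : ℝ) ≤
      1 / 8 * 2 ^ coinN m k := by
  have h1 := Set.ncard_add_ncard_compl
    {s : Fin (coinN m k) → Bool | goodCoins m k (List.ofFn s) = true}
  rw [ncard_good, Set.compl_ofPred, Nat.card_eq_fintype_card,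
    Fintype.card_fun (α := Fin (coinN m k)) (β := Bool), Fintype.card_bool, Fintype.card_fin] at h1
  have h2 : (2 : ℝ) ^ (lN m k * aN m k) * (Fintype.card (Smp m k) : ℝ) ^ 2 ^ k +
    ({s : Fin (coinN m k) → Bool | ¬ goodCoins m k (List.ofFn s) = true}.ncard : ℝ) =
      2 ^ coinN m k := by exact_mod_cast h1
  have h3 := card_smp_lower hb
  have hk : (bN k : ℝ) * m ^ 2 / (2 * 2 ^ wL k) ≤ 1 / (8 * 2 ^ k) := by
    have : (4 : ℝ) * bN k * m ^ 2 ≤ 2 ^ k := by exact_mod_cast hb
    have e : (2 : ℝ) ^ wL k = 2 ^ k * 2 ^ k := by rw [← pow_add]; unfold wL; congr 1; ring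
    rw [e, div_le_div_iff₀ (by positivity) (by positivity)]
    have hp : (0 : ℝ) < 2 ^ k := by positivity
    nlinarith
  have h4 : (2 : ℝ) ^ (m * bN k * wL k) * (1 - 1 / (8 * 2 ^ k)) ≤ (Fintype.card (Smp m k) : ℝ) := by
    refine le_trans (mul_le_mul_of_nonneg_left ?_ (by positivity)) h3
    linarith
  have h1k : (1 : ℝ) ≤ 2 ^ k := one_le_pow₀ (by norm_num)
  have h5 : (1 : ℝ) / (8 * 2 ^ k) ≤ 1 := by
    rw [div_le_one (by positivity)]
    linarith
  have h6 : (1 : ℝ) - 1 / 8 ≤ (1 - 1 / (8 * 2 ^ k)) ^ 2 ^ k := by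
    have := one_add_mul_le_pow (a := -((1 : ℝ) / (8 * 2 ^ k))) (by linarith) (2 ^ k)
    have e : (1 : ℝ) + ((2 ^ k : ℕ) : ℝ) * -(1 / (8 * 2 ^ k)) = 1 - 1 / 8 := by
      push_cast
      field_simp
      ring
    rw [e, ← sub_eq_add_neg] at this
    exact this
  have h7 : ((2 : ℝ) ^ (m * bN k * wL k) * (1 - 1 / (8 * 2 ^ k))) ^ 2 ^ k ≤
      (Fintype.card (Smp m k) : ℝ) ^ 2 ^ k :=
    pow_le_pow_left₀ (mul_nonneg (by positivity) (by linarith)) h4 _
  have h8 : (2 : ℝ) ^ coinN m k * (1 - 1 / 8) ≤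
      (2 : ℝ) ^ (lN m k * aN m k) * (Fintype.card (Smp m k) : ℝ) ^ 2 ^ k := by
    have e : (2 : ℝ) ^ coinN m k =
        2 ^ (lN m k * aN m k) * ((2 : ℝ) ^ (m * bN k * wL k)) ^ 2 ^ k := by
      rw [← pow_mul, ← pow_add]
      congr 1
      unfold coinN
      ring
    rw [e, mul_assoc]
    apply mul_le_mul_of_nonneg_left _ (by positivity)
    refine le_trans (mul_le_mul_of_nonneg_left h6 (by positivity)) ?_
    rw [← mul_pow]
    exact h7
  linarith

theorem lN_spec {m k : ℕ} (hm : 1 ≤ m) (hk : 1 ≤ k) :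
    lN m k + (2 * k + 7) = m * bN k * wL k ∧ 1 ≤ lN m k := by
  have h1 : 2 * k + 9 ≤ m * bN k := by
    have := Nat.mul_le_mul_right (bN k) hm
    unfold bN at *; omega
  have h2 : (2 * k + 9) * 2 ≤ m * bN k * wL k :=
    Nat.mul_le_mul h1 (by unfold wL; omega)
  unfold lN
  omega

theorem compl_aux2 {m k : ℕ} (hm : 1 ≤ m) (hk : 1 ≤ k) (hb : 4 * bN k * m ^ 2 ≤ 2 ^ k) :
    (0 : ℝ) < Fintype.card (Smp m k) ∧
      (2 : ℝ) ^ k * √((2 : ℝ) ^ lN m k / Fintype.card (Smp m k)) ≤ 1 / 8 := by
  have h3 := card_smp_lower hb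
  obtain ⟨hl, _⟩ := lN_spec hm hk
  have hp : (0 : ℝ) < 2 ^ k := by positivity
  have h1k : (1 : ℝ) ≤ 2 ^ k := one_le_pow₀ (by norm_num)
  have h4 : (bN k : ℝ) * m ^ 2 / (2 * 2 ^ wL k) ≤ 1 / 2 := by
    have : (4 : ℝ) * bN k * m ^ 2 ≤ 2 ^ k := by exact_mod_cast hb
    have e : (2 : ℝ) ^ wL k = 2 ^ k * 2 ^ k := by rw [← pow_add]; unfold wL; congr 1; ring
    rw [e, div_le_div_iff₀ (by positivity) (by positivity)]
    nlinarith
  have h5 : (2 : ℝ) ^ (m * bN k * wL k) * (1 / 2) ≤ (Fintype.card (Smp m k) : ℝ) := by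
    refine le_trans (mul_le_mul_of_nonneg_left ?_ (by positivity)) h3
    linarith
  have hpos : (0 : ℝ) < Fintype.card (Smp m k) := lt_of_lt_of_le (by positivity) h5
  refine ⟨hpos, ?_⟩
  have h6 : (2 : ℝ) ^ lN m k / Fintype.card (Smp m k) ≤ (1 / 8 / 2 ^ k) ^ 2 := by
    rw [div_le_iff₀ hpos]
    have e : (2 : ℝ) ^ (m * bN k * wL k) = 2 ^ lN m k * (2 ^ k * 2 ^ k * 2 ^ 7) := by
      rw [← hl, ← pow_add, ← pow_add, ← pow_add]
      congr 1
      ring
    rw [e] at h5
    have h7 : (1 / 8 / (2 : ℝ) ^ k) ^ 2 * (2 ^ lN m k * (2 ^ k * 2 ^ k * 2 ^ 7) * (1 / 2)) =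
        2 ^ lN m k := by
      field_simp
      norm_num
    rw [← h7]
    exact mul_le_mul_of_nonneg_left h5 (by positivity)
  have h8 : √((2 : ℝ) ^ lN m k / Fintype.card (Smp m k)) ≤ 1 / 8 / 2 ^ k := by
    apply Real.sqrt_le_iff.2
    exact ⟨by positivity, h6⟩
  calc (2 : ℝ) ^ k * √((2 : ℝ) ^ lN m k / Fintype.card (Smp m k))
      ≤ 2 ^ k * (1 / 8 / 2 ^ k) := mul_le_mul_of_nonneg_left h8 (by positivity)
    _ = 1 / 8 := by field_simp

/-- the samples whose test string is outside `A` -/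
def badSet (m k : ℕ) (X : ℕ → ℕ → List Bool) (A : Set (List Bool)) :
    Set ((Fin (lN m k) → Fin (aN m k) → Bool) × (Fin (2 ^ k) → Smp m k)) :=
  {p | (fullOf p.1 (hashOf p.1 fun q => Yfun X (p.2 q).raw)).tail ∉ A}

theorem compl_aux3a (h3 : Comb3) {m k : ℕ}
    {X : ℕ → ℕ → List Bool} {A : Set (List Bool)} (hX : EntOn m (cN m) X) :
    {s : Fin (coinN m k) → Bool | goodCoins m k (List.ofFn s) = true ∧
      testStr m k X (List.ofFn s) ∉ A}.ncard ≤ (badSet m k X A).ncard := by
  have hK : {s : Fin (coinN m k) → Bool | goodCoins m k (List.ofFn s) = true ∧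
      testStr m k X (List.ofFn s) ∉ A} ⊆ embS m k '' badSet m k X A := by
    rintro s ⟨hs1, hs2⟩
    have hs3 : s ∈ Set.range (embS m k) := by
      rw [← good_eq_range]
      exact hs1
    obtain ⟨p, rfl⟩ := hs3
    refine ⟨p, ?_, rfl⟩
    unfold testStr at hs2
    rw [fullStr_eq h3 hX, Hof_embS, Lof_embS] at hs2
    exact hs2
  exact (Set.ncard_le_ncard hK (Set.toFinite _)).trans
    (Set.ncard_image_le (f := embS m k) (Set.toFinite _))

theorem compl_aux3b {m k : ℕ} {A : Set (List Bool)} (hm : 1 ≤ m) (hk : 1 ≤ k)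
    (hA : ∀ N : ℕ, 2 * {x : Fin N → Bool | List.ofFn x ∉ A}.ncard ≤ 2 ^ N) :
    ({c : (Fin (lN m k) → Fin (aN m k) → Bool) × (Fin (2 ^ k) → Fin (lN m k) → Bool) |
      (fullOf c.1 c.2).tail ∉ A}.ncard : ℝ) /
        (2 ^ (lN m k * aN m k) * (2 : ℝ) ^ (lN m k * 2 ^ k)) ≤ 1 / 2 := by
  obtain ⟨_, hl1⟩ := lN_spec hm hk
  obtain ⟨n, hn⟩ : ∃ n, lN m k * 2 ^ k + lN m k * aN m k = n + 1 := by
    have : 1 ≤ lN m k * 2 ^ k := Nat.mul_pos hl1 (by positivity)
    exact ⟨lN m k * 2 ^ k + lN m k * aN m k - 1, by omega⟩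
  have hB := card_tail n A (hA n) (fun p : (Fin (lN m k) → Fin (aN m k) → Bool) ×
      (Fin (2 ^ k) → Fin (lN m k) → Bool) => fullOf p.1 p.2) fullOf_injective
      (fun p => (fullOf_length p.1 p.2).trans hn)
  rw [div_le_iff₀ (by positivity), ← pow_add, Nat.add_comm, hn, pow_succ]
  have hB' : ({c : (Fin (lN m k) → Fin (aN m k) → Bool) × (Fin (2 ^ k) → Fin (lN m k) → Bool) |
      (fullOf c.1 c.2).tail ∉ A}.ncard : ℝ) ≤ 2 ^ n := by exact_mod_cast hB
  linarith

theorem compl_aux3c (h1 : LHLStatement) (h2 : Comb2) (h3 : Comb3) {m k : ℕ}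
    {X : ℕ → ℕ → List Bool} {A : Set (List Bool)} (hne : Nonempty (Smp m k))
    (hX : EntOn m (cN m) X) (hr : RigidOn m X) :
    ((badSet m k X A).ncard : ℝ) /
      (2 ^ (lN m k * aN m k) * (Fintype.card (Smp m k) : ℝ) ^ 2 ^ k) ≤
      ({c : (Fin (lN m k) → Fin (aN m k) → Bool) × (Fin (2 ^ k) → Fin (lN m k) → Bool) |
      (fullOf c.1 c.2).tail ∉ A}.ncard : ℝ) /
        (2 ^ (lN m k * aN m k) * (2 : ℝ) ^ (lN m k * 2 ^ k)) +
      ((2 ^ k : ℕ) : ℝ) * √((2 : ℝ) ^ lN m k / Fintype.card (Smp m k)) :=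
  h1 (Smp m k) (lN m k) (aN m k) (2 ^ k) (fun F => Yfun X F.raw)
    (Yfun_injective h2 h3 hX hr)
    {c : (Fin (lN m k) → Fin (aN m k) → Bool) × (Fin (2 ^ k) → Fin (lN m k) → Bool) |
      (fullOf c.1 c.2).tail ∉ A}

theorem compl_aux3 (h1 : LHLStatement) (h2 : Comb2) (h3 : Comb3) {m k : ℕ}
    {X : ℕ → ℕ → List Bool} {A : Set (List Bool)} (hm : 1 ≤ m) (hk : 1 ≤ k)
    (hb : 4 * bN k * m ^ 2 ≤ 2 ^ k) (hX : EntOn m (cN m) X) (hr : RigidOn m X)
    (hA : ∀ N : ℕ, 2 * {x : Fin N → Bool | List.ofFn x ∉ A}.ncard ≤ 2 ^ N) :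
    ({s : Fin (coinN m k) → Bool | goodCoins m k (List.ofFn s) = true ∧
      testStr m k X (List.ofFn s) ∉ A}.ncard : ℝ) ≤ 5 / 8 * 2 ^ coinN m k := by
  obtain ⟨hpos, hsq⟩ := compl_aux2 hm hk hb
  have hne : Nonempty (Smp m k) := by
    rw [← Fintype.card_pos_iff]
    exact_mod_cast hpos
  have hc : ({s : Fin (coinN m k) → Bool | goodCoins m k (List.ofFn s) = true ∧
      testStr m k X (List.ofFn s) ∉ A}.ncard : ℝ) ≤ (badSet m k X A).ncard :=
    Nat.cast_le.2 (compl_aux3a h3 hX)
  refine le_trans hc ?_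
  have hBr := compl_aux3b hm hk hA
  have hL := compl_aux3c (A := A) h1 h2 h3 hne hX hr
  rw [Nat.cast_pow, Nat.cast_ofNat] at hL
  have h5 := hL.trans (add_le_add hBr hsq)
  rw [div_le_iff₀ (mul_pos (by positivity) (pow_pos hpos _))] at h5
  refine le_trans h5 ?_
  have e1 : (1 : ℝ) / 2 + 1 / 8 = 5 / 8 := by norm_num
  rw [e1]
  apply mul_le_mul_of_nonneg_left _ (by norm_num)
  have e : (2 : ℝ) ^ coinN m k =
      2 ^ (lN m k * aN m k) * ((2 : ℝ) ^ (m * bN k * wL k)) ^ 2 ^ k := by
    rw [← pow_mul, ← pow_add]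
    congr 1
    unfold coinN
    ring
  rw [e]
  exact mul_le_mul_of_nonneg_left (pow_le_pow_left₀ hpos.le (card_smp_upper m k) _) (by positivity)

/-- COMPL: a rigid structure passes the test with probability at least `1/4`. -/
theorem compl (h1 : LHLStatement) (h2 : Comb2) (h3 : Comb3) : ComplStatement := by
  intro m k X A hm hk hb hX hr hA
  have hs : {s : Fin (coinN m k) → Bool |
      ¬ (goodCoins m k (List.ofFn s) = true ∧ testStr m k X (List.ofFn s) ∈ A)} ⊆
      {s : Fin (coinN m k) → Bool | ¬ goodCoins m k (List.ofFn s) = true} ∪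
      {s : Fin (coinN m k) → Bool | goodCoins m k (List.ofFn s) = true ∧
        testStr m k X (List.ofFn s) ∉ A} := by
    intro s hs
    by_cases hg : goodCoins m k (List.ofFn s) = true
    · right
      exact ⟨hg, fun h => hs ⟨hg, h⟩⟩
    · left
      exact hg
  have h4 := (Set.ncard_le_ncard hs (Set.toFinite _)).trans (Set.ncard_union_le _ _)
  have h5 := compl_aux1 hb
  have h6 := compl_aux3 h1 h2 h3 hm hk hb hX hr hA
  have h7 : ({s : Fin (coinN m k) → Bool |
      ¬ (goodCoins m k (List.ofFn s) = true ∧ testStr m k X (List.ofFn s) ∈ A)}.ncard : ℝ) ≤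
      ({s : Fin (coinN m k) → Bool | ¬ goodCoins m k (List.ofFn s) = true}.ncard : ℝ) +
      ({s : Fin (coinN m k) → Bool | goodCoins m k (List.ofFn s) = true ∧
        testStr m k X (List.ofFn s) ∉ A}.ncard : ℝ) := by exact_mod_cast h4
  have h8 : (4 : ℝ) * ({s : Fin (coinN m k) → Bool |
      ¬ (goodCoins m k (List.ofFn s) = true ∧ testStr m k X (List.ofFn s) ∈ A)}.ncard : ℝ) ≤
      3 * 2 ^ coinN m k := by linarith
  exact_mod_cast h8

end Pool.Agent.GAKT
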