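import Pool.Agent.Lib.MP_8416b9_lc.Defs

/-!
# MP_8416b9_lc: the objects of the proof and the statements of the modules
-/

set_option autoImplicit false

namespace Pool.Agent.GAKT

/-! ### labelled copies of a structure -/

/-- one step of the comparison of two words -/
def cmpStep (s : Option Bool) (p : Bool × Bool) : Option Bool :=
  match s with
  | some b => some b
  | none => if p.1 = p.2 then none else some p.2

/-- strict lexicographic comparison (for words of equal length) -/
def blt (u v : List Bool) : Bool := ((u.zip v).foldl cmpStep none) == some true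

/-- number of vertices with a smaller label -/
def rank (m : ℕ) (f : ℕ → List Bool) (v : ℕ) : ℕ :=
  ((List.range m).filter (fun u => blt (f u) (f v))).length

/-- the vertex of rank `r` -/
def vr (m : ℕ) (f : ℕ → List Bool) (r : ℕ) : ℕ :=
  (((List.range m).find? (fun v => rank m f v == r))).getD 0

/-- The published copy: the sorted labels and the structure in the sorted order. -/
def yF (m : ℕ) (X : ℕ → ℕ → List Bool) (f : ℕ → List Bool) : List Bool :=
  ((List.range m).flatMap fun r => f (vr m f r)) ++
    (List.range m).flatMap fun r => (List.range m).flatMap fun s => X (vr m f r) (vr m f s)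

/-- `ρ` restricts to a permutation of `{0, …, m-1}` -/
def PermOn (m : ℕ) (ρ : ℕ → ℕ) : Prop :=
  (∀ i < m, ρ i < m) ∧ ∀ i < m, ∀ j < m, ρ i = ρ j → i = j

/-- `ρ` is an automorphism of `X` -/
def AutOn (m : ℕ) (X : ℕ → ℕ → List Bool) (ρ : ℕ → ℕ) : Prop :=
  PermOn m ρ ∧ ∀ i < m, ∀ j < m, X (ρ i) (ρ j) = X i j

/-- the structure has only the trivial automorphism -/
def RigidOn (m : ℕ) (X : ℕ → ℕ → List Bool) : Prop :=
  ∀ ρ, AutOn m X ρ → ∀ i < m, ρ i = i

/-- labels of length `w` -/
def LabOn (m w : ℕ) (f : ℕ → List Bool) : Prop := ∀ v < m, (f v).length = w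

/-- distinct labels -/
def InjLab (m : ℕ) (f : ℕ → List Bool) : Prop := ∀ u < m, ∀ v < m, f u = f v → u = v

/-- entries of length `C` -/
def EntOn (m C : ℕ) (X : ℕ → ℕ → List Bool) : Prop := ∀ i < m, ∀ j < m, (X i j).length = C

/-- COMB1: the copy does not depend on the numbering of the vertices. -/
def Comb1 : Prop := ∀ (m : ℕ) (w : ℕ) (X : ℕ → ℕ → List Bool) (f : ℕ → List Bool) (ρ : ℕ → ℕ),
  LabOn m w f → InjLab m f → PermOn m ρ →
    yF m (fun i j => X (ρ i) (ρ j)) (fun i => f (ρ i)) = yF m X f

/-- COMB2: for a rigid structure the copy determines the labelling. -/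
def Comb2 : Prop := ∀ (m w C : ℕ) (X : ℕ → ℕ → List Bool) (f g : ℕ → List Bool),
  LabOn m w f → LabOn m w g → InjLab m f → InjLab m g → EntOn m C X → RigidOn m X →
    yF m X f = yF m X g → ∀ v < m, f v = g v

/-- COMB3: length of the copy -/
def Comb3 : Prop := ∀ (m w C : ℕ) (X : ℕ → ℕ → List Bool) (f : ℕ → List Bool),
  LabOn m w f → EntOn m C X → (yF m X f).length = m * w + m * m * C

/-! ### parameters -/

/-- length of a label -/
def wL (k : ℕ) : ℕ := 2 * k
/-- number of samples in a block -/
def bN (k : ℕ) : ℕ := 2 * k + 9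
/-- length of an entry -/
def cN (m : ℕ) : ℕ := m + 5
/-- length of the copies in a block -/
def aN (m k : ℕ) : ℕ := bN k * (m * wL k + m * m * cN m)
/-- length of the hash values -/
def lN (m k : ℕ) : ℕ := m * bN k * wL k - (2 * k + 7)
/-- length of the code of a block -/
def kN (m k : ℕ) : ℕ := bN k * (m * wL k - 1)
/-- number of random bits of a test -/
def coinN (m k : ℕ) : ℕ := lN m k * aN m k + 2 ^ k * bN k * m * wL k

/-! ### the test string -/

/-- a bit of the hash value -/
def hbit (H : List Bool) (a : ℕ) (Y : List Bool) (r : ℕ) : Bool :=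
  (List.zipWith (fun x y => x && y) ((H.drop (r * a)).take a) Y).foldl (fun x y => xor x y) false

/-- the copies of a block; `F j v` is the label of the vertex `v` in the sample `j` -/
def yBlock (m k : ℕ) (X : ℕ → ℕ → List Bool) (F : ℕ → ℕ → List Bool) : List Bool :=
  (List.range (bN k)).flatMap fun j => yF m X (F j)

/-- the label of the vertex `v` in the sample `j` of the block `q`, read from the coins -/
def labF (m k : ℕ) (s : List Bool) (q j v : ℕ) : List Bool :=
  ((s.drop (lN m k * aN m k + ((q * bN k + j) * m + v) * wL k))).take (wL k)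

/-- the full string -/
def fullStr (m k : ℕ) (X : ℕ → ℕ → List Bool) (s : List Bool) : List Bool :=
  ((List.range (lN m k)).flatMap fun r => (List.range (2 ^ k)).map fun q =>
    hbit (s.take (lN m k * aN m k)) (aN m k) (yBlock m k X (labF m k s q)) r) ++
      s.take (lN m k * aN m k)

/-- the string about which the oracle is asked -/
def testStr (m k : ℕ) (X : ℕ → ℕ → List Bool) (s : List Bool) : List Bool :=
  (fullStr m k X s).tail

/-- the labels of each sample are distinct -/
def goodCoins (m k : ℕ) (s : List Bool) : Bool :=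
  (List.range (2 ^ k)).all fun q => (List.range (bN k)).all fun j =>
    (List.range m).all fun u => (List.range m).all fun v =>
      (labF m k s q j u != labF m k s q j v) || (u == v)

theorem goodCoins_iff {m k : ℕ} {s : List Bool} : goodCoins m k s = true ↔
    ∀ q < 2 ^ k, ∀ j < bN k, InjLab m (labF m k s q j) := by
  unfold goodCoins InjLab
  simp only [List.all_eq_true, List.mem_range, Bool.or_eq_true, bne_iff_ne, beq_iff_eq, ne_eq]
  constructor
  · intro h q hq j hj u hu v hv huv
    exact (h q hq j hj u hu v hv).resolve_left (not_not_intro huv)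
  · intro h q hq j hj u hu v hv
    by_cases huv : labF m k s q j u = labF m k s q j v
    · right; exact h q hq j hj u hu v hv huv
    · left; exact huv

/-! ### statements of the main modules -/

/-- COUNT: at least half of the strings of each length are in `R_KT`. -/
def CountStatement : Prop := ∀ (U : UMachine) (N : ℕ),
  2 * {x : Fin N → Bool | List.ofFn x ∉ RKT U}.ncard ≤ 2 ^ N

/-- LHL: leftover hash lemma for `T` blocks hashed by the same linear map. `S` is the (uniform)
sample space of one block. For every set `B` of pairs (linear map, values), the probabilities of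
`B` for the hash values of independent samples and for uniform values differ by at most
`T √(2^l/|S|)`. -/
def LHLStatement : Prop := ∀ (S : Type) [Fintype S] [Nonempty S] (l a T : ℕ)
  (Y : S → Fin a → Bool), Function.Injective Y →
  ∀ (B : Set ((Fin l → Fin a → Bool) × (Fin T → Fin l → Bool))),
    (({p : (Fin l → Fin a → Bool) × (Fin T → S) |
        (p.1, fun q r => (List.ofFn fun c => p.1 r c && Y (p.2 q) c).foldl xor false) ∈ B}.ncard : ℝ) /
        (2 ^ (l * a) * (Fintype.card S : ℝ) ^ T)) ≤
      ((B.ncard : ℝ) / (2 ^ (l * a) * (2 : ℝ) ^ (l * T))) +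
        T * √((2:ℝ) ^ l / Fintype.card S)

/-- COMPL: a rigid structure passes the test with probability at least `1/4`. -/
def ComplStatement : Prop := ∀ (m k : ℕ) (X : ℕ → ℕ → List Bool) (A : Set (List Bool)),
  1 ≤ m → 1 ≤ k → 4 * bN k * m ^ 2 ≤ 2 ^ k → EntOn m (cN m) X → RigidOn m X →
  (∀ N : ℕ, 2 * {x : Fin N → Bool | List.ofFn x ∉ A}.ncard ≤ 2 ^ N) →
    4 * {s : Fin (coinN m k) → Bool |
      ¬ (goodCoins m k (List.ofFn s) = true ∧ testStr m k X (List.ofFn s) ∈ A)}.ncard ≤
        3 * 2 ^ coinN m k

/-- MACH: a structure which is not rigid never passes the test. -/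
def MachStatement : Prop := ∀ U : UMachine, ∃ e : ℕ, ∀ (m k : ℕ) (X : ℕ → ℕ → List Bool)
  (s : List Bool), 2 ≤ m → 1 ≤ k → (m + k + 2) ^ e ≤ 2 ^ k → EntOn m (cN m) X → ¬ RigidOn m X →
    s.length = coinN m k → goodCoins m k s = true → testStr m k X s ∉ RKT U

/-! ### the structures of the search -/

/-- the unary code of the colour `c`, of length `N` -/
def oneHot (N c : ℕ) : List Bool := (List.range N).map fun t => t == c

/-- First mark on the left side: `0, …, i` individualized. -/
def markL (n i a : ℕ) : ℕ := if a ≤ i then a else n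

/-- First mark on the right side: `0, …, i-1` individualized, and `j` in the place of `i`. -/
def markR (n i j a : ℕ) : ℕ := if a = j then i else if a < i then a else n

/-- The structure on `2n` points: two copies of the graph with adjacency `g`; the diagonal
carries the marks `2·mark + [a = k]` (left) and `2·mark + [a = l]` (right). -/
def sX (n : ℕ) (g : ℕ → ℕ → Bool) (i j k l : ℕ) (u v : ℕ) : List Bool :=
  let N := 2 * n + 5
  if u = v then
    if u < n then oneHot N (3 + 2 * markL n i u + (if u = k then 1 else 0))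
    else oneHot N (3 + 2 * markR n i j (u - n) + (if u - n = l then 1 else 0))
  else if (u < n) ↔ (v < n) then
    (if g (u % n) (v % n) then oneHot N 1 else oneHot N 0)
  else oneHot N 2

/-- The main structure: two copies of the graph, whose sides are distinguished. -/
def sM (n : ℕ) (g : ℕ → ℕ → Bool) (u v : ℕ) : List Bool :=
  let N := 2 * n + 5
  if u = v then
    if u < n then oneHot N 3 else oneHot N 4
  else if (u < n) ↔ (v < n) then
    (if g (u % n) (v % n) then oneHot N 1 else oneHot N 0)
  else oneHot N 2

/-- `τ` is an automorphism of the graph with adjacency `g` on `n` vertices -/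
def GAutOn (n : ℕ) (g : ℕ → ℕ → Bool) (τ : ℕ → ℕ) : Prop :=
  PermOn n τ ∧ ∀ u < n, ∀ v < n, g (τ u) (τ v) = g u v

/-- SEARCH -/
def SearchStatement : Prop := ∀ (n : ℕ) (g : ℕ → ℕ → Bool), 1 ≤ n → (∀ u < n, g u u = false) →
  EntOn (2 * n) (cN (2 * n)) (sM n g) ∧
  (∀ i j k l, EntOn (2 * n) (cN (2 * n)) (sX n g i j k l)) ∧
  (RigidOn (2 * n) (sM n g) ↔ ∀ τ, GAutOn n g τ → ∀ v < n, τ v = v) ∧
  ((∃ τ, GAutOn n g τ ∧ ∃ v < n, τ v ≠ v) →
    ∃ i < n, ∃ j < n, ∃ τ, GAutOn n g τ ∧ (∃ v < n, τ v ≠ v) ∧
      ∀ k < n, ∀ l < n, (¬ RigidOn (2 * n) (sX n g i j k l) ↔ l = τ k))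

end Pool.Agent.GAKT
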