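import Pool.Agent.Lib.MP_8416b9_lc.Core

/-!
# MP_8416b9_lc: statements of the remaining modules
-/

set_option autoImplicit false

namespace Pool.Agent.GAKT

/-- AMP: amplification by independent repetition. -/
def AmpStatement : Prop := ∀ (Q L N : ℕ) (F : ℕ → List Bool → Prop) (V : Set ℕ), 1 ≤ Q →
  Q * (4 * Q) * L ≤ N →
  (∀ v ∈ V, v < Q ∧ 4 * {s : Fin L → Bool | F v (List.ofFn s)}.ncard ≤ 3 * 2 ^ L) →
    2 * {r : Fin N → Bool | ∃ v ∈ V, ∀ u < 4 * Q,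
      F v (((List.ofFn r).drop ((v * (4 * Q) + u) * L)).take L)}.ncard ≤ 2 ^ N

/-- PARAM: choice of the parameters. -/
def ParamStatement : Prop := ∀ e : ℕ, ∃ κ : ℕ, 1 ≤ κ ∧ ∀ n j : ℕ, 1 ≤ n → n + 2 ≤ 2 ^ j →
  (2 * n + κ * j + 2) ^ e ≤ 2 ^ (κ * j) ∧ 4 * bN (κ * j) * (2 * n) ^ 2 ≤ 2 ^ (κ * j)

/-- SIZE: the number of random bits needed is bounded by a polynomial in the length `n²` of the
input word. -/
def SizeStatement : Prop := ∀ κ : ℕ, ∃ c : ℕ, ∀ n j : ℕ, 1 ≤ n → 2 ^ j ≤ 2 * (n + 2) →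
  (n ^ 4 + 1) * (4 * (n ^ 4 + 1)) * (coinN (2 * n) (κ * j) + 1) ≤ (n * n + 2) ^ c

end Pool.Agent.GAKT
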