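import Pool.Agent.Lib.MP_8416b9_lc.Core

/-!
# MP_8416b9_lc, module COUNT: at least half of the strings of each length are in `R_KT`
-/

set_option autoImplicit false

namespace Pool.Agent.GAKT

/-- A description determines the described string (among the strings of the same length). -/
theorem describes_unique {U : UMachine} {d : List Bool} {t t' : ℕ} {x y : List Bool}
    (hl : x.length = y.length) (hx : Describes U d t x) (hy : Describes U d t' y) : x = y := by
  wlog htt : t ≤ t' generalizing t t' x y
  · exact (this hl.symm hy hx (by omega)).symm
  apply List.ext_getElem? ?_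
  intro i
  by_cases hi : i ≤ x.length
  · have h1 : U.acc d (i + 1) (x[i]?) t :=
      (hx (i + 1) (x[i]?) (by omega) (by omega)).2 (by simp)
    have h2 := (hy (i + 1) (x[i]?) (by omega) (by omega)).1 (U.acc_mono _ _ _ _ _ htt h1)
    simpa using h2.symm
  · rw [List.getElem?_eq_none (by omega), List.getElem?_eq_none (by omega)]

/-- pad a word to the length `n` -/
def padTo (n : ℕ) (d : List Bool) : List Bool := List.replicate (n - 1 - d.length) false ++ true :: d

theorem padTo_length {n : ℕ} {d : List Bool} (h : d.length < n) : (padTo n d).length = n := by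
  simp only [padTo, List.length_append, List.length_replicate, List.length_cons]; omega

theorem padTo_inj {n : ℕ} {d d' : List Bool} (h : d.length < n) (h' : d'.length < n)
    (e : padTo n d = padTo n d') : d = d' := by
  have key : ∀ (a b : ℕ) (u v : List Bool),
      List.replicate a false ++ true :: u = List.replicate b false ++ true :: v → u = v := by
    intro a
    induction a with
    | zero =>
      intro b u v h
      cases b with
      | zero => simpa using h
      | succ b => simp [List.replicate_succ] at h
    | succ a ih =>
      intro b u v h
      cases b with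
      | zero => simp [List.replicate_succ] at h
      | succ b =>
        simp only [List.replicate_succ, List.cons_append, List.cons.injEq, true_and] at h
        exact ih b u v h
  exact key _ _ _ _ e

theorem count : CountStatement := by
  intro U N
  classical
  set B : Set (Fin N → Bool) := {x : Fin N → Bool | List.ofFn x ∉ RKT U} with hB
  have hex : ∀ x ∈ B, ∃ d : List Bool, d.length < N - 1 ∧ ∃ t, Describes U d t (List.ofFn x) := by
    intro x hx
    have hx' : List.ofFn x ∉ RKT U := hx
    simp only [RKT, Set.mem_setOf_eq, not_forall, not_le] at hx'
    obtain ⟨d, t, hd, hlt⟩ := hx'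
    refine ⟨d, ?_, t, hd⟩
    have ht : t ≠ 0 := by
      rintro rfl
      exact U.acc_zero _ _ _ ((hd 1 ((List.ofFn x)[0]?) (by omega) (by omega)).2 (by simp))
    rw [List.length_ofFn] at hlt
    omega
  rcases B.eq_empty_or_nonempty with hBe | ⟨x0, hx0⟩
  · rw [hBe]; simp
  obtain ⟨d0, hd0, -⟩ := hex x0 hx0
  let D : (Fin N → Bool) → List Bool := fun x => if h : x ∈ B then (hex x h).choose else []
  have hD : ∀ x ∈ B, (D x).length < N - 1 ∧ ∃ t, Describes U (D x) t (List.ofFn x) := by
    intro x hx
    have : D x = (hex x hx).choose := dif_pos hx
    rw [this]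
    exact (hex x hx).choose_spec
  let f : (Fin N → Bool) → (Fin (N - 1) → Bool) := fun x i => (padTo (N - 1) (D x)).getD i false
  have hf : Set.InjOn f B := by
    intro x hx y hy hxy
    obtain ⟨hlx, t, ht⟩ := hD x hx
    obtain ⟨hly, t', ht'⟩ := hD y hy
    have hpad : padTo (N - 1) (D x) = padTo (N - 1) (D y) := by
      apply List.ext_getElem
      · rw [padTo_length hlx, padTo_length hly]
      · intro i h1 h2
        rw [padTo_length hlx] at h1
        have := congrFun hxy ⟨i, h1⟩
        simp only [f] at this
        rw [List.getD_eq_getElem _ _ (by rw [padTo_length hlx]; exact h1),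
          List.getD_eq_getElem _ _ (by rw [padTo_length hly]; exact h1)] at this
        exact this
    have hDD := padTo_inj hlx hly hpad
    rw [hDD] at ht
    exact List.ofFn_injective (describes_unique (by simp) ht ht')
  have h1 : B.ncard ≤ (Set.univ : Set (Fin (N - 1) → Bool)).ncard :=
    Set.ncard_le_ncard_of_injOn f (fun _ _ => Set.mem_univ _) hf (Set.toFinite _)
  rw [Set.ncard_univ, Nat.card_eq_fintype_card] at h1
  simp only [Fintype.card_pi, Fintype.card_bool, Finset.prod_const, Finset.card_univ,
    Fintype.card_fin] at h1
  calc 2 * B.ncard ≤ 2 * 2 ^ (N - 1) := by omega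
    _ = 2 ^ N := by rw [← pow_succ']; congr 1; omega

end Pool.Agent.GAKT
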