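import Mathlib
import Pool.Agent.Lib.PolyTime.More

/-!
# MP_8416b9_lc: official definitions

`KT` complexity relative to a universal machine with random access, the oracle set `R_KT`,
zero-error probabilistic polynomial time relative to an oracle, and Graph Automorphism.
-/

set_option autoImplicit false

namespace Pool.Agent.GAKT

open Pool.Agent.PolyTime

/-- `f` is computable in polynomial time by a Turing machine (Mathlib's
`TM2ComputableInPolyTime`), inputs and outputs being written as bit strings in the standard
prefix encoding `encode` of words, pairs, lists, options and sums. -/
def PolyTimeComputable {α β : Type} [Rep α] [Rep β] (f : α → β) : Prop :=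
  Nonempty (Turing.TM2ComputableInPolyTime (encode (α := α)) (encode (α := β)) f)

/-! ### Universal machines with random access, `KT` and `R_KT` -/

/-- The symbols `0, 1, *`: a bit, or the end marker `* = none`. -/
abbrev Symb : Type := Option Bool

/-- The number with binary digits `l`, least significant digit first. -/
def val : List Bool → ℕ
  | [] => 0
  | b :: l => (if b then 1 else 0) + 2 * val l

/-- A procedure with random access to a string `d`. Its input is an index `i` (in binary) and a
symbol `b`. Given this input and the list of all the answers received so far, it either asks for
the bit of `d` at a binary address (`inl`), or stops with a decision (`inr`). -/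
abbrev Proc : Type := (List Bool × Symb) × List (Option Bool) → List Bool ⊕ Bool

/-- The answers received by the procedure `δ` on the input `x` in its first `m` moves:
the answer to the address `a` is the bit `d[a]` of `d`, or `none` beyond the end of `d`. -/
def readLog (δ : Proc) (d : List Bool) (x : List Bool × Symb) : ℕ → List (Option Bool)
  | 0 => []
  | m + 1 =>
    match δ (x, readLog δ d x m) with
    | .inl a => readLog δ d x m ++ [d[val a]?]
    | .inr _ => readLog δ d x m

/-- A universal machine `U` with random access to a description string: `acc d i b t` says that
`U^d(i,b)` accepts within `t` steps. Acceptance takes at least one step, and every procedure with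
random access whose next-move function is computable in polynomial time can be simulated: there is
a string `p` (its program) such that `U^{pd}(i,b)` gives the decision of the procedure on
`d, i, b`, in a number of steps polynomial in the length of `i` and in the number of moves. -/
structure UMachine where
  /-- `U^d(i,b)` accepts within `t` steps -/
  acc : List Bool → ℕ → Symb → ℕ → Prop
  acc_zero : ∀ d i b, ¬ acc d i b 0
  acc_mono : ∀ d i b t t', t ≤ t' → acc d i b t → acc d i b t'
  universal : ∀ δ : Proc, PolyTimeComputable δ → ∃ (p : List Bool) (c : ℕ),
    ∀ (d : List Bool) (i : ℕ) (b : Symb) (m : ℕ) (o : Bool),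
      δ ((Nat.bits i, b), readLog δ d (Nat.bits i, b) m) = .inr o →
        (o = true → acc (p ++ d) i b (((Nat.bits i).length + m + 2) ^ c)) ∧
        (o = false → ∀ t, ¬ acc (p ++ d) i b t)

/-- `d` describes `x` within `t` steps: for all `1 ≤ i ≤ |x| + 1` and all `b ∈ {0,1,*}`,
`U^d(i,b)` accepts within `t` steps exactly when `x_i = b` (where `x_{|x|+1} = *`). -/
def Describes (U : UMachine) (d : List Bool) (t : ℕ) (x : List Bool) : Prop :=
  ∀ (i : ℕ) (b : Symb), 1 ≤ i → i ≤ x.length + 1 → (U.acc d i b t ↔ x[i - 1]? = b)

/-- The set `R_KT` of `KT`-random strings: `KT(x) ≥ |x|`, i.e. `|d| + t ≥ |x|` whenever `d`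
describes `x` within `t` steps. -/
def RKT (U : UMachine) : Set (List Bool) :=
  {x | ∀ (d : List Bool) (t : ℕ), Describes U d t x → x.length ≤ d.length + t}

/-! ### Zero-error probabilistic polynomial time with an oracle -/

/-- An oracle algorithm. Given its input word, its random bits and the list of all the answers of
the oracle received so far, it either asks the oracle about a word (`inl`), or stops with an output
(`inr`): `some true` (yes), `some false` (no), or `none` (don't know). -/
abbrev OProc : Type := (List Bool × List Bool) × List Bool → List Bool ⊕ Option Bool

open Classical in
/-- The answers received by the oracle algorithm `δ` in its first `m` moves. -/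
noncomputable def oracleLog (δ : OProc) (A : Set (List Bool)) (x : List Bool × List Bool) :
    ℕ → List Bool
  | 0 => []
  | m + 1 =>
    match δ (x, oracleLog δ A x m) with
    | .inl q => oracleLog δ A x m ++ [decide (q ∈ A)]
    | .inr _ => oracleLog δ A x m

/-- `L ∈ ZPP^A`: some oracle algorithm whose next-move function is computable in polynomial time
stops, on every input `w` and all random strings `r` of length `N = (|w|+2)^c`, after at most `N`
moves, never gives a wrong answer, and answers don't know for at most half of the `r`. -/
def InZPP (A L : Set (List Bool)) : Prop :=
  ∃ (δ : OProc) (c : ℕ), PolyTimeComputable δ ∧ ∀ w : List Bool,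
    (∀ r : List Bool, r.length = (w.length + 2) ^ c →
      ∃ o : Option Bool, δ ((w, r), oracleLog δ A (w, r) ((w.length + 2) ^ c)) = .inr o ∧
        ∀ b : Bool, o = some b → (b = true ↔ w ∈ L)) ∧
    2 * {r : Fin ((w.length + 2) ^ c) → Bool |
        δ ((w, List.ofFn r), oracleLog δ A (w, List.ofFn r) ((w.length + 2) ^ c)) =
          .inr none}.ncard ≤ 2 ^ ((w.length + 2) ^ c)

/-! ### Graph Automorphism -/

open Classical in
/-- The adjacency matrix of a graph on `n` vertices, written row by row. -/
noncomputable def adjWord {n : ℕ} (G : SimpleGraph (Fin n)) : List Bool :=
  (List.finRange n).flatMap fun i => (List.finRange n).map fun j => decide (G.Adj i j)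

/-- Graph Automorphism: the graphs with an automorphism other than the identity. -/
def GA : Set (List Bool) :=
  {w | ∃ (n : ℕ) (G : SimpleGraph (Fin n)), w = adjWord G ∧ ∃ σ : G ≃g G, ∃ i, σ i ≠ i}

end Pool.Agent.GAKT
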