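import Pool.Agent.Lib.MP_8416b9_lc.Core

/-!
# MP_8416b9_lc: the leftover hash lemma
-/

set_option autoImplicit false

namespace Pool.Agent.GAKT

namespace LHL

open Finset

/-- a bit as an element of `ZMod 2` -/
def phi (b : Bool) : ZMod 2 := if b then 1 else 0

theorem phi_inj {a b : Bool} (h : phi a = phi b) : a = b := by
  cases a <;> cases b <;> simp_all [phi]

theorem phi_xor (a b : Bool) : phi (a ^^ b) = phi a + phi b := by
  cases a <;> cases b <;> decide

theorem phi_and (a b : Bool) : phi (a && b) = phi a * phi b := by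
  cases a <;> cases b <;> decide

theorem phi_not (a : Bool) : phi (!a) = phi a + 1 := by
  cases a <;> decide

theorem phi_foldl (l : List Bool) (c : Bool) :
    phi (l.foldl xor c) = phi c + (l.map phi).sum := by
  induction l generalizing c with
  | nil => simp
  | cons b l ih => simp [ih, phi_xor, add_assoc]

/-- the inner product -/
def dot {a : ℕ} (x y : Fin a → Bool) : Bool :=
  (List.ofFn fun c => x c && y c).foldl xor false

theorem phi_dot {a : ℕ} (x y : Fin a → Bool) : phi (dot x y) = ∑ c, phi (x c) * phi (y c) := by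
  unfold dot
  rw [phi_foldl, List.map_ofFn, List.sum_ofFn, show phi false = 0 from rfl, zero_add]
  apply Finset.sum_congr rfl
  intro c _
  exact phi_and _ _

/-- the rows on which two words have the same inner product -/
def eqRows {a : ℕ} (y y' : Fin a → Bool) : Finset (Fin a → Bool) :=
  univ.filter fun x => dot x y = dot x y'

theorem card_eqRows {a : ℕ} {y y' : Fin a → Bool} (h : y ≠ y') :
    2 * (eqRows y y').card = 2 ^ a := by
  obtain ⟨c, hc⟩ : ∃ c, y c ≠ y' c := by
    by_contra hcon
    push Not at hcon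
    exact h (funext hcon)
  have key : ∀ x : Fin a → Bool,
      (dot (Function.update x c (!x c)) y = dot (Function.update x c (!x c)) y') ↔
        ¬ (dot x y = dot x y') := by
    intro x
    have e : ∀ z : Fin a → Bool, phi (dot (Function.update x c (!x c)) z) =
        phi (dot x z) + phi (z c) := by
      intro z
      rw [phi_dot, phi_dot, ← Finset.add_sum_erase _ _ (mem_univ c),
        ← Finset.add_sum_erase univ (fun c => phi (x c) * phi (z c)) (mem_univ c)]
      have : ∑ d ∈ univ.erase c, phi (Function.update x c (!x c) d) * phi (z d) =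
          ∑ d ∈ univ.erase c, phi (x d) * phi (z d) := by
        apply Finset.sum_congr rfl
        intro d hd
        rw [Function.update_of_ne (Finset.ne_of_mem_erase hd)]
      rw [this, Function.update_self, phi_not]
      ring
    constructor
    · intro h1 h2
      have h3 := e y
      rw [h1, e y', h2] at h3
      exact hc (phi_inj (add_left_cancel h3)).symm
    · intro h1
      apply phi_inj
      rw [e, e]
      revert hc h1
      generalize dot x y = p
      generalize dot x y' = q
      generalize y c = r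
      generalize y' c = s
      revert p q r s
      decide
  have hinv : Function.Involutive (fun x : Fin a → Bool => Function.update x c (!x c)) := by
    intro x
    funext d
    by_cases hd : d = c
    · subst hd; simp
    · simp [Function.update_of_ne hd]
  have hcard : (eqRows y y').card = (univ.filter fun x => ¬ (dot x y = dot x y')).card := by
    apply Finset.card_bij (fun x _ => Function.update x c (!x c))
    · intro x hx
      simp only [eqRows, mem_filter, mem_univ, true_and] at hx ⊢
      rw [key]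
      exact not_not_intro hx
    · intro x _ x' _ hxx
      exact hinv.injective hxx
    · intro x hx
      refine ⟨Function.update x c (!x c), ?_, hinv x⟩
      simp only [eqRows, mem_filter, mem_univ, true_and] at hx ⊢
      rw [key]
      exact hx
  have htot := Finset.card_filter_add_card_filter_not (s := (univ : Finset (Fin a → Bool)))
    (fun x => dot x y = dot x y')
  have hU : (univ : Finset (Fin a → Bool)).card = 2 ^ a := by simp
  rw [hU] at htot
  have : (eqRows y y').card = (univ.filter fun x => dot x y = dot x y').card := rfl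
  omega

variable {S : Type} [Fintype S] {l a : ℕ} (Y : S → Fin a → Bool)

/-- the hash value -/
def hs (H : Fin l → Fin a → Bool) (s : S) : Fin l → Bool := fun r => dot (H r) (Y s)

/-- the number of samples with a given hash value -/
def cnt (H : Fin l → Fin a → Bool) (z : Fin l → Bool) : ℕ := (univ.filter fun s => hs Y H s = z).card

theorem card_coll {s s' : S} (hY : Function.Injective Y) (hs' : s ≠ s') :
    2 ^ l * (univ.filter fun H : Fin l → Fin a → Bool => hs Y H s = hs Y H s').card = 2 ^ (l * a) := by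
  have h1 : (univ.filter fun H : Fin l → Fin a → Bool => hs Y H s = hs Y H s') =
      Fintype.piFinset (fun _ : Fin l => eqRows (Y s) (Y s')) := by
    ext H
    simp [hs, eqRows, funext_iff]
  rw [h1, Fintype.card_piFinset]
  simp only [prod_const, card_univ, Fintype.card_fin]
  rw [← mul_pow, card_eqRows (hY.ne hs'), ← pow_mul, mul_comm]

theorem sum_cnt (H : Fin l → Fin a → Bool) : ∑ z, cnt Y H z = Fintype.card S := by
  unfold cnt
  rw [← Finset.card_univ (α := S)]
  exact (Finset.card_eq_sum_card_fiberwise (f := hs Y H) (s := univ) (t := univ)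
    (fun _ _ => mem_univ _)).symm

theorem sum_cnt_sq (H : Fin l → Fin a → Bool) :
    ∑ z, (cnt Y H z) ^ 2 = (univ.filter fun p : S × S => hs Y H p.1 = hs Y H p.2).card := by
  rw [Finset.card_eq_sum_card_fiberwise (f := fun p : S × S => hs Y H p.1) (t := univ)
    (fun _ _ => mem_univ _)]
  apply Finset.sum_congr rfl
  intro z _
  have : (filter (fun p : S × S => hs Y H p.1 = z) (filter (fun p : S × S => hs Y H p.1 = hs Y H p.2) univ)) =
      (univ.filter fun s => hs Y H s = z) ×ˢ (univ.filter fun s => hs Y H s = z) := by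
    ext ⟨p, q⟩
    simp only [mem_filter, mem_univ, true_and, mem_product]
    constructor
    · rintro ⟨h1, h2⟩
      exact ⟨h2, h1 ▸ h2⟩
    · rintro ⟨h1, h2⟩
      exact ⟨h1.trans h2.symm, h1⟩
  rw [this, card_product, pow_two]
  rfl

theorem sum_sum_cnt_sq (hY : Function.Injective Y) :
    2 ^ l * ∑ H : Fin l → Fin a → Bool, ∑ z, (cnt Y H z) ^ 2 ≤
      2 ^ l * (Fintype.card S * 2 ^ (l * a)) + Fintype.card S * Fintype.card S * 2 ^ (l * a) := by
  classical
  have h1 : ∑ H : Fin l → Fin a → Bool, ∑ z, (cnt Y H z) ^ 2 =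
      ∑ p : S × S, (univ.filter fun H : Fin l → Fin a → Bool => hs Y H p.1 = hs Y H p.2).card := by
    simp_rw [sum_cnt_sq, Finset.card_filter]
    rw [Finset.sum_comm]
  rw [h1, Finset.mul_sum, Fintype.sum_prod_type]
  have h2 : ∀ s : S, ∑ s' : S, 2 ^ l *
      (univ.filter fun H : Fin l → Fin a → Bool => hs Y H s = hs Y H s').card ≤
      2 ^ l * 2 ^ (l * a) + Fintype.card S * 2 ^ (l * a) := by
    intro s
    rw [← Finset.add_sum_erase _ _ (mem_univ s)]
    apply add_le_add
    · simp [← pow_mul, mul_comm a l]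
    · calc ∑ s' ∈ univ.erase s, 2 ^ l *
            (univ.filter fun H : Fin l → Fin a → Bool => hs Y H s = hs Y H s').card
          = ∑ s' ∈ univ.erase s, 2 ^ (l * a) := by
            apply Finset.sum_congr rfl
            intro s' hs'
            exact card_coll Y hY (Finset.ne_of_mem_erase hs').symm
        _ ≤ ∑ s' : S, 2 ^ (l * a) :=
            Finset.sum_le_sum_of_subset (Finset.erase_subset _ _)
        _ = Fintype.card S * 2 ^ (l * a) := by simp
  calc ∑ s : S, ∑ s' : S, 2 ^ l *
      (univ.filter fun H : Fin l → Fin a → Bool => hs Y H s = hs Y H s').card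
      ≤ ∑ s : S, (2 ^ l * 2 ^ (l * a) + Fintype.card S * 2 ^ (l * a)) :=
        Finset.sum_le_sum fun s _ => h2 s
    _ = _ := by simp; ring

/-- the distribution of the hash value -/
noncomputable def mu (H : Fin l → Fin a → Bool) (z : Fin l → Bool) : ℝ :=
  (cnt Y H z : ℝ) / Fintype.card S

variable [Nonempty S]

theorem card_pos' : (0 : ℝ) < Fintype.card S := by
  exact_mod_cast Fintype.card_pos

theorem mu_nonneg (H : Fin l → Fin a → Bool) (z : Fin l → Bool) : 0 ≤ mu Y H z := by
  unfold mu; positivity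

theorem sum_mu (H : Fin l → Fin a → Bool) : ∑ z, mu Y H z = 1 := by
  unfold mu
  rw [← Finset.sum_div, ← Nat.cast_sum, sum_cnt]
  exact div_self (card_pos' (S := S)).ne'

theorem sum_sq (hY : Function.Injective Y) :
    ∑ H : Fin l → Fin a → Bool, ∑ z, (mu Y H z - 1 / 2 ^ l) ^ 2 ≤
      2 ^ (l * a) / (Fintype.card S : ℝ) := by
  have hS := card_pos' (S := S)
  have e1 : ∀ H : Fin l → Fin a → Bool, ∑ z, (mu Y H z - 1 / 2 ^ l) ^ 2 =
      (∑ z, ((cnt Y H z : ℝ)) ^ 2) / (Fintype.card S : ℝ) ^ 2 - 1 / 2 ^ l := by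
    intro H
    have : ∀ z, (mu Y H z - 1 / 2 ^ l) ^ 2 =
        ((cnt Y H z : ℝ)) ^ 2 / (Fintype.card S : ℝ) ^ 2 - 2 * (1 / 2 ^ l) * mu Y H z +
          (1 / 2 ^ l) ^ 2 := by
      intro z
      unfold mu
      rw [sub_sq, div_pow]
      ring
    simp_rw [this]
    rw [Finset.sum_add_distrib, Finset.sum_sub_distrib, ← Finset.mul_sum, sum_mu,
      ← Finset.sum_div]
    simp only [sum_const, card_univ, Fintype.card_fun, Fintype.card_bool, Fintype.card_fin,
      nsmul_eq_mul]
    push_cast
    field_simp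
    ring
  simp_rw [e1]
  rw [Finset.sum_sub_distrib, ← Finset.sum_div]
  simp only [sum_const, card_univ, Fintype.card_fun, Fintype.card_bool, Fintype.card_fin,
      nsmul_eq_mul]
  have h := sum_sum_cnt_sq (l := l) Y hY
  have h' : (2 : ℝ) ^ l * ∑ H : Fin l → Fin a → Bool, ∑ z, ((cnt Y H z : ℝ)) ^ 2 ≤
      2 ^ l * (Fintype.card S * 2 ^ (l * a)) + Fintype.card S * Fintype.card S * 2 ^ (l * a) := by
    exact_mod_cast h
  have h3 : (∑ H : Fin l → Fin a → Bool, ∑ z, ((cnt Y H z : ℝ)) ^ 2) ≤
      Fintype.card S * 2 ^ (l * a) + Fintype.card S * Fintype.card S * 2 ^ (l * a) / 2 ^ l := by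
    have h2l : (0 : ℝ) < 2 ^ l := by positivity
    have := div_le_div_of_nonneg_right h' h2l.le
    rw [mul_div_cancel_left₀ _ h2l.ne', add_div, mul_div_cancel_left₀ _ h2l.ne'] at this
    exact this
  have h4 : (∑ H : Fin l → Fin a → Bool, ∑ z, ((cnt Y H z : ℝ)) ^ 2) / (Fintype.card S : ℝ) ^ 2 ≤
      2 ^ (l * a) / (Fintype.card S : ℝ) + 2 ^ (l * a) / 2 ^ l := by
    rw [div_le_iff₀ (by positivity)]
    refine h3.trans (le_of_eq ?_)
    field_simp
  have h5 : ((2 ^ a) ^ l : ℕ) * (1 / (2 : ℝ) ^ l) = 2 ^ (l * a) / 2 ^ l := by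
    push_cast
    rw [← pow_mul, mul_comm a l]
    ring
  rw [h5]
  linarith

theorem sum_abs (hY : Function.Injective Y) :
    ∑ H : Fin l → Fin a → Bool, ∑ z, |mu Y H z - 1 / 2 ^ l| ≤
      2 ^ (l * a) * √((2 : ℝ) ^ l / Fintype.card S) := by
  have hS := card_pos' (S := S)
  rw [← Fintype.sum_prod_type' (f := fun (H : Fin l → Fin a → Bool) (z : Fin l → Bool) =>
    |mu Y H z - 1 / 2 ^ l|)]
  have h1 := sum_sq (l := l) Y hY
  rw [← Fintype.sum_prod_type' (f := fun (H : Fin l → Fin a → Bool) (z : Fin l → Bool) =>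
    (mu Y H z - 1 / 2 ^ l) ^ 2)] at h1
  have h2 := sq_sum_le_card_mul_sum_sq (s := (univ : Finset ((Fin l → Fin a → Bool) × (Fin l → Bool))))
    (f := fun p => |mu Y p.1 p.2 - 1 / 2 ^ l|)
  simp only [sq_abs, card_univ, Fintype.card_prod, Fintype.card_fun, Fintype.card_bool,
    Fintype.card_fin] at h2
  apply le_of_sq_le_sq ?_ (by positivity)
  rw [mul_pow, Real.sq_sqrt (by positivity)]
  refine h2.trans ?_
  calc (((2 ^ a) ^ l * 2 ^ l : ℕ) : ℝ) * ∑ x : (Fin l → Fin a → Bool) × (Fin l → Bool),
        (mu Y x.1 x.2 - 1 / 2 ^ l) ^ 2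
      ≤ (((2 ^ a) ^ l * 2 ^ l : ℕ) : ℝ) * (2 ^ (l * a) / (Fintype.card S : ℝ)) :=
        mul_le_mul_of_nonneg_left h1 (by positivity)
    _ = (2 ^ (l * a)) ^ 2 * (2 ^ l / Fintype.card S) := by
        push_cast
        rw [← pow_mul, mul_comm a l]
        ring

/-- products of two probability vectors -/
theorem prod_dist {V : Type} [Fintype V] (μ u : V → ℝ) (hμ : ∀ z, 0 ≤ μ z) (hu : ∀ z, 0 ≤ u z)
    (hμ1 : ∑ z, μ z = 1) (hu1 : ∑ z, u z = 1) (T : ℕ) :
    ∑ z : Fin T → V, |∏ q, μ (z q) - ∏ q, u (z q)| ≤ T * ∑ z, |μ z - u z| := by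
  induction T with
  | zero => simp
  | succ T ih =>
    rw [← (Fin.consEquiv (fun _ : Fin (T + 1) => V)).sum_comp, Fintype.sum_prod_type]
    simp only [Fin.consEquiv_apply, Fin.prod_univ_succ, Fin.cons_zero, Fin.cons_succ]
    have hb : ∀ (x : V) (z : Fin T → V),
        |μ x * ∏ q, μ (z q) - u x * ∏ q, u (z q)| ≤
          μ x * |∏ q, μ (z q) - ∏ q, u (z q)| + |μ x - u x| * ∏ q, u (z q) := by
      intro x z
      have e : μ x * ∏ q, μ (z q) - u x * ∏ q, u (z q) =
          μ x * (∏ q, μ (z q) - ∏ q, u (z q)) + (μ x - u x) * ∏ q, u (z q) := by ring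
      rw [e]
      refine (abs_add_le _ _).trans ?_
      rw [abs_mul, abs_mul, abs_of_nonneg (hμ x),
        abs_of_nonneg (Finset.prod_nonneg fun q _ => hu (z q))]
    calc ∑ x, ∑ z : Fin T → V, |μ x * ∏ q, μ (z q) - u x * ∏ q, u (z q)|
        ≤ ∑ x, ∑ z : Fin T → V,
          (μ x * |∏ q, μ (z q) - ∏ q, u (z q)| + |μ x - u x| * ∏ q, u (z q)) :=
          Finset.sum_le_sum fun x _ => Finset.sum_le_sum fun z _ => hb x z
      _ = (∑ z : Fin T → V, |∏ q, μ (z q) - ∏ q, u (z q)|) + ∑ x, |μ x - u x| := by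
          simp_rw [Finset.sum_add_distrib, ← Finset.mul_sum]
          rw [← Finset.sum_mul, hμ1, one_mul, ← Finset.sum_mul, ← Fintype.sum_pow, hu1, one_pow,
            mul_one]
      _ ≤ T * ∑ z, |μ z - u z| + ∑ x, |μ x - u x| := by gcongr
      _ = ((T + 1 : ℕ) : ℝ) * ∑ z, |μ z - u z| := by push_cast; ring

open Classical in
theorem card_fib (T : ℕ) (B : Set ((Fin l → Fin a → Bool) × (Fin T → Fin l → Bool))) :
    {p : (Fin l → Fin a → Bool) × (Fin T → S) | (p.1, fun q => hs Y p.1 (p.2 q)) ∈ B}.ncard =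
      ∑ H : Fin l → Fin a → Bool, ∑ z : Fin T → Fin l → Bool,
        if (H, z) ∈ B then ∏ q, cnt Y H (z q) else 0 := by
  rw [Set.ncard_eq_toFinset_card']
  rw [Finset.card_eq_sum_card_fiberwise
    (f := fun p : (Fin l → Fin a → Bool) × (Fin T → S) => (p.1, fun q => hs Y p.1 (p.2 q)))
    (t := univ) (fun _ _ => mem_univ _), Fintype.sum_prod_type]
  apply Finset.sum_congr rfl
  intro H _
  apply Finset.sum_congr rfl
  intro z _
  by_cases hB : (H, z) ∈ B
  · rw [if_pos hB]
    have : ∏ q, cnt Y H (z q) =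
        (Fintype.piFinset fun q => univ.filter fun s => hs Y H s = z q).card := by
      rw [Fintype.card_piFinset]
      rfl
    rw [this]
    apply Finset.card_bij (fun p _ => p.2)
    · intro p hp
      simp only [mem_filter, Set.mem_toFinset, Set.mem_ofPred_eq, Prod.mk.injEq] at hp
      obtain ⟨_, h1, h2⟩ := hp
      simp only [Fintype.mem_piFinset, mem_filter, mem_univ, true_and]
      intro q
      rw [← h1, ← h2]
    · intro p hp p' hp' hpp
      simp only [mem_filter, Set.mem_toFinset, Set.mem_ofPred_eq, Prod.mk.injEq] at hp hp'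
      exact Prod.ext (hp.2.1.trans hp'.2.1.symm) hpp
    · intro f hf
      simp only [Fintype.mem_piFinset, mem_filter, mem_univ, true_and] at hf
      refine ⟨(H, f), ?_, rfl⟩
      have hz : (fun q => hs Y H (f q)) = z := funext hf
      simp only [mem_filter, Set.mem_toFinset, Set.mem_ofPred_eq, Prod.mk.injEq, true_and]
      exact ⟨by rw [hz]; exact hB, hz⟩
  · rw [if_neg hB, Finset.card_eq_zero, Finset.filter_eq_empty_iff]
    intro p hp hpz
    simp only [Set.mem_toFinset, Set.mem_ofPred_eq] at hp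
    rw [hpz] at hp
    exact hB hp

end LHL

open Finset LHL in
theorem lhl : LHLStatement := by
  classical
  intro S _ _ l a T Y hY B
  have hS := card_pos' (S := S)
  have e0 : {p : (Fin l → Fin a → Bool) × (Fin T → S) |
        (p.1, fun q r => (List.ofFn fun c => p.1 r c && Y (p.2 q) c).foldl xor false) ∈ B} =
      {p : (Fin l → Fin a → Bool) × (Fin T → S) | (p.1, fun q => hs Y p.1 (p.2 q)) ∈ B} := rfl
  rw [e0, card_fib]
  have e1 : ((∑ H : Fin l → Fin a → Bool, ∑ z : Fin T → Fin l → Bool,
        if (H, z) ∈ B then ∏ q, cnt Y H (z q) else 0 : ℕ) : ℝ) /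
        (2 ^ (l * a) * (Fintype.card S : ℝ) ^ T) =
      (1 / 2 ^ (l * a)) * ∑ H : Fin l → Fin a → Bool, ∑ z : Fin T → Fin l → Bool,
        if (H, z) ∈ B then ∏ q, mu Y H (z q) else 0 := by
    push_cast
    rw [div_eq_iff (by positivity), mul_assoc, mul_comm (1 / 2 ^ (l * a) : ℝ), mul_comm _ (1 / 2 ^ (l * a) : ℝ)]
    rw [show (1 / 2 ^ (l * a) : ℝ) * ((∑ H : Fin l → Fin a → Bool, ∑ z : Fin T → Fin l → Bool,
        if (H, z) ∈ B then ∏ q, mu Y H (z q) else 0) * (2 ^ (l * a) * (Fintype.card S : ℝ) ^ T)) =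
        (∑ H : Fin l → Fin a → Bool, ∑ z : Fin T → Fin l → Bool,
        if (H, z) ∈ B then ∏ q, mu Y H (z q) else 0) * (Fintype.card S : ℝ) ^ T by
        field_simp]
    rw [Finset.sum_mul]
    apply Finset.sum_congr rfl
    intro H _
    rw [Finset.sum_mul]
    apply Finset.sum_congr rfl
    intro z _
    split_ifs
    · unfold mu
      rw [Finset.prod_div_distrib]
      simp only [prod_const, card_univ, Fintype.card_fin]
      field_simp
    · simp
  have e2 : ((B.ncard : ℝ) / (2 ^ (l * a) * (2 : ℝ) ^ (l * T))) =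
      (1 / 2 ^ (l * a)) * ∑ H : Fin l → Fin a → Bool, ∑ z : Fin T → Fin l → Bool,
        if (H, z) ∈ B then ∏ _q : Fin T, (1 / 2 ^ l : ℝ) else 0 := by
    have : (B.ncard : ℝ) = ∑ H : Fin l → Fin a → Bool, ∑ z : Fin T → Fin l → Bool,
        if (H, z) ∈ B then (1 : ℝ) else 0 := by
      rw [Set.ncard_eq_toFinset_card', ← Fintype.sum_prod_type'
        (f := fun (H : Fin l → Fin a → Bool) (z : Fin T → Fin l → Bool) =>
          if (H, z) ∈ B then (1 : ℝ) else 0)]
      simp only [Prod.mk.eta, Finset.sum_boole]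
      congr 2
      ext x
      simp
    rw [this]
    simp only [prod_const, card_univ, Fintype.card_fin]
    have h3 : ∀ (H : Fin l → Fin a → Bool) (z : Fin T → Fin l → Bool),
        (if (H, z) ∈ B then ((1 / 2 ^ l : ℝ)) ^ T else 0) =
          (1 / 2 ^ (l * T)) * (if (H, z) ∈ B then (1 : ℝ) else 0) := by
      intro H z
      split_ifs
      · rw [div_pow, one_pow, ← pow_mul, mul_one]
      · simp
    simp_rw [h3, ← Finset.mul_sum]
    field_simp
  rw [e1, e2]
  have key : (∑ H : Fin l → Fin a → Bool, ∑ z : Fin T → Fin l → Bool,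
        if (H, z) ∈ B then ∏ q, mu Y H (z q) else 0) -
      (∑ H : Fin l → Fin a → Bool, ∑ z : Fin T → Fin l → Bool,
        if (H, z) ∈ B then ∏ _q : Fin T, (1 / 2 ^ l : ℝ) else 0) ≤
      T * (2 ^ (l * a) * √((2 : ℝ) ^ l / Fintype.card S)) := by
    rw [← Finset.sum_sub_distrib]
    simp_rw [← Finset.sum_sub_distrib]
    calc ∑ H : Fin l → Fin a → Bool, ∑ z : Fin T → Fin l → Bool,
          ((if (H, z) ∈ B then ∏ q, mu Y H (z q) else 0) -
            if (H, z) ∈ B then ∏ _q : Fin T, (1 / 2 ^ l : ℝ) else 0)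
        ≤ ∑ H : Fin l → Fin a → Bool, ∑ z : Fin T → Fin l → Bool,
          |∏ q, mu Y H (z q) - ∏ _q : Fin T, (1 / 2 ^ l : ℝ)| := by
          apply Finset.sum_le_sum
          intro H _
          apply Finset.sum_le_sum
          intro z _
          split_ifs
          · exact le_abs_self _
          · simp
      _ ≤ ∑ H : Fin l → Fin a → Bool, T * ∑ z, |mu Y H z - 1 / 2 ^ l| := by
          apply Finset.sum_le_sum
          intro H _
          exact prod_dist (mu Y H) (fun _ => 1 / 2 ^ l) (mu_nonneg Y H) (fun _ => by positivity)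
            (sum_mu Y H) (by simp) T
      _ = T * ∑ H : Fin l → Fin a → Bool, ∑ z, |mu Y H z - 1 / 2 ^ l| := by
          rw [Finset.mul_sum]
      _ ≤ _ := by
          gcongr
          exact sum_abs Y hY
  have h2 : (0 : ℝ) < 2 ^ (l * a) := by positivity
  have key2 := mul_le_mul_of_nonneg_left key (by positivity : (0 : ℝ) ≤ 1 / 2 ^ (l * a))
  rw [mul_sub] at key2
  have e3 : (1 / 2 ^ (l * a) : ℝ) * (T * (2 ^ (l * a) * √((2 : ℝ) ^ l / Fintype.card S))) =
      T * √((2 : ℝ) ^ l / Fintype.card S) := by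
    field_simp
  rw [e3] at key2
  linarith

end Pool.Agent.GAKT
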