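import Pool.Agent.Lib.MP_8416b9_lc.PTCore

/-!
# MP_8416b9_lc: the decompression procedure
-/

set_option autoImplicit false

namespace Pool.Agent.GAKT

open Pool.Agent.PolyTime

/-- length of the header of a description -/
def hlN (m k : ℕ) : ℕ := (k + 1) + (m + 1) + m * m * cN m + lN m k * aN m k

@[fun_prop]
theorem PT_hlN {α : Type*} [Rep α] {m k : α → ℕ} (hm : PT m) (hk : PT k) :
    PT (fun a => hlN (m a) (k a)) := by
  unfold hlN; fun_prop

/-- entry of the structure stored in the header -/
def hX (m : ℕ) (h : List Bool) (u v : ℕ) : List Bool := (h.drop ((u * m + v) * cN m)).take (cN m)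

/-- labels in the block with the code `e` -/
def eF (m k : ℕ) (e : List Bool) (j v : ℕ) : List Bool :=
  decF (wL k) ((e.drop (j * (m * wL k - 1))).take (m * wL k - 1)) v

/-- the hash function stored in the header -/
def hashMap (m k : ℕ) (h : List Bool) : List Bool :=
  (h.drop (m * m * cN m)).take (lN m k * aN m k)

/-- the final decision of the procedure -/
def mOut (m k : ℕ) (h e ib : List Bool) (b : Symb) : Bool :=
  if capval (lN m k + 1) (ib.drop k) < lN m k then
    decide (b = some (hbit (hashMap m k h) (aN m k) (yBlock m k (hX m h) (eF m k e))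
      (capval (lN m k + 1) (ib.drop k))))
  else if capval (lN m k + 1) (ib.drop k) = lN m k then
    decide (b = (hashMap m k h)[capval ((hashMap m k h).length + 1) (qlow k ib)]?)
  else false

@[fun_prop]
theorem PT_hX {α : Type*} [Rep α] {m u v : α → ℕ} {h : α → List Bool} (hm : PT m) (hh : PT h)
    (hu : PT u) (hv : PT v) : PT (fun a => hX (m a) (h a) (u a) (v a)) := by
  unfold hX; fun_prop

@[fun_prop]
theorem PT_hashOf {α : Type*} [Rep α] {m k : α → ℕ} {h : α → List Bool} (hm : PT m) (hk : PT k)
    (hh : PT h) : PT (fun a => hashMap (m a) (k a) (h a)) := by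
  unfold hashMap; fun_prop

@[fun_prop]
theorem PT_eF {α : Type*} [Rep α] {m k j v : α → ℕ} {e : α → List Bool} (hm : PT m) (hk : PT k)
    (he : PT e) (hj : PT j) (hv : PT v) : PT (fun a => eF (m a) (k a) (e a) (j a) (v a)) := by
  unfold eF; fun_prop

@[fun_prop]
theorem PT_mOut {α : Type*} [Rep α] {m k : α → ℕ} {h e ib : α → List Bool} {b : α → Symb}
    (hm : PT m) (hk : PT k) (hh : PT h) (he : PT e) (hi : PT ib) (hb : PT b) :
    PT (fun a => mOut (m a) (k a) (h a) (e a) (ib a) (b a)) := by
  have h1 : PT (fun a => yBlock (m a) (k a) (hX (m a) (h a)) (eF (m a) (k a) (e a))) := by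
    refine PT_yBlock hm hk (X := fun a => hX (m a) (h a)) (F := fun a => eF (m a) (k a) (e a)) ?_ ?_
    · fun_prop
    · fun_prop
  unfold mOut
  fun_prop

/-- the procedure -/
def mProc (p : (List Bool × Symb) × List (Option Bool)) : List Bool ⊕ Bool :=
  let bits := p.2.map fun o => o.getD false
  let k := lead bits
  let m := lead (bits.drop (k + 1))
  if p.2.length < hlN m k then .inl (ubin p.2.length)
  else if p.2.length < hlN m k + kN m k then
    .inl (qlow k p.1.1 ++ ubin (p.2.length - hlN m k + 1))
  else .inr (mOut m k ((bits.drop (k + 1)).drop (m + 1)) ((bits.drop (hlN m k)).take (kN m k))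
    p.1.1 p.1.2)

@[fun_prop]
theorem PT_inl {α β γ : Type*} [Rep α] [Rep β] [Rep γ] {f : α → β} (hf : PT f) :
    PT (fun a => (Sum.inl (f a) : β ⊕ γ)) := Comp.pair (Comp.const .nil) hf

@[fun_prop]
theorem PT_inr {α β γ : Type*} [Rep α] [Rep β] [Rep γ] {f : α → γ} (hf : PT f) :
    PT (fun a => (Sum.inr (f a) : β ⊕ γ)) := Comp.pair (Comp.const (.cons .nil .nil)) hf

/-- the procedure after the parsing of the header -/
def mAux (ib : List Bool) (b : Symb) (n : ℕ) (bits : List Bool) (k m : ℕ) : List Bool ⊕ Bool :=
  if n < hlN m k then .inl (ubin n)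
  else if n < hlN m k + kN m k then .inl (qlow k ib ++ ubin (n - hlN m k + 1))
  else .inr (mOut m k ((bits.drop (k + 1)).drop (m + 1)) ((bits.drop (hlN m k)).take (kN m k)) ib b)

theorem PT_mAux {α : Type*} [Rep α] {ib bits : α → List Bool} {b : α → Symb} {n k m : α → ℕ}
    (hi : PT ib) (hb : PT b) (hn : PT n) (hbits : PT bits) (hk : PT k) (hm : PT m) :
    PT (fun a => mAux (ib a) (b a) (n a) (bits a) (k a) (m a)) := by
  have hh := PT_hlN hm hk
  have hK := PT_kN hm hk
  unfold mAux
  refine PT.iteProp (c := fun a => n a < hlN (m a) (k a)) (PT.lt hn hh) (PT_inl (PT_ubin hn)) ?_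
  refine PT.iteProp (c := fun a => n a < hlN (m a) (k a) + kN (m a) (k a)) (PT.lt hn (hh.add hK))
    (PT_inl ((PT_qlow hk hi).append (PT_ubin ((hn.sub hh).succ)))) ?_
  exact PT_inr (PT_mOut hm hk ((hbits.drop hk.succ).drop hm.succ) ((hbits.drop hh).take hK) hi hb)

theorem PT_mProc : PT mProc := by
  have h1 : PT (fun p : (List Bool × Symb) × List (Option Bool) => p.2.map fun o => o.getD false) :=
    PT.map (l := fun p : (List Bool × Symb) × List (Option Bool) => p.2)
      (g := fun _ (o : Option Bool) => o.getD false) (by fun_prop) (by fun_prop)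
  have h2 := PT_lead h1
  have h3 := PT_lead (PT.drop h1 (PT.succ h2))
  have h4 : PT (fun p : (List Bool × Symb) × List (Option Bool) => p.1.1) := by fun_prop
  have h5 : PT (fun p : (List Bool × Symb) × List (Option Bool) => p.1.2) := by fun_prop
  have h6 : PT (fun p : (List Bool × Symb) × List (Option Bool) => p.2.length) := by fun_prop
  exact PT_mAux h4 h5 h6 h1 h2 h3

theorem mProc_polyTime : PolyTimeComputable mProc := PT_mProc.tm2

/-! ### the description -/

/-- the entries of a structure -/
def entL (m : ℕ) (X : ℕ → ℕ → List Bool) : List Bool :=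
  (List.range m).flatMap fun u => (List.range m).flatMap fun v => X u v

/-- the header -/
def hdr (m k : ℕ) (X : ℕ → ℕ → List Bool) (H : List Bool) : List Bool :=
  List.replicate k true ++ false :: (List.replicate m true ++ false :: (entL m X ++ H))

/-- the description -/
def desc (m k : ℕ) (X : ℕ → ℕ → List Bool) (H : List Bool) (e : ℕ → List Bool) : List Bool :=
  (hdr m k X H ++ List.replicate (2 ^ k - hlN m k) false) ++
    (List.range (kN m k)).flatMap fun s => (List.range (2 ^ k)).map fun q => (e q).getD s false

/-- the string described -/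
def zFull (m k : ℕ) (H : List Bool) (Y : ℕ → List Bool) : List Bool :=
  ((List.range (lN m k)).flatMap fun r => (List.range (2 ^ k)).map fun q =>
    hbit H (aN m k) (Y q) r) ++ H

section
variable {m k : ℕ} {X : ℕ → ℕ → List Bool} {H : List Bool} {e : ℕ → List Bool}

theorem length_entL (hX : EntOn m (cN m) X) : (entL m X).length = m * m * cN m := by
  unfold entL
  rw [length_flatMap_range (w := m * cN m)]
  · ring
  · intro u hu
    rw [length_flatMap_range (w := cN m) fun v hv => hX u hu v hv]

theorem length_hdr (hX : EntOn m (cN m) X) (hH : H.length = lN m k * aN m k) :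
    (hdr m k X H).length = hlN m k := by
  unfold hdr hlN
  simp only [List.length_append, List.length_replicate, List.length_cons, length_entL hX, hH]
  ring

theorem hX_eq (hX' : EntOn m (cN m) X) (r : List Bool) {u v : ℕ} (hu : u < m) (hv : v < m) :
    hX m (entL m X ++ r) u v = X u v := by
  unfold hX
  have e1 : (u * m + v) * cN m = u * (m * cN m) + v * cN m := by ring
  have h1 : ∀ t < m, ((List.range m).flatMap fun v => X t v).length = m * cN m := fun t ht =>
    length_flatMap_range fun v hv => hX' t ht v hv
  have h2 := slice_flatMap_range_append (r := r) (g := fun u => (List.range m).flatMap fun v => X u v)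
    h1 hu
  have h3 := slice_flatMap_range (g := fun v => X u v) (w := cN m) (fun v hv => hX' u hu v hv) hv
  rw [← h3, ← h2, e1, ← List.drop_drop, List.drop_take, List.take_take]
  unfold entL
  congr 1
  have : (v + 1) * cN m ≤ m * cN m := Nat.mul_le_mul_right _ hv
  have : (v + 1) * cN m = v * cN m + cN m := by ring
  omega

theorem lead_take (k : ℕ) (R : List Bool) (j : ℕ) :
    lead ((List.replicate k true ++ false :: R).take j) = min j k := by
  rcases le_or_gt j k with h | h
  · rw [List.take_append_of_le_length (by simpa using h), List.take_replicate, lead_replicate]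
  · rw [List.take_append, List.take_of_length_le (by simpa using h.le), List.length_replicate]
    obtain ⟨c, hc⟩ : ∃ c, j - k = c + 1 := ⟨j - k - 1, by omega⟩
    rw [hc, List.take_succ_cons, lead_eq _ _ rfl]
    omega

/-- the parsing of a prefix of the header -/
theorem parse_prefix (R : List Bool) {j : ℕ} :
    let F := List.replicate k true ++ false :: (List.replicate m true ++ false :: R)
    let k' := lead (F.take j)
    let m' := lead ((F.take j).drop (k' + 1))
    (k' = k ∧ m' = m ∧ k + 1 + m + 1 ≤ j) ∨ j < hlN m' k' := by
  intro F k' m'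
  have hk' : k' = min j k := lead_take k _ j
  rcases le_or_gt j k with h | h
  · right
    have : k' = j := by omega
    unfold hlN
    omega
  · have hk : k' = k := by omega
    have hd : (F.take j).drop (k' + 1) =
        (List.replicate m true ++ false :: R).take (j - (k + 1)) := by
      rw [hk, List.drop_take]
      congr 1
      rw [← List.drop_drop, List.drop_left' (by simp)]
      rfl
    have hm' : m' = min (j - (k + 1)) m := by
      show lead ((F.take j).drop (k' + 1)) = _
      rw [hd]
      exact lead_take m _ _
    rcases le_or_gt (j - (k + 1)) m with h2 | h2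
    · right
      unfold hlN
      omega
    · left
      refine ⟨hk, by omega, by omega⟩

theorem desc_get_hdr (hX' : EntOn m (cN m) X) (hH : H.length = lN m k * aN m k) {j : ℕ}
    (hj : j < hlN m k) : (desc m k X H e)[j]? = (hdr m k X H)[j]? := by
  unfold desc
  rw [List.append_assoc, List.getElem?_append_left]
  rw [length_hdr hX' hH]
  exact hj

theorem desc_get_table (hX' : EntOn m (cN m) X) (hH : H.length = lN m k * aN m k)
    (hT : hlN m k ≤ 2 ^ k) {s q : ℕ} (hs : s < kN m k) (hq : q < 2 ^ k)
    (he : (e q).length = kN m k) :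
    (desc m k X H e)[q + 2 ^ k * (s + 1)]? = (e q)[s]? := by
  unfold desc
  have hl : (hdr m k X H ++ List.replicate (2 ^ k - hlN m k) false).length = 2 ^ k := by
    rw [List.length_append, length_hdr hX' hH, List.length_replicate]
    omega
  rw [List.getElem?_append_right (by rw [hl]; nlinarith), hl]
  have : q + 2 ^ k * (s + 1) - 2 ^ k = s * 2 ^ k + q := by
    have : 2 ^ k * (s + 1) = s * 2 ^ k + 2 ^ k := by ring
    omega
  rw [this, getElem?_table hs hq, List.getD_eq_getElem?_getD, List.getElem?_eq_getElem (by omega)]
  rfl

theorem length_desc (hX' : EntOn m (cN m) X) (hH : H.length = lN m k * aN m k)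
    (hT : hlN m k ≤ 2 ^ k) : (desc m k X H e).length = 2 ^ k * (kN m k + 1) := by
  unfold desc
  rw [List.length_append, List.length_append, length_hdr hX' hH, List.length_replicate,
    length_flatMap_range (w := 2 ^ k) (by simp)]
  have : 2 ^ k * (kN m k + 1) = kN m k * 2 ^ k + 2 ^ k := by ring
  omega

theorem log_eq (hX' : EntOn m (cN m) X) (hH : H.length = lN m k * aN m k)
    (hT : hlN m k ≤ 2 ^ k) (he : ∀ q < 2 ^ k, (e q).length = kN m k) (ib : List Bool) (b : Symb)
    {j : ℕ} (hj : j ≤ hlN m k + kN m k) :
    readLog mProc (desc m k X H e) (ib, b) j =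
      ((hdr m k X H ++ e (val ib % 2 ^ k)).take j).map some := by
  have hq : val ib % 2 ^ k < 2 ^ k := Nat.mod_lt _ (by positivity)
  set q := val ib % 2 ^ k with hqd
  set F := hdr m k X H ++ e q with hF
  have hFl : F.length = hlN m k + kN m k := by
    rw [hF, List.length_append, length_hdr hX' hH, he q hq]
  have hF2 : F = List.replicate k true ++ false :: (List.replicate m true ++ false ::
      (entL m X ++ H ++ e q)) := by
    rw [hF]; unfold hdr; simp
  induction j with
  | zero => simp [readLog]
  | succ j ih =>
    have ih := ih (by omega)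
    rw [readLog, ih]
    have hbits : (((F.take j).map some).map fun o => o.getD false) = F.take j := by
      rw [List.map_map]
      exact List.map_id' _
    have hlen : ((F.take j).map some).length = j := by
      rw [List.length_map, List.length_take]; omega
    have hpar := parse_prefix (k := k) (m := m) (entL m X ++ H ++ e q) (j := j)
    simp only [← hF2] at hpar
    have hstep : (F.take (j + 1)).map some = (F.take j).map some ++ [F[j]?] := by
      rw [List.take_add_one, List.map_append, List.getElem?_eq_getElem (by omega)]
      rfl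
    rw [hstep]
    rcases lt_or_ge j (hlN m k) with hjl | hjl
    · -- reading the header
      have hm : mProc ((ib, b), (F.take j).map some) = .inl (ubin j) := by
        unfold mProc
        simp only [hbits, hlen]
        rw [if_pos]
        rcases hpar with ⟨h1, h2, _⟩ | h
        · rw [h1] at h2 ⊢
          rw [h2]
          exact hjl
        · exact h
      rw [hm]
      simp only
      rw [val_ubin, desc_get_hdr hX' hH hjl, hF,
        List.getElem?_append_left (by rw [length_hdr hX' hH]; exact hjl)]
    · -- reading the code
      have hk1 : k + 1 + m + 1 ≤ hlN m k := by unfold hlN; omega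
      obtain ⟨h1, h2⟩ : lead (F.take j) = k ∧ lead ((F.take j).drop (k + 1)) = m := by
        have e1 : lead (F.take j) = k := by
          rw [hF2, lead_take]; omega
        refine ⟨e1, ?_⟩
        rcases hpar with ⟨_, h2, _⟩ | h
        · rwa [e1] at h2
        · rw [e1] at h
          have e2 : lead ((F.take j).drop (k + 1)) = min (j - (k + 1)) m := by
            have hd : (F.take j).drop (k + 1) =
                (List.replicate m true ++ false :: (entL m X ++ H ++ e q)).take (j - (k + 1)) := by
              rw [List.drop_take]
              congr 1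
              rw [hF2, ← List.drop_drop, List.drop_left' (by simp)]
              rfl
            rw [hd]
            exact lead_take m _ _
          rw [e2]; omega
      have hm : mProc ((ib, b), (F.take j).map some) =
          .inl (qlow k ib ++ ubin (j - hlN m k + 1)) := by
        unfold mProc
        simp only [hbits, hlen, h1, h2]
        rw [if_neg (by omega), if_pos (by omega)]
      rw [hm]
      simp only
      rw [val_append, val_ubin, length_qlow, val_qlow, ← hqd,
        desc_get_table hX' hH hT (by omega) hq (he q hq), hF,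
        List.getElem?_append_right (by rw [length_hdr hX' hH]; omega), length_hdr hX' hH]

theorem zFull_get {Y : ℕ → List Bool} {i : ℕ} (hH : H.length < 2 ^ k)
    (hi : i ≤ lN m k * 2 ^ k + H.length) :
    (zFull m k H Y)[i]? = if i / 2 ^ k < lN m k then
      some (hbit H (aN m k) (Y (i % 2 ^ k)) (i / 2 ^ k)) else H[i % 2 ^ k]? := by
  have hT : 0 < 2 ^ k := by positivity
  have hdm := Nat.div_add_mod' i (2 ^ k)
  have hmod := Nat.mod_lt i hT
  have hlen : ((List.range (lN m k)).flatMap fun r => (List.range (2 ^ k)).map fun q =>
      hbit H (aN m k) (Y q) r).length = lN m k * 2 ^ k := length_flatMap_range (by simp)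
  unfold zFull
  split
  · rename_i h
    have h1 : (i / 2 ^ k + 1) * 2 ^ k ≤ lN m k * 2 ^ k := Nat.mul_le_mul_right _ h
    have h2 : (i / 2 ^ k + 1) * 2 ^ k = i / 2 ^ k * 2 ^ k + 2 ^ k := by ring
    rw [List.getElem?_append_left (by rw [hlen]; omega)]
    conv_lhs => rw [← hdm]
    exact getElem?_table (g := fun r q => hbit H (aN m k) (Y q) r) h hmod
  · rename_i h
    push Not at h
    have h1 : lN m k * 2 ^ k ≤ i / 2 ^ k * 2 ^ k := Nat.mul_le_mul_right _ h
    rw [List.getElem?_append_right (by rw [hlen]; omega), hlen]
    congr 1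
    have h3 : i / 2 ^ k < lN m k + 1 := by
      rw [Nat.div_lt_iff_lt_mul hT]
      have : (lN m k + 1) * 2 ^ k = lN m k * 2 ^ k + 2 ^ k := by ring
      omega
    have h4 : i / 2 ^ k = lN m k := by omega
    rw [h4] at hdm
    omega

/-- **The procedure is correct.** -/
theorem mProc_final (hX' : EntOn m (cN m) X) (hH : H.length = lN m k * aN m k)
    (hT : hlN m k ≤ 2 ^ k) (he : ∀ q < 2 ^ k, (e q).length = kN m k) {i : ℕ} (b : Symb)
    (hi : i ≤ lN m k * 2 ^ k + H.length) :
    mProc ((Nat.bits i, b), readLog mProc (desc m k X H e) (Nat.bits i, b) (hlN m k + kN m k)) =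
      .inr (decide (b = (zFull m k H fun q => yBlock m k X (eF m k (e q)))[i]?)) := by
  rw [log_eq hX' hH hT he _ _ le_rfl]
  have hq : val (Nat.bits i) % 2 ^ k < 2 ^ k := Nat.mod_lt _ (by positivity)
  rw [val_bits] at hq ⊢
  set q := i % 2 ^ k with hqd
  set F := hdr m k X H ++ e q with hF
  have hFl : F.length = hlN m k + kN m k := by
    rw [hF, List.length_append, length_hdr hX' hH, he q hq]
  have hF2 : F = List.replicate k true ++ false :: (List.replicate m true ++ false ::
      (entL m X ++ H ++ e q)) := by
    rw [hF]; unfold hdr; simp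
  rw [List.take_of_length_le hFl.le]
  have hbits : ((F.map some).map fun o => o.getD false) = F := by
    rw [List.map_map]
    exact List.map_id' _
  have h1 : lead F = k := by rw [hF2]; exact lead_eq _ _ rfl
  have hd1 : F.drop (k + 1) = List.replicate m true ++ false :: (entL m X ++ H ++ e q) := by
    rw [hF2, ← List.drop_drop, List.drop_left' (by simp)]
    rfl
  have h2 : lead (F.drop (k + 1)) = m := by rw [hd1]; exact lead_eq _ _ rfl
  have hd2 : (F.drop (k + 1)).drop (m + 1) = entL m X ++ H ++ e q := by
    rw [hd1, ← List.drop_drop, List.drop_left' (by simp)]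
    rfl
  have hd3 : (F.drop (hlN m k)).take (kN m k) = e q := by
    rw [hF, List.drop_left' (length_hdr hX' hH), List.take_of_length_le (he q hq).le]
  have hlen : (F.map some).length = hlN m k + kN m k := by rw [List.length_map, hFl]
  unfold mProc
  simp only [hbits, hlen, h1, h2]
  rw [if_neg (by omega), if_neg (by omega), hd2, hd3]
  congr 1
  -- evaluation of the decision
  have hHH : hashMap m k (entL m X ++ H ++ e q) = H := by
    unfold hashMap
    rw [List.append_assoc, List.drop_left' (length_entL hX'), List.take_left' hH]
  have hYY : yBlock m k (hX m (entL m X ++ H ++ e q)) (eF m k (e q)) =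
      yBlock m k X (eF m k (e q)) := by
    unfold yBlock
    apply flatMap_congr'
    intro j _
    apply yF_congr _ fun _ _ => rfl
    intro u hu v hv
    rw [List.append_assoc]
    exact hX_eq hX' _ hu hv
  have hT0 : 0 < 2 ^ k := by positivity
  have hHT : H.length < 2 ^ k := by
    rw [hH]; unfold hlN at hT; omega
  have h3 : i / 2 ^ k < lN m k + 1 := by
    rw [Nat.div_lt_iff_lt_mul hT0]
    have : (lN m k + 1) * 2 ^ k = lN m k * 2 ^ k + 2 ^ k := by ring
    omega
  have hcap : capval (lN m k + 1) ((Nat.bits i).drop k) = i / 2 ^ k := by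
    rw [capval_eq, val_drop, val_bits]
    omega
  unfold mOut
  rw [hHH, hYY, hcap, zFull_get hHT hi, ← hqd]
  by_cases h : i / 2 ^ k < lN m k
  · rw [if_pos h, if_pos h]
  · rw [if_neg h, if_neg h, if_pos (by omega)]
    have hdm := Nat.div_add_mod' i (2 ^ k)
    have h4 : i / 2 ^ k = lN m k := by omega
    rw [h4, ← hqd] at hdm
    have hcap2 : capval (H.length + 1) (qlow k (Nat.bits i)) = q := by
      rw [capval_eq, val_qlow, val_bits, ← hqd]
      omega
    rw [hcap2]

end

end Pool.Agent.GAKT
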