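import Pool.Agent.Lib.MP_8416b9_lc.Mach

/-!
# MP_8416b9_lc: structures which are not rigid never pass the test
-/

set_option autoImplicit false

namespace Pool.Agent.GAKT

open Pool.Agent.PolyTime

theorem PermOn.comp {m : ℕ} {ρ σ : ℕ → ℕ} (hρ : PermOn m ρ) (hσ : PermOn m σ) :
    PermOn m (fun i => ρ (σ i)) :=
  ⟨fun i hi => hρ.1 _ (hσ.1 i hi), fun i hi j hj h =>
    hσ.2 i hi j hj (hρ.2 _ (hσ.1 i hi) _ (hσ.1 j hj) h)⟩

theorem AutOn.iterate {m : ℕ} {X : ℕ → ℕ → List Bool} {τ : ℕ → ℕ} (h : AutOn m X τ) (t : ℕ) :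
    AutOn m X (τ^[t]) := by
  induction t with
  | zero => exact ⟨⟨fun i hi => hi, fun i _ j _ h => h⟩, fun i _ j _ => rfl⟩
  | succ t ih =>
    rw [Function.iterate_succ']
    refine ⟨h.1.comp ih.1, fun i hi j hj => ?_⟩
    show X (τ (τ^[t] i)) (τ (τ^[t] j)) = X i j
    rw [h.2 _ (ih.1.1 i hi) _ (ih.1.1 j hj), ih.2 i hi j hj]

/-- a permutation with prescribed values at `0` and `1` -/
theorem exists_perm {m a b : ℕ} (hm : 2 ≤ m) (ha : a < m) (hb : b < m) (hab : a ≠ b) :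
    ∃ ρ : ℕ → ℕ, PermOn m ρ ∧ ρ 0 = a ∧ ρ 1 = b := by
  have hswap : ∀ {x y i : ℕ}, x < m → y < m → i < m → Equiv.swap x y i < m := by
    intro x y i hx hy hi
    rw [Equiv.swap_apply_def]
    split_ifs <;> assumption
  set σ := Equiv.swap 0 a with hσ
  have h1 : σ 1 < m := hswap (by omega) ha (by omega)
  refine ⟨fun i => Equiv.swap (σ 1) b (σ i), ⟨fun i hi => hswap h1 hb (hswap (by omega) ha hi),
    fun i _ j _ h => σ.injective ((Equiv.swap (σ 1) b).injective h)⟩, ?_, ?_⟩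
  · have h0 : σ 0 = a := Equiv.swap_apply_left 0 a
    show Equiv.swap (σ 1) b (σ 0) = a
    rw [h0]
    apply Equiv.swap_apply_of_ne_of_ne _ hab
    intro h
    have := σ.injective (h0.trans h)
    omega
  · exact Equiv.swap_apply_left (σ 1) b

theorem exists_code {m w : ℕ} {X : ℕ → ℕ → List Bool} (hc1 : Comb1) (hm : 2 ≤ m) (hw : 1 ≤ w)
    (hE : EntOn m (cN m) X) (hr : ¬ RigidOn m X) :
    ∃ X' : ℕ → ℕ → List Bool, EntOn m (cN m) X' ∧ ∀ f : ℕ → List Bool, LabOn m w f → InjLab m f →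
      ∃ c, c.length = m * w - 1 ∧ yF m X' (decF w c) = yF m X f := by
  unfold RigidOn at hr
  push Not at hr
  obtain ⟨τ, hτ, i0, hi0, hne⟩ := hr
  obtain ⟨ρ, hρ, hρ0, hρ1⟩ := exists_perm hm hi0 (hτ.1.1 i0 hi0) (Ne.symm hne)
  refine ⟨fun i j => X (ρ i) (ρ j), fun i hi j hj => hE _ (hρ.1 i hi) _ (hρ.1 j hj), ?_⟩
  intro f hf hi
  set t := Function.argmin (fun t : ℕ => rank m f (τ^[t] i0)) with ht
  have hmin : ∀ t', rank m f (τ^[t] i0) ≤ rank m f (τ^[t'] i0) :=
    fun t' => Function.argmin_le (fun t : ℕ => rank m f (τ^[t] i0)) t'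
  have hit := hτ.iterate t
  have hu : τ^[t] i0 < m := hit.1.1 i0 hi0
  have hv : τ^[t] (τ i0) < m := hit.1.1 _ (hτ.1.1 i0 hi0)
  have hsucc : τ^[t] (τ i0) = τ^[t + 1] i0 := rfl
  have hlt : blt (f (τ^[t] i0)) (f (τ^[t] (τ i0))) = true := by
    by_contra h
    rw [Bool.not_eq_true] at h
    cases h2 : blt (f (τ^[t] (τ i0))) (f (τ^[t] i0)) with
    | true =>
      have h3 := rank_lt_of_blt hf hv hu h2
      have h4 := hmin (t + 1)
      rw [← hsucc] at h4
      omega
    | false =>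
      have h3 := blt_trichotomy (by rw [hf _ hu, hf _ hv]) h h2
      have h4 := hi _ hu _ hv h3
      exact hne (hit.1.2 _ hi0 _ (hτ.1.1 i0 hi0) h4).symm
  have hρ' : PermOn m (fun i => τ^[t] (ρ i)) := hit.1.comp hρ
  obtain ⟨c, hc, hd⟩ := decF_surj (f := fun i => f (τ^[t] (ρ i))) hm hw
    (fun v hv => hf _ (hρ'.1 v hv)) (by simp only [hρ0, hρ1]; exact hlt)
  refine ⟨c, hc, ?_⟩
  rw [← hc1 m w X f (fun i => τ^[t] (ρ i)) hf hi hρ']
  apply yF_congr
  · intro i hi j hj
    exact (hit.2 _ (hρ.1 i hi) _ (hρ.1 j hj)).symm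
  · exact hd

theorem length_labF {m k : ℕ} {s : List Bool} (hs : s.length = coinN m k) {q j v : ℕ}
    (hq : q < 2 ^ k) (hj : j < bN k) (hv : v < m) : (labF m k s q j v).length = wL k := by
  unfold labF
  rw [List.length_take, List.length_drop, hs]
  unfold coinN
  have h1 : (q + 1) * bN k ≤ 2 ^ k * bN k := Nat.mul_le_mul_right _ hq
  have h2 : q * bN k + j + 1 ≤ 2 ^ k * bN k := by
    have : (q + 1) * bN k = q * bN k + bN k := by ring
    omega
  have h3 : (q * bN k + j + 1) * m ≤ 2 ^ k * bN k * m := Nat.mul_le_mul_right _ h2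
  have h4 : (q * bN k + j) * m + v + 1 ≤ 2 ^ k * bN k * m := by
    have : (q * bN k + j + 1) * m = (q * bN k + j) * m + m := by ring
    omega
  have h5 : ((q * bN k + j) * m + v + 1) * wL k ≤ 2 ^ k * bN k * m * wL k :=
    Nat.mul_le_mul_right _ h4
  have h6 : ((q * bN k + j) * m + v + 1) * wL k = ((q * bN k + j) * m + v) * wL k + wL k := by ring
  omega

/-- bounds for the parameters -/
theorem param_bounds {m k : ℕ} (hm : 2 ≤ m) (hk : 1 ≤ k) :
    k + lN m k + 1 + (hlN m k + kN m k) + 2 ≤ (m + k + 2) ^ 11 := by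
  set Z := m + k + 2 with hZ
  have hZ5 : 5 ≤ Z := by omega
  have hkZ : k ≤ Z := by omega
  have hmZ : m ≤ Z := by omega
  have hw : wL k ≤ 2 * Z := by unfold wL; omega
  have hb : bN k ≤ 4 * Z := by unfold bN; omega
  have hC : cN m ≤ 2 * Z := by unfold cN; omega
  have h1 : 1 ≤ Z := by omega
  have ha : aN m k ≤ 16 * Z ^ 4 := by
    unfold aN
    have e1 : m * wL k ≤ Z * (2 * Z) := Nat.mul_le_mul hmZ hw
    have e2 : m * m * cN m ≤ Z * Z * (2 * Z) := Nat.mul_le_mul (Nat.mul_le_mul hmZ hmZ) hC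
    have e3 : Z * (2 * Z) ≤ 2 * Z ^ 3 := by nlinarith [Nat.one_le_pow 2 Z h1]
    calc bN k * (m * wL k + m * m * cN m) ≤ 4 * Z * (2 * Z ^ 3 + Z * Z * (2 * Z)) :=
          Nat.mul_le_mul hb (by omega)
      _ = 16 * Z ^ 4 := by ring
  have hl : lN m k ≤ 8 * Z ^ 3 := by
    unfold lN
    calc m * bN k * wL k - (2 * k + 7) ≤ m * bN k * wL k := Nat.sub_le _ _
      _ ≤ Z * (4 * Z) * (2 * Z) := Nat.mul_le_mul (Nat.mul_le_mul hmZ hb) hw
      _ = 8 * Z ^ 3 := by ring
  have hK : kN m k ≤ 8 * Z ^ 3 := by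
    unfold kN
    calc bN k * (m * wL k - 1) ≤ 4 * Z * (Z * (2 * Z)) :=
          Nat.mul_le_mul hb ((Nat.sub_le _ _).trans (Nat.mul_le_mul hmZ hw))
      _ = 8 * Z ^ 3 := by ring
  have hH : lN m k * aN m k ≤ 128 * Z ^ 7 := by
    calc lN m k * aN m k ≤ 8 * Z ^ 3 * (16 * Z ^ 4) := Nat.mul_le_mul hl ha
      _ = 128 * Z ^ 7 := by ring
  have hE : m * m * cN m ≤ 2 * Z ^ 3 := by
    calc m * m * cN m ≤ Z * Z * (2 * Z) := Nat.mul_le_mul (Nat.mul_le_mul hmZ hmZ) hC
      _ = 2 * Z ^ 3 := by ring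
  have hZ3 : Z ^ 3 ≤ Z ^ 7 := Nat.pow_le_pow_right h1 (by norm_num)
  have hZ1 : Z ≤ Z ^ 7 := by
    calc Z = Z ^ 1 := (pow_one Z).symm
      _ ≤ Z ^ 7 := Nat.pow_le_pow_right h1 (by norm_num)
  have hZ0 : 1 ≤ Z ^ 7 := Nat.one_le_pow _ _ h1
  have hbig : 625 * Z ^ 7 ≤ Z ^ 11 := by
    have : 5 ^ 4 ≤ Z ^ 4 := Nat.pow_le_pow_left hZ5 4
    calc 625 * Z ^ 7 = 5 ^ 4 * Z ^ 7 := by norm_num
      _ ≤ Z ^ 4 * Z ^ 7 := Nat.mul_le_mul_right _ this
      _ = Z ^ 11 := by ring
  have hhl : hlN m k ≤ 2 * Z ^ 7 + 2 * Z ^ 7 + 128 * Z ^ 7 := by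
    unfold hlN
    omega
  omega

theorem kN_add {m k : ℕ} (hm : 1 ≤ m) (hk : 1 ≤ k) : kN m k + 2 = lN m k := by
  unfold kN lN
  have h1 : 1 ≤ m * wL k := by
    unfold wL
    nlinarith
  obtain ⟨c, hc⟩ : ∃ c, m * wL k = c + 1 := ⟨m * wL k - 1, by omega⟩
  have h2 : m * bN k * wL k = bN k * (m * wL k) := by ring
  rw [h2, hc, Nat.add_sub_cancel]
  have h3 : bN k * (c + 1) = bN k * c + bN k := by ring
  have h4 : 1 ≤ c := by
    unfold wL at hc
    nlinarith
  unfold bN at h3 ⊢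
  rw [h3]
  omega

theorem mach (hc1 : Comb1) : MachStatement := by
  intro U
  obtain ⟨p, c, hU⟩ := U.universal mProc mProc_polyTime
  refine ⟨p.length + 11 * (c + 1) + 1, ?_⟩
  intro m k X s hm hk hbig hE hr hs hgood hmem
  rw [goodCoins_iff] at hgood
  have hw : 1 ≤ wL k := by unfold wL; omega
  obtain ⟨X', hE', hX'⟩ := exists_code hc1 hm hw hE hr
  set Z := m + k + 2 with hZ
  have hZ5 : 5 ≤ Z := by omega
  -- the codes
  have hcode : ∀ q j, ∃ cd : List Bool, q < 2 ^ k → j < bN k → (cd.length = m * wL k - 1 ∧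
      yF m X' (decF (wL k) cd) = yF m X (labF m k s q j)) := by
    intro q j
    by_cases hq : q < 2 ^ k ∧ j < bN k
    · obtain ⟨cd, h1, h2⟩ := hX' (labF m k s q j)
        (fun v hv => length_labF hs hq.1 hq.2 hv) (hgood q hq.1 j hq.2)
      exact ⟨cd, fun _ _ => ⟨h1, h2⟩⟩
    · exact ⟨[], fun h1 h2 => absurd ⟨h1, h2⟩ hq⟩
  choose cd hcd using hcode
  set e : ℕ → List Bool := fun q => (List.range (bN k)).flatMap fun j => cd q j with he
  have hel : ∀ q < 2 ^ k, (e q).length = kN m k := fun q hq =>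
    length_flatMap_range fun j hj => (hcd q j hq hj).1
  have hY : ∀ q < 2 ^ k, yBlock m k X' (eF m k (e q)) = yBlock m k X (labF m k s q) := by
    intro q hq
    unfold yBlock
    apply flatMap_congr'
    intro j hj
    rw [List.mem_range] at hj
    rw [← (hcd q j hq hj).2]
    apply yF_congr fun _ _ _ _ => rfl
    intro v _
    unfold eF
    rw [he]
    simp only
    rw [slice_flatMap_range (fun t ht => (hcd q t hq ht).1) hj]
  set H := s.take (lN m k * aN m k) with hH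
  have hHl : H.length = lN m k * aN m k := by
    rw [hH, List.length_take, hs]
    unfold coinN
    omega
  -- sizes
  have hpb := param_bounds hm hk
  rw [← hZ] at hpb
  have hZ1 : 1 ≤ Z := by omega
  have h11 : Z ^ 11 ≤ Z ^ (p.length + 11 * (c + 1) + 1) :=
    Nat.pow_le_pow_right hZ1 (by omega)
  have hT : hlN m k ≤ 2 ^ k := by omega
  have hHT : H.length < 2 ^ k := by
    rw [hHl]; unfold hlN at hT; omega
  have hHpos : 1 ≤ H.length := by
    rw [hHl]
    have h1 := kN_add (by omega : 1 ≤ m) hk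
    have h2 : 1 ≤ aN m k := by
      unfold aN bN
      have h3 : 0 < m * wL k := Nat.mul_pos (by omega) (by omega)
      exact Nat.mul_pos (by omega) (by omega)
    exact Nat.mul_pos (by omega) (by omega)
  have hfull : fullStr m k X s = zFull m k H fun q => yBlock m k X' (eF m k (e q)) := by
    unfold fullStr zFull
    rw [← hH]
    congr 1
    apply flatMap_congr'
    intro r _
    apply List.map_congr_left
    intro q hq
    show _ = hbit H (aN m k) (yBlock m k X' (eF m k (e q))) r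
    rw [hY q (List.mem_range.1 hq)]
  have hflen : (fullStr m k X s).length = lN m k * 2 ^ k + H.length := by
    unfold fullStr
    rw [← hH, List.length_append, length_flatMap_range (w := 2 ^ k) (by simp)]
  have htlen : (testStr m k X s).length + 1 = lN m k * 2 ^ k + H.length := by
    unfold testStr
    rw [List.length_tail, hflen]
    omega
  -- the description
  set D := desc m k X' H e with hD
  set M := hlN m k + kN m k with hM
  set t := ((Nat.bits (lN m k * 2 ^ k + H.length)).length + M + 2) ^ c with ht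
  have hdesc : Describes U (p ++ D) t (testStr m k X s) := by
    intro i b hi1 hi2
    rw [htlen] at hi2
    have hx : (testStr m k X s)[i - 1]? = (zFull m k H fun q => yBlock m k X' (eF m k (e q)))[i]? := by
      unfold testStr
      rw [List.getElem?_tail, hfull]
      congr 1
      omega
    rw [hx]
    have hfin := mProc_final hE' hHl hT hel (i := i) b hi2
    obtain ⟨h1, h2⟩ := hU D i b M _ hfin
    constructor
    · intro hacc
      by_contra hne
      exact h2 (by simpa using fun h => hne h.symm) t hacc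
    · intro hxb
      have h3 := h1 (by simpa using hxb.symm)
      refine U.acc_mono _ _ _ _ _ ?_ h3
      rw [ht]
      apply Nat.pow_le_pow_left
      have : (Nat.bits i).length ≤ (Nat.bits (lN m k * 2 ^ k + H.length)).length := by
        rw [Nat.size_eq_bits_len, Nat.size_eq_bits_len]
        exact Nat.size_le_size hi2
      omega
  have hle := hmem (p ++ D) t hdesc
  rw [List.length_append, hD, length_desc hE' hHl hT] at hle
  have hK := kN_add (by omega : 1 ≤ m) hk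
  have e1 : lN m k * 2 ^ k = 2 ^ k * (kN m k + 1) + 2 ^ k := by rw [← hK]; ring
  -- the time bound
  have hbits : (Nat.bits (lN m k * 2 ^ k + H.length)).length ≤ k + lN m k + 1 := by
    rw [Nat.size_eq_bits_len, Nat.size_le]
    have h1 : lN m k + 1 < 2 ^ (lN m k + 1) := Nat.lt_two_pow_self
    calc lN m k * 2 ^ k + H.length < (lN m k + 1) * 2 ^ k := by
          have : (lN m k + 1) * 2 ^ k = lN m k * 2 ^ k + 2 ^ k := by ring
          omega
      _ ≤ 2 ^ (lN m k + 1) * 2 ^ k := Nat.mul_le_mul_right _ h1.le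
      _ = 2 ^ (k + lN m k + 1) := by rw [← pow_add]; ring_nf
  have ht1 : t ≤ Z ^ (11 * c) := by
    rw [ht, pow_mul]
    apply Nat.pow_le_pow_left
    omega
  have hpl : p.length ≤ Z ^ p.length := (Nat.lt_pow_self (by omega)).le
  have ht2 : Z ^ (11 * c) ≤ Z ^ (p.length + 11 * (c + 1)) := Nat.pow_le_pow_right hZ1 (by omega)
  have hpl2 : Z ^ p.length ≤ Z ^ (p.length + 11 * (c + 1)) := Nat.pow_le_pow_right hZ1 (by omega)
  have hfin : 5 * Z ^ (p.length + 11 * (c + 1)) ≤ Z ^ (p.length + 11 * (c + 1) + 1) := by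
    rw [pow_succ, mul_comm]
    exact Nat.mul_le_mul_left _ hZ5
  have hpos : 1 ≤ Z ^ (p.length + 11 * (c + 1)) := Nat.one_le_pow _ _ hZ1
  omega

end Pool.Agent.GAKT
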