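import Pool.Agent.Lib.MP_8416b9_lc.Code
import Pool.Agent.Lib.PolyTime.ListOps

/-!
# MP_8416b9_lc: polynomial-time computability of the basic functions
-/

set_option autoImplicit false

namespace Pool.Agent.GAKT

open Pool.Agent.PolyTime

attribute [fun_prop] PT PT.id PT.const PT.comp PT.pair PT.fst PT.snd PT.add PT.sub PT.mul PT.cons
  PT.append PT.tail PT.take PT.drop PT.listGetD PT.getElem? PT.length PT.reverse PT.le PT.lt
  PT.natEq PT.iteProp PT.ite PT.map PT.range PT.filter PT.flatMap PT.all PT.any PT.and PT.or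
  PT.not PT.decAnd PT.decOr PT.decNot PT.some PT.getD PT.mod PT.div PT.max PT.min PT.succ PT.pred
  PT.beq PT.eq PT.find? PT.zip PT.zipWith PT.replicate PT.pow PT.isSome PT.contains PT.head?
  PT.optionMap

universe u
variable {α : Type u} [Rep α]

theorem PT_cmpStep : PT (fun p : Option Bool × (Bool × Bool) => cmpStep p.1 p.2) := by
  have : PT (fun p : Option Bool × (Bool × Bool) =>
      (p.1.elim (if p.2.1 = p.2.2 then none else some p.2.2) (fun b => some b))) := by
    refine (PT.optionCases (l := fun p : Option Bool × (Bool × Bool) => p.1)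
      (f := fun p => if p.2.1 = p.2.2 then none else some p.2.2) (g := fun _ b => some b)
      (by fun_prop) (by fun_prop) (by fun_prop)).congr ?_
    rintro ⟨a, b⟩
    cases a <;> rfl
  refine this.congr ?_
  rintro ⟨a, b⟩
  cases a <;> rfl

@[fun_prop]
theorem PT_blt {f g : α → List Bool} (hf : PT f) (hg : PT g) : PT (fun a => blt (f a) (g a)) := by
  have h : PT (fun a => ((f a).zip (g a)).foldl cmpStep none) := by
    refine PT.foldl (l := fun a => (f a).zip (g a)) (f := fun _ => none)
      (g := fun _ s p => cmpStep s p) (B := fun _ => 5) (by fun_prop) (by fun_prop) ?_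
      (Bdd.const 5) ?_
    · exact PT.comp (g := fun p : Option Bool × (Bool × Bool) => cmpStep p.1 p.2) PT_cmpStep
        (f := fun p : α × (Option Bool × (Bool × Bool)) => (p.2.1, p.2.2)) (by fun_prop)
    · intro a l' _
      have : ∀ o : Option Bool, sz o ≤ 5 := by
        intro o
        cases o with
        | none => simp
        | some b => have := sz_bool b; simp; omega
      exact this _
  refine (PT.eq h (PT.const (some true))).congr fun a => ?_
  unfold blt
  rw [beq_eq_decide]

@[fun_prop]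
theorem PT_rank {m v : α → ℕ} {f : α → ℕ → List Bool} (hm : PT m) (hv : PT v)
    (hf : PT (fun p : α × ℕ => f p.1 p.2)) : PT (fun a => rank (m a) (f a) (v a)) := by
  unfold rank
  have h1 : PT (fun p : α × ℕ => blt (f p.1 p.2) (f p.1 (v p.1))) := by
    apply PT_blt hf
    exact PT.comp (g := fun p : α × ℕ => f p.1 p.2) hf (f := fun p : α × ℕ => (p.1, v p.1))
      (by fun_prop)
  exact PT.length (PT.filter (g := fun a u => blt (f a u) (f a (v a))) (by fun_prop) h1)

@[fun_prop]
theorem PT_vr {m r : α → ℕ} {f : α → ℕ → List Bool} (hm : PT m) (hr : PT r)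
    (hf : PT (fun p : α × ℕ => f p.1 p.2)) : PT (fun a => vr (m a) (f a) (r a)) := by
  unfold vr
  have h1 : PT (fun p : α × ℕ => rank (m p.1) (f p.1) p.2 == r p.1) := by
    have h2 : PT (fun p : α × ℕ => rank (m p.1) (f p.1) p.2) := by
      refine PT_rank (m := fun p : α × ℕ => m p.1) (v := fun p => p.2)
        (f := fun p => f p.1) (by fun_prop) (by fun_prop) ?_
      exact PT.comp (g := fun p : α × ℕ => f p.1 p.2) hf
        (f := fun p : (α × ℕ) × ℕ => (p.1.1, p.2)) (by fun_prop)
    fun_prop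
  exact PT.getD (PT.find? (g := fun a v => rank (m a) (f a) v == r a) (by fun_prop) h1)
    (PT.const 0)

@[fun_prop]
theorem PT_yF {m : α → ℕ} {X : α → ℕ → ℕ → List Bool} {f : α → ℕ → List Bool} (hm : PT m)
    (hX : PT (fun p : α × (ℕ × ℕ) => X p.1 p.2.1 p.2.2)) (hf : PT (fun p : α × ℕ => f p.1 p.2)) :
    PT (fun a => yF (m a) (X a) (f a)) := by
  have hv : PT (fun p : α × ℕ => vr (m p.1) (f p.1) p.2) := by
    refine PT_vr (m := fun p : α × ℕ => m p.1) (r := fun p => p.2)
      (f := fun p => f p.1) (by fun_prop) (by fun_prop) ?_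
    exact PT.comp (g := fun p : α × ℕ => f p.1 p.2) hf
      (f := fun p : (α × ℕ) × ℕ => (p.1.1, p.2)) (by fun_prop)
  have h1 : PT (fun p : α × ℕ => f p.1 (vr (m p.1) (f p.1) p.2)) :=
    PT.comp (g := fun p : α × ℕ => f p.1 p.2) hf
      (f := fun p : α × ℕ => (p.1, vr (m p.1) (f p.1) p.2)) (by fun_prop)
  have hv1 : PT (fun p : (α × ℕ) × ℕ => vr (m p.1.1) (f p.1.1) p.1.2) :=
    PT.comp (g := fun p : α × ℕ => vr (m p.1) (f p.1) p.2) hv
      (f := fun p : (α × ℕ) × ℕ => p.1) (by fun_prop)
  have hv2 : PT (fun p : (α × ℕ) × ℕ => vr (m p.1.1) (f p.1.1) p.2) :=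
    PT.comp (g := fun p : α × ℕ => vr (m p.1) (f p.1) p.2) hv
      (f := fun p : (α × ℕ) × ℕ => (p.1.1, p.2)) (by fun_prop)
  have h2 : PT (fun p : (α × ℕ) × ℕ =>
      X p.1.1 (vr (m p.1.1) (f p.1.1) p.1.2) (vr (m p.1.1) (f p.1.1) p.2)) :=
    PT.comp (g := fun p : α × (ℕ × ℕ) => X p.1 p.2.1 p.2.2) hX
      (f := fun p : (α × ℕ) × ℕ =>
        (p.1.1, (vr (m p.1.1) (f p.1.1) p.1.2, vr (m p.1.1) (f p.1.1) p.2))) (by fun_prop)
  have h3 : PT (fun p : α × ℕ => (List.range (m p.1)).flatMap fun s =>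
      X p.1 (vr (m p.1) (f p.1) p.2) (vr (m p.1) (f p.1) s)) :=
    PT.flatMap (l := fun p : α × ℕ => List.range (m p.1))
      (g := fun p s => X p.1 (vr (m p.1) (f p.1) p.2) (vr (m p.1) (f p.1) s)) (by fun_prop) h2
  unfold yF
  refine PT.append (PT.flatMap (l := fun a => List.range (m a))
    (g := fun a r => f a (vr (m a) (f a) r)) (by fun_prop) h1) ?_
  exact PT.flatMap (l := fun a => List.range (m a))
    (g := fun a r => (List.range (m a)).flatMap fun s =>
      X a (vr (m a) (f a) r) (vr (m a) (f a) s)) (by fun_prop) h3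

@[fun_prop]
theorem PT_hbit {H Y : α → List Bool} {a r : α → ℕ} (hH : PT H) (ha : PT a) (hY : PT Y)
    (hr : PT r) : PT (fun x => hbit (H x) (a x) (Y x) (r x)) := by
  unfold hbit
  refine PT.foldl (l := fun x => List.zipWith (fun x y => x && y)
      (((H x).drop (r x * a x)).take (a x)) (Y x)) (f := fun _ => false)
    (g := fun _ s b => xor s b) (B := fun _ => 3) (by fun_prop) (by fun_prop) ?_ (Bdd.const 3) ?_
  · have : PT (fun p : α × (Bool × Bool) => (p.2.1 && !p.2.2) || (!p.2.1 && p.2.2)) := by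
      fun_prop
    refine this.congr ?_
    rintro ⟨a, b, c⟩
    cases b <;> cases c <;> rfl
  · intro a l' _
    exact sz_bool _

@[fun_prop]
theorem PT_bN {k : α → ℕ} (hk : PT k) : PT (fun a => bN (k a)) := by unfold bN; fun_prop
@[fun_prop]
theorem PT_wL {k : α → ℕ} (hk : PT k) : PT (fun a => wL (k a)) := by unfold wL; fun_prop
@[fun_prop]
theorem PT_cN {k : α → ℕ} (hk : PT k) : PT (fun a => cN (k a)) := by unfold cN; fun_prop
@[fun_prop]
theorem PT_aN {m k : α → ℕ} (hm : PT m) (hk : PT k) : PT (fun a => aN (m a) (k a)) := by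
  unfold aN; fun_prop
@[fun_prop]
theorem PT_lN {m k : α → ℕ} (hm : PT m) (hk : PT k) : PT (fun a => lN (m a) (k a)) := by
  unfold lN; fun_prop
@[fun_prop]
theorem PT_kN {m k : α → ℕ} (hm : PT m) (hk : PT k) : PT (fun a => kN (m a) (k a)) := by
  unfold kN; fun_prop

@[fun_prop]
theorem PT_yBlock {m k : α → ℕ} {X : α → ℕ → ℕ → List Bool} {F : α → ℕ → ℕ → List Bool} (hm : PT m)
    (hk : PT k) (hX : PT (fun p : α × (ℕ × ℕ) => X p.1 p.2.1 p.2.2))
    (hF : PT (fun p : α × (ℕ × ℕ) => F p.1 p.2.1 p.2.2)) :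
    PT (fun a => yBlock (m a) (k a) (X a) (F a)) := by
  unfold yBlock
  refine PT.flatMap (l := fun a => List.range (bN (k a))) (g := fun a j => yF (m a) (X a) (F a j))
    (by fun_prop) ?_
  refine PT_yF (m := fun p : α × ℕ => m p.1) (X := fun p => X p.1) (f := fun p => F p.1 p.2)
    (by fun_prop) ?_ ?_
  · exact PT.comp (g := fun p : α × (ℕ × ℕ) => X p.1 p.2.1 p.2.2) hX
      (f := fun p : (α × ℕ) × (ℕ × ℕ) => (p.1.1, p.2)) (by fun_prop)
  · exact PT.comp (g := fun p : α × (ℕ × ℕ) => F p.1 p.2.1 p.2.2) hF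
      (f := fun p : (α × ℕ) × ℕ => (p.1.1, (p.1.2, p.2))) (by fun_prop)

/-! ### binary numbers -/

theorem sz_listBool_le (l : List Bool) : sz l ≤ 4 * l.length + 1 := by
  have := sz_le_of_forall l 3 (fun a _ => sz_bool a)
  omega

@[fun_prop]
theorem PT_incB {f : α → List Bool} (hf : PT f) : PT (fun a => incB (f a)) := by
  have h : PT (fun a => (f a).foldl
      (fun (s : List Bool × Bool) b => (s.1 ++ [xor b s.2], b && s.2)) ([], true)) := by
    refine PT.foldl (l := f) (f := fun _ => (([] : List Bool), true))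
      (g := fun _ s b => (s.1 ++ [xor b s.2], b && s.2))
      (B := fun a => 4 * (f a).length + 5) hf (by fun_prop) ?_ ?_ ?_
    · have : PT (fun p : α × ((List Bool × Bool) × Bool) =>
        (p.2.1.1 ++ [(p.2.2 && !p.2.1.2) || (!p.2.2 && p.2.1.2)], p.2.2 && p.2.1.2)) := by
        fun_prop
      refine this.congr ?_
      rintro ⟨a, ⟨b, c⟩, d⟩
      cases c <;> cases d <;> rfl
    · have h2 : Bdd (fun a => (f a).length) := hf.bdd.mono fun a => length_le_sz _
      exact ((Bdd.const 4).mul h2).add (Bdd.const 5)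
    · intro a l' hl'
      have h1 := (inc_fold l' [] true).1
      simp only [List.length_nil, Nat.zero_add] at h1
      rw [sz_prod]
      have h2 := sz_listBool_le (l'.foldl
        (fun (s : List Bool × Bool) b => (s.1 ++ [xor b s.2], b && s.2)) ([], true)).1
      have h3 := sz_bool (l'.foldl
        (fun (s : List Bool × Bool) b => (s.1 ++ [xor b s.2], b && s.2)) ([], true)).2
      rw [h1] at h2
      have h4 := hl'.length_le
      omega
  unfold incB
  fun_prop

@[fun_prop]
theorem PT_ubin {f : α → ℕ} (hf : PT f) : PT (fun a => ubin (f a)) := by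
  unfold ubin
  refine PT.natRec (n := f) (f := fun _ => ([] : List Bool)) (g := fun _ _ l => incB l)
    (B := fun a => 4 * f a + 1) hf (by fun_prop) ?_ ?_ ?_
  · exact PT_incB (f := fun p : α × (ℕ × List Bool) => p.2.2) (by fun_prop)
  · have h2 : Bdd f := hf.bdd.mono fun a => by rw [sz_nat]; omega
    exact ((Bdd.const 4).mul h2).add (Bdd.const 1)
  · intro a m hm
    have h1 := sz_listBool_le (ubin m)
    have h2 := length_ubin m
    show sz (ubin m) ≤ _
    omega

@[fun_prop]
theorem PT_capval {c : α → ℕ} {l : α → List Bool} (hc : PT c) (hl : PT l) :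
    PT (fun a => capval (c a) (l a)) := by
  unfold capval
  refine PT.foldr (l := l) (f := fun _ => 0)
    (g := fun a b v => min (c a) (2 * v + (if b then 1 else 0))) (B := fun a => 2 * c a + 1)
    hl (by fun_prop) ?_ ?_ ?_
  · have h : PT (fun p : α × (Bool × ℕ) => c p.1) := by fun_prop
    fun_prop
  · have h2 : Bdd c := hc.bdd.mono fun a => by rw [sz_nat]; omega
    exact ((Bdd.const 2).mul h2).add (Bdd.const 1)
  · intro a l' _
    rw [sz_nat]
    have : List.foldr (fun b v => min (c a) (2 * v + if b = true then 1 else 0)) 0 l' ≤ c a := by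
      cases l' with
      | nil => exact Nat.zero_le _
      | cons b l => exact min_le_left _ _
    omega

@[fun_prop]
theorem PT_qlow {k : α → ℕ} {l : α → List Bool} (hk : PT k) (hl : PT l) :
    PT (fun a => qlow (k a) (l a)) := by
  unfold qlow; fun_prop

@[fun_prop]
theorem PT_lead {l : α → List Bool} (hl : PT l) : PT (fun a => lead (l a)) := by
  unfold lead
  have h : PT (fun p : α × ℕ => !((l p.1).getD p.2 false)) := by fun_prop
  exact PT.getD (PT.find? (g := fun a i => !((l a).getD i false)) (by fun_prop) h) (PT.const 0)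

@[fun_prop]
theorem PT_dec2 {w : α → ℕ} {c : α → List Bool} (hw : PT w) (hc : PT c) :
    PT (fun a => dec2 (w a) (c a)) := by
  have h : PT (fun a => lead ((c a).map fun x => !x)) := by
    apply PT_lead
    exact PT.map (g := fun _ x => !x) hc (by fun_prop)
  unfold dec2
  simp only
  fun_prop

@[fun_prop]
theorem PT_decF {w v : α → ℕ} {c : α → List Bool} (hw : PT w) (hc : PT c) (hv : PT v) :
    PT (fun a => decF (w a) (c a) (v a)) := by
  unfold decF
  fun_prop

end Pool.Agent.GAKT
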