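import Pool.Agent.Lib.MP_8416b9_lc.Core2

/-!
# MP_8416b9_lc: modules PARAM and SIZE
-/

set_option autoImplicit false

namespace Pool.Agent.GAKT

theorem param_aux (e : ℕ) : e * e + 5 * e + 2 ≤ 2 ^ (e + 4) := by
  induction e with
  | zero => norm_num
  | succ e ih =>
    have h1 : e < 2 ^ e := Nat.lt_two_pow_self
    have h2 : 2 ^ (e + 1 + 4) = 2 ^ (e + 4) + 16 * 2 ^ e := by ring
    rw [h2]
    nlinarith

theorem param : ParamStatement := by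
  intro e
  obtain ⟨κ, hκ⟩ : ∃ κ, κ + 2 = 2 ^ (e + 4) := by
    refine ⟨2 ^ (e + 4) - 2, ?_⟩
    have : 2 ^ 4 ≤ 2 ^ (e + 4) := Nat.pow_le_pow_right (by norm_num) (by omega)
    omega
  have h16 : 2 ^ 4 ≤ 2 ^ (e + 4) := Nat.pow_le_pow_right (by norm_num) (by omega)
  have hκ14 : 14 ≤ κ := by omega
  refine ⟨κ, by omega, ?_⟩
  intro n j hn hj
  have hj1 : 1 ≤ j := by
    rcases Nat.eq_zero_or_pos j with h | h
    · subst h; simp at hj
    · exact h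
  have hjlt : j < 2 ^ j := Nat.lt_two_pow_self
  have hκj : κ * j ≤ κ * 2 ^ j := Nat.mul_le_mul_left _ hjlt.le
  constructor
  · have haux := param_aux e
    have hexp : e * (e + 5) + 2 ≤ κ + 2 := by rw [hκ]; nlinarith
    calc (2 * n + κ * j + 2) ^ e ≤ ((κ + 2) * 2 ^ j) ^ e := by
          apply Nat.pow_le_pow_left
          nlinarith
      _ = 2 ^ ((e + 4) * e + j * e) := by rw [hκ, mul_pow, ← pow_mul, ← pow_mul, ← pow_add]
      _ ≤ 2 ^ (κ * j) := by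
          apply Nat.pow_le_pow_right (by norm_num)
          have : (e + 4) * e + j * e ≤ (e * (e + 5)) * j := by nlinarith [Nat.mul_le_mul_left (e * (e + 4)) hj1]
          calc (e + 4) * e + j * e ≤ (e * (e + 5)) * j := this
            _ ≤ κ * j := Nat.mul_le_mul_right _ (by omega)
  · unfold bN
    have hn2 : n ≤ 2 ^ j := by omega
    have h1 : 4 * (2 * (κ * j) + 9) * (2 * n) ^ 2 ≤ (16 * (2 * κ + 9)) * (2 ^ j) ^ 3 := by
      have h2 : 2 * (κ * j) + 9 ≤ (2 * κ + 9) * 2 ^ j := by nlinarith [Nat.one_le_two_pow (n := j)]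
      have h3 : (2 * n) ^ 2 ≤ 4 * (2 ^ j) ^ 2 := by nlinarith
      calc 4 * (2 * (κ * j) + 9) * (2 * n) ^ 2
          ≤ 4 * ((2 * κ + 9) * 2 ^ j) * (4 * (2 ^ j) ^ 2) :=
            Nat.mul_le_mul (Nat.mul_le_mul_left _ h2) h3
        _ = (16 * (2 * κ + 9)) * (2 ^ j) ^ 3 := by ring
    refine h1.trans ?_
    have h4 : 16 * (2 * κ + 9) ≤ 2 ^ (κ - 3) := by
      clear hκ h16 hj hκj h1 hn2
      induction κ, hκ14 using Nat.le_induction with
      | base => norm_num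
      | succ k hk ih =>
        have : k + 1 - 3 = (k - 3) + 1 := by omega
        rw [this, pow_succ]
        omega
    calc 16 * (2 * κ + 9) * (2 ^ j) ^ 3 ≤ 2 ^ (κ - 3) * (2 ^ j) ^ 3 := Nat.mul_le_mul_right _ h4
      _ ≤ 2 ^ ((κ - 3) * j) * (2 ^ j) ^ 3 :=
          Nat.mul_le_mul_right _ (Nat.pow_le_pow_right (by norm_num)
            (Nat.le_mul_of_pos_right _ hj1))
      _ = 2 ^ (κ * j) := by
          rw [← pow_mul, ← pow_add]
          congr 1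
          have : κ = (κ - 3) + 3 := by omega
          conv_rhs => rw [this]
          ring

theorem size : SizeStatement := by
  intro κ
  refine ⟨4 * κ + 26, ?_⟩
  intro n j hn hj
  obtain ⟨M, hM⟩ : ∃ M, M = n * n + 2 := ⟨_, rfl⟩
  rw [← hM]
  have hM3 : 3 ≤ M := by nlinarith
  have hM1 : 1 ≤ M := by omega
  have hnM : n + 2 ≤ M := by nlinarith
  have hjM : 2 ^ j ≤ M ^ 2 := by nlinarith
  have hjM' : j ≤ M ^ 2 := (Nat.lt_two_pow_self).le.trans hjM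
  have hκM : κ ≤ M ^ κ := by
    calc κ ≤ 2 ^ κ := (Nat.lt_two_pow_self).le
      _ ≤ M ^ κ := Nat.pow_le_pow_left (by omega) _
  obtain ⟨k, hk⟩ : ∃ k, k = κ * j := ⟨_, rfl⟩
  rw [← hk]
  have hkM : k ≤ M ^ (κ + 2) := by
    rw [hk, pow_add]; exact Nat.mul_le_mul hκM hjM'
  have h2k : 2 ^ k ≤ M ^ (2 * κ) := by
    rw [hk, mul_comm κ j, pow_mul, pow_mul]
    exact Nat.pow_le_pow_left hjM _
  have hK9 : 9 ≤ M ^ (κ + 2) := by
    calc 9 = 3 ^ 2 := by norm_num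
      _ ≤ M ^ 2 := Nat.pow_le_pow_left hM3 _
      _ ≤ M ^ (κ + 2) := Nat.pow_le_pow_right hM1 (by omega)
  have hbN : bN k ≤ M ^ (κ + 3) := by
    unfold bN
    calc 2 * k + 9 ≤ M ^ (κ + 2) * 3 := by omega
      _ ≤ M ^ (κ + 2) * M := Nat.mul_le_mul_left _ hM3
      _ = M ^ (κ + 3) := by rw [← pow_succ]
  have hwL : wL k ≤ M ^ (κ + 3) := by
    unfold wL
    calc 2 * k ≤ M ^ (κ + 2) * 3 := by omega
      _ ≤ M ^ (κ + 2) * M := Nat.mul_le_mul_left _ hM3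
      _ = M ^ (κ + 3) := by rw [← pow_succ]
  have hm : 2 * n ≤ M ^ 2 := by nlinarith
  have hlN : lN (2 * n) k ≤ M ^ (2 * κ + 8) := by
    unfold lN
    calc 2 * n * bN k * wL k - (2 * k + 7) ≤ 2 * n * bN k * wL k := Nat.sub_le _ _
      _ ≤ M ^ 2 * M ^ (κ + 3) * M ^ (κ + 3) := Nat.mul_le_mul (Nat.mul_le_mul hm hbN) hwL
      _ = M ^ (2 * κ + 8) := by rw [← pow_add, ← pow_add]; congr 1; ring
  have hcN : cN (2 * n) ≤ M ^ 3 := by
    unfold cN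
    nlinarith [Nat.mul_le_mul_left (M * M) hM3, Nat.mul_le_mul hM3 hM3]
  have haN : aN (2 * n) k ≤ M ^ (2 * κ + 11) := by
    unfold aN
    have h1 : 2 * n * wL k ≤ M ^ (κ + 7) := by
      calc 2 * n * wL k ≤ M ^ 2 * M ^ (κ + 3) := Nat.mul_le_mul hm hwL
        _ = M ^ (κ + 5) := by rw [← pow_add]; congr 1; ring
        _ ≤ M ^ (κ + 7) := Nat.pow_le_pow_right hM1 (by omega)
    have h2 : 2 * n * (2 * n) * cN (2 * n) ≤ M ^ (κ + 7) := by
      calc 2 * n * (2 * n) * cN (2 * n) ≤ M ^ 2 * M ^ 2 * M ^ 3 :=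
            Nat.mul_le_mul (Nat.mul_le_mul hm hm) hcN
        _ = M ^ 7 := by rw [← pow_add, ← pow_add]
        _ ≤ M ^ (κ + 7) := Nat.pow_le_pow_right hM1 (by omega)
    calc bN k * (2 * n * wL k + 2 * n * (2 * n) * cN (2 * n))
        ≤ M ^ (κ + 3) * (M ^ (κ + 7) * 3) := Nat.mul_le_mul hbN (by omega)
      _ ≤ M ^ (κ + 3) * (M ^ (κ + 7) * M) :=
          Nat.mul_le_mul_left _ (Nat.mul_le_mul_left _ hM3)
      _ = M ^ (2 * κ + 11) := by rw [← pow_succ, ← pow_add]; congr 1; ring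
  have hcoin : coinN (2 * n) k + 1 ≤ M ^ (4 * κ + 20) := by
    unfold coinN
    have h1 : lN (2 * n) k * aN (2 * n) k ≤ M ^ (4 * κ + 19) := by
      calc lN (2 * n) k * aN (2 * n) k ≤ M ^ (2 * κ + 8) * M ^ (2 * κ + 11) :=
            Nat.mul_le_mul hlN haN
        _ = M ^ (4 * κ + 19) := by rw [← pow_add]; congr 1; ring
    have h2 : 2 ^ k * bN k * (2 * n) * wL k ≤ M ^ (4 * κ + 19) := by
      calc 2 ^ k * bN k * (2 * n) * wL k ≤ M ^ (2 * κ) * M ^ (κ + 3) * M ^ 2 * M ^ (κ + 3) :=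
            Nat.mul_le_mul (Nat.mul_le_mul (Nat.mul_le_mul h2k hbN) hm) hwL
        _ = M ^ (4 * κ + 8) := by rw [← pow_add, ← pow_add, ← pow_add]; congr 1; ring
        _ ≤ M ^ (4 * κ + 19) := Nat.pow_le_pow_right hM1 (by omega)
    have h3 : 1 ≤ M ^ (4 * κ + 19) := Nat.one_le_pow _ _ (by omega)
    calc lN (2 * n) k * aN (2 * n) k + 2 ^ k * bN k * (2 * n) * wL k + 1
        ≤ M ^ (4 * κ + 19) * 3 := by omega
      _ ≤ M ^ (4 * κ + 19) * M := Nat.mul_le_mul_left _ hM3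
      _ = M ^ (4 * κ + 20) := by rw [← pow_succ]
  have hn4 : n ^ 4 + 1 ≤ M ^ 2 := by
    rw [hM]; nlinarith [sq_nonneg n]
  have hn4' : 4 * (n ^ 4 + 1) ≤ M ^ 4 := by
    calc 4 * (n ^ 4 + 1) ≤ M ^ 2 * M ^ 2 := Nat.mul_le_mul (by nlinarith) hn4
      _ = M ^ 4 := by rw [← pow_add]
  calc (n ^ 4 + 1) * (4 * (n ^ 4 + 1)) * (coinN (2 * n) k + 1)
      ≤ M ^ 2 * M ^ 4 * M ^ (4 * κ + 20) := Nat.mul_le_mul (Nat.mul_le_mul hn4 hn4') hcoin
    _ = M ^ (4 * κ + 26) := by rw [← pow_add, ← pow_add]; congr 1; ring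

end Pool.Agent.GAKT
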