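import Pool.Agent.Lib.MP_8416b9_lc.PTCore

/-!
# MP_8416b9_lc: polynomial-time computability of the test strings and of the structures
-/

set_option autoImplicit false

namespace Pool.Agent.GAKT

open Pool.Agent.PolyTime

universe u
variable {α : Type u} [Rep α]

/-! ### the test strings, with `T = 2^k` as a parameter -/

/-- `fullStr` with a parameter for `2^k` -/
def fullStrT (m k T : ℕ) (X : ℕ → ℕ → List Bool) (s : List Bool) : List Bool :=
  ((List.range (lN m k)).flatMap fun r => (List.range T).map fun q =>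
    hbit (s.take (lN m k * aN m k)) (aN m k) (yBlock m k X (labF m k s q)) r) ++
      s.take (lN m k * aN m k)

/-- `goodCoins` with a parameter for `2^k` -/
def goodT (m k T : ℕ) (s : List Bool) : Bool :=
  (List.range T).all fun q => (List.range (bN k)).all fun j =>
    (List.range m).all fun u => (List.range m).all fun v =>
      (labF m k s q j u != labF m k s q j v) || (u == v)

/-- `coinN` with a parameter for `2^k` -/
def coinT (m k T : ℕ) : ℕ := lN m k * aN m k + T * bN k * m * wL k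

theorem fullStrT_eq (m k : ℕ) (X : ℕ → ℕ → List Bool) (s : List Bool) :
    (fullStrT m k (2 ^ k) X s).tail = testStr m k X s := rfl

theorem goodT_eq (m k : ℕ) (s : List Bool) : goodT m k (2 ^ k) s = goodCoins m k s := rfl

theorem coinT_eq (m k : ℕ) : coinT m k (2 ^ k) = coinN m k := rfl

@[fun_prop]
theorem PT_labF {m k q j v : α → ℕ} {s : α → List Bool} (hm : PT m) (hk : PT k) (hs : PT s)
    (hq : PT q) (hj : PT j) (hv : PT v) :
    PT (fun a => labF (m a) (k a) (s a) (q a) (j a) (v a)) := by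
  unfold labF
  fun_prop

theorem PT_fullStrT {m k T : α → ℕ} {X : α → ℕ → ℕ → List Bool} {s : α → List Bool} (hm : PT m)
    (hk : PT k) (hT : PT T) (hX : PT (fun p : α × (ℕ × ℕ) => X p.1 p.2.1 p.2.2)) (hs : PT s) :
    PT (fun a => fullStrT (m a) (k a) (T a) (X a) (s a)) := by
  unfold fullStrT
  have h0 : PT (fun a => (s a).take (lN (m a) (k a) * aN (m a) (k a))) := by fun_prop
  refine PT.append (PT.flatMap (l := fun a => List.range (lN (m a) (k a)))
    (g := fun a r => (List.range (T a)).map fun q =>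
      hbit ((s a).take (lN (m a) (k a) * aN (m a) (k a))) (aN (m a) (k a))
        (yBlock (m a) (k a) (X a) (labF (m a) (k a) (s a) q)) r) (by fun_prop) ?_) h0
  refine PT.map (l := fun p : α × ℕ => List.range (T p.1)) (g := fun p q =>
      hbit ((s p.1).take (lN (m p.1) (k p.1) * aN (m p.1) (k p.1))) (aN (m p.1) (k p.1))
        (yBlock (m p.1) (k p.1) (X p.1) (labF (m p.1) (k p.1) (s p.1) q)) p.2) (by fun_prop) ?_
  have hH : PT (fun p : (α × ℕ) × ℕ =>
      (s p.1.1).take (lN (m p.1.1) (k p.1.1) * aN (m p.1.1) (k p.1.1))) :=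
    PT.comp (g := fun a => (s a).take (lN (m a) (k a) * aN (m a) (k a))) h0
      (f := fun p : (α × ℕ) × ℕ => p.1.1) (by fun_prop)
  have hY : PT (fun p : (α × ℕ) × ℕ => yBlock (m p.1.1) (k p.1.1) (X p.1.1)
      (labF (m p.1.1) (k p.1.1) (s p.1.1) p.2)) := by
    refine PT_yBlock (m := fun p : (α × ℕ) × ℕ => m p.1.1) (k := fun p => k p.1.1)
      (X := fun p => X p.1.1) (F := fun p => labF (m p.1.1) (k p.1.1) (s p.1.1) p.2)
      (by fun_prop) (by fun_prop) ?_ (by fun_prop)
    exact PT.comp (g := fun p : α × (ℕ × ℕ) => X p.1 p.2.1 p.2.2) hX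
      (f := fun p : ((α × ℕ) × ℕ) × (ℕ × ℕ) => (p.1.1.1, p.2)) (by fun_prop)
  exact PT_hbit (H := fun p : (α × ℕ) × ℕ =>
      (s p.1.1).take (lN (m p.1.1) (k p.1.1) * aN (m p.1.1) (k p.1.1)))
    (a := fun p => aN (m p.1.1) (k p.1.1))
    (Y := fun p => yBlock (m p.1.1) (k p.1.1) (X p.1.1)
      (labF (m p.1.1) (k p.1.1) (s p.1.1) p.2)) (r := fun p => p.1.2)
    hH (by fun_prop) hY (by fun_prop)

theorem PT_goodT {m k T : α → ℕ} {s : α → List Bool} (hm : PT m)
    (hk : PT k) (hT : PT T) (hs : PT s) : PT (fun a => goodT (m a) (k a) (T a) (s a)) := by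
  have h4 : PT (fun p : (((α × ℕ) × ℕ) × ℕ) × ℕ =>
      (labF (m p.1.1.1.1) (k p.1.1.1.1) (s p.1.1.1.1) p.1.1.1.2 p.1.1.2 p.1.2 !=
        labF (m p.1.1.1.1) (k p.1.1.1.1) (s p.1.1.1.1) p.1.1.1.2 p.1.1.2 p.2) ||
        (p.1.2 == p.2)) := by
    have e1 : PT (fun p : (((α × ℕ) × ℕ) × ℕ) × ℕ =>
      labF (m p.1.1.1.1) (k p.1.1.1.1) (s p.1.1.1.1) p.1.1.1.2 p.1.1.2 p.1.2) := by fun_prop
    have e2 : PT (fun p : (((α × ℕ) × ℕ) × ℕ) × ℕ =>
      labF (m p.1.1.1.1) (k p.1.1.1.1) (s p.1.1.1.1) p.1.1.1.2 p.1.1.2 p.2) := by fun_prop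
    have e3 : PT (fun p : (((α × ℕ) × ℕ) × ℕ) × ℕ => decide (p.1.2 = p.2)) := by fun_prop
    refine (PT.or (PT.not (PT.eq e1 e2)) e3).congr fun p => ?_
    simp only [bne, beq_eq_decide]
  have h3 : PT (fun p : ((α × ℕ) × ℕ) × ℕ => (List.range (m p.1.1.1)).all fun v =>
      (labF (m p.1.1.1) (k p.1.1.1) (s p.1.1.1) p.1.1.2 p.1.2 p.2 !=
        labF (m p.1.1.1) (k p.1.1.1) (s p.1.1.1) p.1.1.2 p.1.2 v) || (p.2 == v)) :=
    PT.all (l := fun p : ((α × ℕ) × ℕ) × ℕ => List.range (m p.1.1.1)) (g := fun p v =>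
      (labF (m p.1.1.1) (k p.1.1.1) (s p.1.1.1) p.1.1.2 p.1.2 p.2 !=
        labF (m p.1.1.1) (k p.1.1.1) (s p.1.1.1) p.1.1.2 p.1.2 v) || (p.2 == v)) (by fun_prop) h4
  have h2 : PT (fun p : (α × ℕ) × ℕ => (List.range (m p.1.1)).all fun u =>
      (List.range (m p.1.1)).all fun v =>
      (labF (m p.1.1) (k p.1.1) (s p.1.1) p.1.2 p.2 u !=
        labF (m p.1.1) (k p.1.1) (s p.1.1) p.1.2 p.2 v) || (u == v)) :=
    PT.all (l := fun p : (α × ℕ) × ℕ => List.range (m p.1.1)) (g := fun p u =>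
      (List.range (m p.1.1)).all fun v =>
      (labF (m p.1.1) (k p.1.1) (s p.1.1) p.1.2 p.2 u !=
        labF (m p.1.1) (k p.1.1) (s p.1.1) p.1.2 p.2 v) || (u == v)) (by fun_prop) h3
  have h1 : PT (fun p : α × ℕ => (List.range (bN (k p.1))).all fun j =>
      (List.range (m p.1)).all fun u => (List.range (m p.1)).all fun v =>
      (labF (m p.1) (k p.1) (s p.1) p.2 j u !=
        labF (m p.1) (k p.1) (s p.1) p.2 j v) || (u == v)) :=
    PT.all (l := fun p : α × ℕ => List.range (bN (k p.1))) (g := fun p j =>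
      (List.range (m p.1)).all fun u => (List.range (m p.1)).all fun v =>
      (labF (m p.1) (k p.1) (s p.1) p.2 j u !=
        labF (m p.1) (k p.1) (s p.1) p.2 j v) || (u == v)) (by fun_prop) h2
  unfold goodT
  exact PT.all (l := fun a => List.range (T a)) (g := fun a q =>
    (List.range (bN (k a))).all fun j =>
      (List.range (m a)).all fun u => (List.range (m a)).all fun v =>
      (labF (m a) (k a) (s a) q j u != labF (m a) (k a) (s a) q j v) || (u == v))
    (by fun_prop) h1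

@[fun_prop]
theorem PT_coinT {m k T : α → ℕ} (hm : PT m) (hk : PT k) (hT : PT T) :
    PT (fun a => coinT (m a) (k a) (T a)) := by
  unfold coinT; fun_prop

/-! ### the structures -/

@[fun_prop]
theorem PT_oneHot {N c : α → ℕ} (hN : PT N) (hc : PT c) : PT (fun a => oneHot (N a) (c a)) := by
  unfold oneHot
  have h : PT (fun p : α × ℕ => p.2 == c p.1) := by fun_prop
  exact PT.map (l := fun a => List.range (N a)) (g := fun a t => t == c a) (by fun_prop) h

@[fun_prop]
theorem PT_markL {n i x : α → ℕ} (hn : PT n) (hi : PT i) (hx : PT x) :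
    PT (fun a => markL (n a) (i a) (x a)) := by
  unfold markL
  fun_prop

@[fun_prop]
theorem PT_markR {n i j x : α → ℕ} (hn : PT n) (hi : PT i) (hj : PT j) (hx : PT x) :
    PT (fun a => markR (n a) (i a) (j a) (x a)) := by
  unfold markR
  fun_prop

@[fun_prop]
theorem PT_decIff {p q : α → Prop} [DecidablePred p] [DecidablePred q]
    (hp : PT (fun a => decide (p a))) (hq : PT (fun a => decide (q a))) :
    PT (fun a => decide (p a ↔ q a)) := by
  refine (PT.or (PT.and hp hq) (PT.and (PT.not hp) (PT.not hq))).congr fun a => ?_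
  by_cases h1 : p a <;> by_cases h2 : q a <;> simp [h1, h2]

theorem PT_sM {n u v : α → ℕ} {g : α → ℕ → ℕ → Bool} (hn : PT n)
    (hg : PT (fun p : α × (ℕ × ℕ) => g p.1 p.2.1 p.2.2)) (hu : PT u) (hv : PT v) :
    PT (fun a => sM (n a) (g a) (u a) (v a)) := by
  have h1 : PT (fun a => g a (u a % n a) (v a % n a)) :=
    PT.comp (g := fun p : α × (ℕ × ℕ) => g p.1 p.2.1 p.2.2) hg
      (f := fun a => (a, (u a % n a, v a % n a))) (by fun_prop)
  have h2 : PT (fun a => decide (g a (u a % n a) (v a % n a) = true)) :=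
    h1.congr fun a => by simp
  have hN : PT (fun a => 2 * n a + 5) := by fun_prop
  unfold sM
  simp only
  refine PT.iteProp (c := fun a => u a = v a) (by fun_prop)
    (PT.iteProp (c := fun a => u a < n a) (by fun_prop) (PT_oneHot hN (PT.const 3))
      (PT_oneHot hN (PT.const 4))) ?_
  refine PT.iteProp (c := fun a => (u a < n a ↔ v a < n a)) (by fun_prop) ?_
    (PT_oneHot hN (PT.const 2))
  exact PT.iteProp (c := fun a => g a (u a % n a) (v a % n a) = true) h2
    (PT_oneHot hN (PT.const 1)) (PT_oneHot hN (PT.const 0))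

theorem PT_sX {n i j k l u v : α → ℕ} {g : α → ℕ → ℕ → Bool} (hn : PT n)
    (hg : PT (fun p : α × (ℕ × ℕ) => g p.1 p.2.1 p.2.2)) (hi : PT i) (hj : PT j) (hk : PT k)
    (hl : PT l) (hu : PT u) (hv : PT v) :
    PT (fun a => sX (n a) (g a) (i a) (j a) (k a) (l a) (u a) (v a)) := by
  have h1 : PT (fun a => g a (u a % n a) (v a % n a)) :=
    PT.comp (g := fun p : α × (ℕ × ℕ) => g p.1 p.2.1 p.2.2) hg
      (f := fun a => (a, (u a % n a, v a % n a))) (by fun_prop)
  have h2 : PT (fun a => decide (g a (u a % n a) (v a % n a) = true)) :=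
    h1.congr fun a => by simp
  have hN : PT (fun a => 2 * n a + 5) := by fun_prop
  have hL : PT (fun a => 3 + 2 * markL (n a) (i a) (u a) + (if u a = k a then 1 else 0)) := by
    fun_prop
  have hR : PT (fun a => 3 + 2 * markR (n a) (i a) (j a) (u a - n a) +
      (if u a - n a = l a then 1 else 0)) := by
    fun_prop
  unfold sX
  simp only
  refine PT.iteProp (c := fun a => u a = v a) (by fun_prop)
    (PT.iteProp (c := fun a => u a < n a) (by fun_prop) (PT_oneHot hN hL) (PT_oneHot hN hR)) ?_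
  refine PT.iteProp (c := fun a => (u a < n a ↔ v a < n a)) (by fun_prop) ?_
    (PT_oneHot hN (PT.const 2))
  exact PT.iteProp (c := fun a => g a (u a % n a) (v a % n a) = true) h2
    (PT_oneHot hN (PT.const 1)) (PT_oneHot hN (PT.const 0))

end Pool.Agent.GAKT
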