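import Pool.Agent.Lib.MP_8416b9_lc.Red1
import Pool.Agent.Lib.MP_8416b9_lc.Mach

/-!
# MP_8416b9_lc: the oracle algorithm and its polynomial-time computability
-/

set_option autoImplicit false

namespace Pool.Agent.GAKT

open Pool.Agent.PolyTime

universe u
variable {α : Type u} [Rep α]

/-! ### reading the graph -/

/-- adjacency of the graph written in the word `w` -/
def gW (w : List Bool) (n u v : ℕ) : Bool := w.getD (u * n + v) false

/-- number of vertices of the graph written in the word `w` -/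
def nW (w : List Bool) : ℕ :=
  ((List.range (w.length + 1)).find? (fun n => decide (n * n = w.length))).getD 0

/-- `w` is the adjacency matrix of a graph on `n` vertices -/
def validW (w : List Bool) (n : ℕ) : Bool :=
  (decide (n * n = w.length) && ((List.range n).all fun u => !(gW w n u u))) &&
    ((List.range n).all fun u => (List.range n).all fun v => decide (gW w n u v = gW w n v u))

@[fun_prop]
theorem PT_gW {w : α → List Bool} {n x y : α → ℕ} (hw : PT w) (hn : PT n) (hx : PT x) (hy : PT y) :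
    PT (fun a => gW (w a) (n a) (x a) (y a)) := by
  unfold gW
  fun_prop

@[fun_prop]
theorem PT_nW {w : α → List Bool} (hw : PT w) : PT (fun a => nW (w a)) := by
  unfold nW
  have h1 : PT (fun p : α × ℕ => decide (p.2 * p.2 = (w p.1).length)) := by fun_prop
  exact PT.getD (PT.find? (l := fun a => List.range ((w a).length + 1))
    (g := fun a n => decide (n * n = (w a).length)) (by fun_prop) h1) (PT.const 0)

@[fun_prop]
theorem PT_validW {w : α → List Bool} {n : α → ℕ} (hw : PT w) (hn : PT n) :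
    PT (fun a => validW (w a) (n a)) := by
  have h1 : PT (fun a => (List.range (n a)).all fun u => !(gW (w a) (n a) u u)) := by
    have : PT (fun p : α × ℕ => !(gW (w p.1) (n p.1) p.2 p.2)) := by fun_prop
    exact PT.all (l := fun a => List.range (n a)) (g := fun a u => !(gW (w a) (n a) u u))
      (by fun_prop) this
  have h3 : PT (fun p : (α × ℕ) × ℕ => decide (gW (w p.1.1) (n p.1.1) p.1.2 p.2 =
      gW (w p.1.1) (n p.1.1) p.2 p.1.2)) := by
    apply PT.eq <;> fun_prop
  have h2 : PT (fun p : α × ℕ => (List.range (n p.1)).all fun v =>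
      decide (gW (w p.1) (n p.1) p.2 v = gW (w p.1) (n p.1) v p.2)) :=
    PT.all (l := fun p : α × ℕ => List.range (n p.1)) (g := fun p v =>
      decide (gW (w p.1) (n p.1) p.2 v = gW (w p.1) (n p.1) v p.2)) (by fun_prop) h3
  have h0 : PT (fun a => decide (n a * n a = (w a).length)) := by fun_prop
  unfold validW
  exact PT.and (PT.and h0 h1) (PT.all (l := fun a => List.range (n a)) (g := fun a u =>
    (List.range (n a)).all fun v => decide (gW (w a) (n a) u v = gW (w a) (n a) v u))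
      (by fun_prop) h2)

/-! ### the least power of two above `n + 2` -/

/-- a step of the doubling -/
def jStep (n : ℕ) (s : ℕ × ℕ) : ℕ × ℕ := if s.2 < n + 2 then (s.1 + 1, 2 * s.2) else s

/-- iterated doubling -/
def jIter (n t : ℕ) : ℕ × ℕ := Nat.rec (motive := fun _ => ℕ × ℕ) (0, 1) (fun _ s => jStep n s) t

/-- the exponent and the power -/
def jt (n : ℕ) : ℕ × ℕ := jIter n (n + 2)

theorem jIter_spec (n t : ℕ) : (jIter n t).2 = 2 ^ (jIter n t).1 ∧ (jIter n t).2 ≤ 2 * (n + 2) ∧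
    (jIter n t).1 ≤ t ∧ ((jIter n t).2 < n + 2 → (jIter n t).1 = t) := by
  induction t with
  | zero => exact ⟨rfl, by show 1 ≤ _; omega, le_rfl, fun _ => rfl⟩
  | succ t ih =>
    obtain ⟨h1, h2, h3, h4⟩ := ih
    have hs : jIter n (t + 1) = jStep n (jIter n t) := rfl
    rw [hs]
    unfold jStep
    split
    · rename_i h
      refine ⟨?_, ?_, ?_, ?_⟩
      · show 2 * (jIter n t).2 = 2 ^ ((jIter n t).1 + 1)
        rw [h1, pow_succ]; ring
      · show 2 * (jIter n t).2 ≤ 2 * (n + 2)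
        omega
      · show (jIter n t).1 + 1 ≤ t + 1
        omega
      · intro _
        show (jIter n t).1 + 1 = t + 1
        rw [h4 h]
    · rename_i h
      exact ⟨h1, h2, h3.trans (Nat.le_succ t), fun h' => absurd h' h⟩

theorem jt_pow (n : ℕ) : (jt n).2 = 2 ^ (jt n).1 := (jIter_spec n (n + 2)).1

theorem jt_le (n : ℕ) : 2 ^ (jt n).1 ≤ 2 * (n + 2) := by
  rw [← jt_pow]; exact (jIter_spec n (n + 2)).2.1

theorem le_jt (n : ℕ) : n + 2 ≤ 2 ^ (jt n).1 := by
  rw [← jt_pow]
  by_contra h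
  have h1 := (jIter_spec n (n + 2)).2.2.2 (not_le.1 h)
  have h2 := jt_pow n
  unfold jt at h h2
  rw [h1] at h2
  have h3 : n + 2 < 2 ^ (n + 2) := Nat.lt_two_pow_self
  omega

@[fun_prop]
theorem PT_jt {n : α → ℕ} (hn : PT n) : PT (fun a => jt (n a)) := by
  unfold jt jIter
  refine PT.natRec (n := fun a => n a + 2) (f := fun _ => (0, 1)) (g := fun a _ s => jStep (n a) s)
    (B := fun a => 8 * (n a + 2) + 8) (by fun_prop) (by fun_prop) ?_ ?_ ?_
  · unfold jStep
    refine PT.iteProp (c := fun p : α × (ℕ × (ℕ × ℕ)) => p.2.2.2 < n p.1 + 2) ?_ ?_ ?_ <;> fun_prop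
  · have h2 : Bdd n := hn.bdd.mono fun a => by rw [sz_nat]; omega
    exact ((Bdd.const 8).mul (h2.add (Bdd.const 2))).add (Bdd.const 8)
  · intro a m hm
    have h := jIter_spec (n a) m
    change sz (jIter (n a) m) ≤ _
    rw [sz_prod, sz_nat, sz_nat]
    omega

/-! ### the queries and the output -/

/-- the structure number `v` -/
def sOf (n : ℕ) (g : ℕ → ℕ → Bool) (v a b : ℕ) : List Bool :=
  if v = n ^ 4 then sM n g a b
  else sX n g (v / (n * n * n)) (v / (n * n) % n) (v / n % n) (v % n) a b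

/-- the block of coins number `t` -/
def slc (r : List Bool) (L t : ℕ) : List Bool := (r.drop (t * L)).take L

/-- the query number `t` -/
def qryF (n k T : ℕ) (w r : List Bool) (t : ℕ) : List Bool :=
  (fullStrT (2 * n) k T (sOf n (gW w n) (t / (4 * (n ^ 4 + 1))))
    (slc r (coinT (2 * n) k T) t)).tail

/-- the structure number `v` has passed a test -/
def certF (n k T : ℕ) (r ans : List Bool) (v : ℕ) : Bool :=
  (List.range (4 * (n ^ 4 + 1))).any fun u => ans.getD (v * (4 * (n ^ 4 + 1)) + u) false &&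
    goodT (2 * n) k T (slc r (coinT (2 * n) k T) (v * (4 * (n ^ 4 + 1)) + u))

/-- the candidate for an automorphism -/
def cand (n : ℕ) (c : ℕ → Bool) (i j x : ℕ) : ℕ :=
  ((List.range n).find? fun l => !(c (((i * n + j) * n + x) * n + l))).getD 0

/-- `τ` is a nontrivial automorphism -/
def ntB (n : ℕ) (g : ℕ → ℕ → Bool) (τ : ℕ → ℕ) : Bool :=
  (((List.range n).all fun u => decide (τ u < n)) &&
    (List.range n).any fun u => decide (τ u ≠ u)) &&
  ((List.range n).all fun u => (List.range n).all fun v =>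
    decide (g (τ u) (τ v) = g u v) && decide (τ u = τ v → u = v))

/-- the output -/
def outF (n k T : ℕ) (w r ans : List Bool) : Option Bool :=
  if certF n k T r ans (n ^ 4) = true then some false
  else if ((List.range n).any fun i => (List.range n).any fun j =>
    ntB n (gW w n) (cand n (certF n k T r ans) i j)) = true then some true
  else none

/-- the algorithm after the computation of the parameters -/
def redF (n k T : ℕ) (w r ans : List Bool) : List Bool ⊕ Option Bool :=
  if validW w n = false ∨ n = 0 then .inr (some false)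
  else if ans.length < (n ^ 4 + 1) * (4 * (n ^ 4 + 1)) then .inl (qryF n k T w r ans.length)
  else .inr (outF n k T w r ans)

/-- the algorithm -/
def redProc (κ : ℕ) (p : (List Bool × List Bool) × List Bool) : List Bool ⊕ Option Bool :=
  redF (nW p.1.1) (κ * (jt (nW p.1.1)).1) ((jt (nW p.1.1)).2 ^ κ) p.1.1 p.1.2 p.2

theorem PT_sOf {n v x y : α → ℕ} {g : α → ℕ → ℕ → Bool} (hn : PT n)
    (hg : PT (fun p : α × (ℕ × ℕ) => g p.1 p.2.1 p.2.2)) (hv : PT v) (hx : PT x) (hy : PT y) :
    PT (fun a => sOf (n a) (g a) (v a) (x a) (y a)) := by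
  have h1 : PT (fun a => decide (v a = n a ^ 4)) := by
    have : PT (fun a => n a ^ 4) := PT.pow hn 4
    fun_prop
  unfold sOf
  refine PT.iteProp (c := fun a => v a = n a ^ 4) h1 (PT_sM hn hg hx hy) ?_
  have e1 : PT (fun a => v a / (n a * n a * n a)) := by fun_prop
  have e2 : PT (fun a => v a / (n a * n a) % n a) := by fun_prop
  have e3 : PT (fun a => v a / n a % n a) := by fun_prop
  have e4 : PT (fun a => v a % n a) := by fun_prop
  exact PT_sX hn hg e1 e2 e3 e4 hx hy

@[fun_prop]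
theorem PT_slc {r : α → List Bool} {L t : α → ℕ} (hr : PT r) (hL : PT L) (ht : PT t) :
    PT (fun a => slc (r a) (L a) (t a)) := by
  unfold slc; fun_prop

theorem PT_qryF {n k T t : α → ℕ} {w r : α → List Bool} (hn : PT n) (hk : PT k) (hT : PT T)
    (hw : PT w) (hr : PT r) (ht : PT t) :
    PT (fun a => qryF (n a) (k a) (T a) (w a) (r a) (t a)) := by
  have h2 : PT (fun a => 2 * n a) := by fun_prop
  have hL : PT (fun a => coinT (2 * n a) (k a) (T a)) := PT_coinT h2 hk hT
  have hs : PT (fun a => slc (r a) (coinT (2 * n a) (k a) (T a)) (t a)) := PT_slc hr hL ht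
  have hQ : PT (fun a => 4 * (n a ^ 4 + 1)) := by
    have : PT (fun a => n a ^ 4) := PT.pow hn 4
    fun_prop
  have hv : PT (fun a => t a / (4 * (n a ^ 4 + 1))) := PT.div ht hQ
  have hX : PT (fun p : α × (ℕ × ℕ) => sOf (n p.1) (gW (w p.1) (n p.1))
      (t p.1 / (4 * (n p.1 ^ 4 + 1))) p.2.1 p.2.2) := by
    refine PT_sOf (n := fun p : α × (ℕ × ℕ) => n p.1) (g := fun p => gW (w p.1) (n p.1))
      (v := fun p => t p.1 / (4 * (n p.1 ^ 4 + 1))) (x := fun p => p.2.1) (y := fun p => p.2.2)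
      (by fun_prop) ?_ ?_ (by fun_prop) (by fun_prop)
    · exact PT_gW (w := fun p : (α × (ℕ × ℕ)) × (ℕ × ℕ) => w p.1.1) (n := fun p => n p.1.1)
        (x := fun p => p.2.1) (y := fun p => p.2.2) (by fun_prop) (by fun_prop) (by fun_prop)
        (by fun_prop)
    · exact PT.comp (g := fun a => t a / (4 * (n a ^ 4 + 1))) hv
        (f := fun p : α × (ℕ × ℕ) => p.1) (by fun_prop)
  unfold qryF
  exact PT.tail (PT_fullStrT (m := fun a => 2 * n a) (k := k) (T := T)
    (X := fun a => sOf (n a) (gW (w a) (n a)) (t a / (4 * (n a ^ 4 + 1))))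
    (s := fun a => slc (r a) (coinT (2 * n a) (k a) (T a)) (t a)) h2 hk hT hX hs)

theorem PT_certF {n k T v : α → ℕ} {r ans : α → List Bool} (hn : PT n) (hk : PT k) (hT : PT T)
    (hr : PT r) (ha : PT ans) (hv : PT v) :
    PT (fun a => certF (n a) (k a) (T a) (r a) (ans a) (v a)) := by
  have h2 : PT (fun a => 2 * n a) := by fun_prop
  have hQ : PT (fun a => 4 * (n a ^ 4 + 1)) := by
    have : PT (fun a => n a ^ 4) := PT.pow hn 4
    fun_prop
  have hL : PT (fun a => coinT (2 * n a) (k a) (T a)) := PT_coinT h2 hk hT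
  have hi : PT (fun p : α × ℕ => v p.1 * (4 * (n p.1 ^ 4 + 1)) + p.2) := by
    have h1 : PT (fun p : α × ℕ => v p.1 * (4 * (n p.1 ^ 4 + 1))) :=
      PT.comp (g := fun a => v a * (4 * (n a ^ 4 + 1))) (PT.mul hv hQ)
        (f := fun p : α × ℕ => p.1) (by fun_prop)
    exact PT.add h1 (by fun_prop)
  have hs : PT (fun p : α × ℕ => slc (r p.1) (coinT (2 * n p.1) (k p.1) (T p.1))
      (v p.1 * (4 * (n p.1 ^ 4 + 1)) + p.2)) := by
    refine PT_slc (r := fun p : α × ℕ => r p.1) (L := fun p => coinT (2 * n p.1) (k p.1) (T p.1))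
      (t := fun p => v p.1 * (4 * (n p.1 ^ 4 + 1)) + p.2) (by fun_prop) ?_ hi
    exact PT.comp (g := fun a => coinT (2 * n a) (k a) (T a)) hL
        (f := fun p : α × ℕ => p.1) (by fun_prop)
  have hg : PT (fun p : α × ℕ => goodT (2 * n p.1) (k p.1) (T p.1)
      (slc (r p.1) (coinT (2 * n p.1) (k p.1) (T p.1))
        (v p.1 * (4 * (n p.1 ^ 4 + 1)) + p.2))) :=
    PT_goodT (m := fun p : α × ℕ => 2 * n p.1) (k := fun p => k p.1) (T := fun p => T p.1)
      (s := fun p => slc (r p.1) (coinT (2 * n p.1) (k p.1) (T p.1))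
        (v p.1 * (4 * (n p.1 ^ 4 + 1)) + p.2)) (by fun_prop) (by fun_prop) (by fun_prop) hs
  have hd : PT (fun p : α × ℕ => (ans p.1).getD (v p.1 * (4 * (n p.1 ^ 4 + 1)) + p.2) false) :=
    PT.listGetD (l := fun p : α × ℕ => ans p.1) (n := fun p => v p.1 * (4 * (n p.1 ^ 4 + 1)) + p.2)
      (d := fun _ => false) (by fun_prop) hi (by fun_prop)
  unfold certF
  exact PT.any (l := fun a => List.range (4 * (n a ^ 4 + 1))) (g := fun a u =>
    (ans a).getD (v a * (4 * (n a ^ 4 + 1)) + u) false && goodT (2 * n a) (k a) (T a)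
      (slc (r a) (coinT (2 * n a) (k a) (T a)) (v a * (4 * (n a ^ 4 + 1)) + u)))
    (PT.range hQ) (PT.and hd hg)

theorem PT_cand {n i j x : α → ℕ} {c : α → ℕ → Bool} (hn : PT n)
    (hc : PT (fun p : α × ℕ => c p.1 p.2)) (hi : PT i) (hj : PT j) (hx : PT x) :
    PT (fun a => cand (n a) (c a) (i a) (j a) (x a)) := by
  have h1 : PT (fun p : α × ℕ => ((i p.1 * n p.1 + j p.1) * n p.1 + x p.1) * n p.1 + p.2) := by
    fun_prop
  have h2 : PT (fun p : α × ℕ =>
      c p.1 (((i p.1 * n p.1 + j p.1) * n p.1 + x p.1) * n p.1 + p.2)) :=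
    PT.comp (g := fun p : α × ℕ => c p.1 p.2) hc
      (f := fun p : α × ℕ => (p.1, ((i p.1 * n p.1 + j p.1) * n p.1 + x p.1) * n p.1 + p.2))
      (PT.pair (by fun_prop) h1)
  unfold cand
  exact PT.getD (PT.find? (l := fun a => List.range (n a)) (g := fun a l =>
    !(c a (((i a * n a + j a) * n a + x a) * n a + l))) (by fun_prop) (PT.not h2)) (PT.const 0)

theorem PT_ntB {n : α → ℕ} {g : α → ℕ → ℕ → Bool} {τ : α → ℕ → ℕ} (hn : PT n)
    (hg : PT (fun p : α × (ℕ × ℕ) => g p.1 p.2.1 p.2.2)) (hτ : PT (fun p : α × ℕ => τ p.1 p.2)) :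
    PT (fun a => ntB (n a) (g a) (τ a)) := by
  have h1 : PT (fun p : α × ℕ => decide (τ p.1 p.2 < n p.1)) := PT.lt hτ (by fun_prop)
  have h2 : PT (fun p : α × ℕ => decide (τ p.1 p.2 ≠ p.2)) := by
    have : PT (fun p : α × ℕ => decide (τ p.1 p.2 = p.2)) := PT.natEq hτ (by fun_prop)
    exact PT.decNot this
  have hu : PT (fun p : (α × ℕ) × ℕ => τ p.1.1 p.1.2) :=
    PT.comp (g := fun p : α × ℕ => τ p.1 p.2) hτ (f := fun p : (α × ℕ) × ℕ => p.1) (by fun_prop)
  have hv : PT (fun p : (α × ℕ) × ℕ => τ p.1.1 p.2) :=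
    PT.comp (g := fun p : α × ℕ => τ p.1 p.2) hτ
      (f := fun p : (α × ℕ) × ℕ => (p.1.1, p.2)) (by fun_prop)
  have hg1 : PT (fun p : (α × ℕ) × ℕ => g p.1.1 (τ p.1.1 p.1.2) (τ p.1.1 p.2)) :=
    PT.comp (g := fun p : α × (ℕ × ℕ) => g p.1 p.2.1 p.2.2) hg
      (f := fun p : (α × ℕ) × ℕ => (p.1.1, (τ p.1.1 p.1.2, τ p.1.1 p.2)))
      (PT.pair (by fun_prop) (PT.pair hu hv))
  have hg2 : PT (fun p : (α × ℕ) × ℕ => g p.1.1 p.1.2 p.2) :=
    PT.comp (g := fun p : α × (ℕ × ℕ) => g p.1 p.2.1 p.2.2) hg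
      (f := fun p : (α × ℕ) × ℕ => (p.1.1, (p.1.2, p.2))) (by fun_prop)
  have h3 : PT (fun p : (α × ℕ) × ℕ => decide (τ p.1.1 p.1.2 = τ p.1.1 p.2 → p.1.2 = p.2)) := by
    have e1 : PT (fun p : (α × ℕ) × ℕ => decide (τ p.1.1 p.1.2 = τ p.1.1 p.2)) := PT.natEq hu hv
    have e2 : PT (fun p : (α × ℕ) × ℕ => decide (p.1.2 = p.2)) := by fun_prop
    refine (PT.or (PT.not e1) e2).congr fun p => ?_
    by_cases h1 : τ p.1.1 p.1.2 = τ p.1.1 p.2 <;> by_cases h2 : p.1.2 = p.2 <;> simp [h1, h2]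
  have h4 : PT (fun p : (α × ℕ) × ℕ => decide (g p.1.1 (τ p.1.1 p.1.2) (τ p.1.1 p.2) =
      g p.1.1 p.1.2 p.2) && decide (τ p.1.1 p.1.2 = τ p.1.1 p.2 → p.1.2 = p.2)) :=
    PT.and (PT.eq hg1 hg2) h3
  have h5 : PT (fun p : α × ℕ => (List.range (n p.1)).all fun v =>
      decide (g p.1 (τ p.1 p.2) (τ p.1 v) = g p.1 p.2 v) &&
        decide (τ p.1 p.2 = τ p.1 v → p.2 = v)) :=
    PT.all (l := fun p : α × ℕ => List.range (n p.1)) (g := fun p v =>
      decide (g p.1 (τ p.1 p.2) (τ p.1 v) = g p.1 p.2 v) &&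
        decide (τ p.1 p.2 = τ p.1 v → p.2 = v)) (by fun_prop) h4
  unfold ntB
  refine PT.and (PT.and
    (PT.all (l := fun a => List.range (n a)) (g := fun a u => decide (τ a u < n a))
      (by fun_prop) h1)
    (PT.any (l := fun a => List.range (n a)) (g := fun a u => decide (τ a u ≠ u))
      (by fun_prop) h2)) ?_
  exact PT.all (l := fun a => List.range (n a)) (g := fun a u => (List.range (n a)).all fun v =>
    decide (g a (τ a u) (τ a v) = g a u v) && decide (τ a u = τ a v → u = v)) (by fun_prop) h5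

theorem PT_outF {n k T : α → ℕ} {w r ans : α → List Bool} (hn : PT n) (hk : PT k) (hT : PT T)
    (hw : PT w) (hr : PT r) (ha : PT ans) :
    PT (fun a => outF (n a) (k a) (T a) (w a) (r a) (ans a)) := by
  have h4 : PT (fun a => n a ^ 4) := PT.pow hn 4
  have hc4 : PT (fun a => certF (n a) (k a) (T a) (r a) (ans a) (n a ^ 4)) :=
    PT_certF hn hk hT hr ha h4
  have hcand : PT (fun p : ((α × ℕ) × ℕ) × ℕ =>
      cand (n p.1.1.1) (certF (n p.1.1.1) (k p.1.1.1) (T p.1.1.1) (r p.1.1.1) (ans p.1.1.1))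
        p.1.1.2 p.1.2 p.2) := by
    refine PT_cand (n := fun p : ((α × ℕ) × ℕ) × ℕ => n p.1.1.1)
      (i := fun p => p.1.1.2) (j := fun p => p.1.2) (x := fun p => p.2)
      (c := fun p => certF (n p.1.1.1) (k p.1.1.1) (T p.1.1.1) (r p.1.1.1) (ans p.1.1.1))
      (by fun_prop) ?_ (by fun_prop) (by fun_prop) (by fun_prop)
    exact PT_certF (n := fun p : (((α × ℕ) × ℕ) × ℕ) × ℕ => n p.1.1.1.1)
      (k := fun p => k p.1.1.1.1) (T := fun p => T p.1.1.1.1) (r := fun p => r p.1.1.1.1)
      (ans := fun p => ans p.1.1.1.1) (v := fun p => p.2) (by fun_prop) (by fun_prop)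
      (by fun_prop) (by fun_prop) (by fun_prop) (by fun_prop)
  have hnt : PT (fun p : (α × ℕ) × ℕ => ntB (n p.1.1) (gW (w p.1.1) (n p.1.1))
      (cand (n p.1.1) (certF (n p.1.1) (k p.1.1) (T p.1.1) (r p.1.1) (ans p.1.1)) p.1.2 p.2)) := by
    refine PT_ntB (n := fun p : (α × ℕ) × ℕ => n p.1.1) (g := fun p => gW (w p.1.1) (n p.1.1))
      (τ := fun p => cand (n p.1.1) (certF (n p.1.1) (k p.1.1) (T p.1.1) (r p.1.1) (ans p.1.1))
        p.1.2 p.2) (by fun_prop) ?_ hcand
    exact PT_gW (w := fun p : ((α × ℕ) × ℕ) × (ℕ × ℕ) => w p.1.1.1) (n := fun p => n p.1.1.1)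
        (x := fun p => p.2.1) (y := fun p => p.2.2) (by fun_prop) (by fun_prop) (by fun_prop)
        (by fun_prop)
  have hj : PT (fun p : α × ℕ => (List.range (n p.1)).any fun j =>
      ntB (n p.1) (gW (w p.1) (n p.1))
        (cand (n p.1) (certF (n p.1) (k p.1) (T p.1) (r p.1) (ans p.1)) p.2 j)) :=
    PT.any (l := fun p : α × ℕ => List.range (n p.1)) (g := fun p j =>
      ntB (n p.1) (gW (w p.1) (n p.1))
        (cand (n p.1) (certF (n p.1) (k p.1) (T p.1) (r p.1) (ans p.1)) p.2 j)) (by fun_prop) hnt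
  have hi : PT (fun a => (List.range (n a)).any fun i => (List.range (n a)).any fun j =>
      ntB (n a) (gW (w a) (n a)) (cand (n a) (certF (n a) (k a) (T a) (r a) (ans a)) i j)) :=
    PT.any (l := fun a => List.range (n a)) (g := fun a i => (List.range (n a)).any fun j =>
      ntB (n a) (gW (w a) (n a)) (cand (n a) (certF (n a) (k a) (T a) (r a) (ans a)) i j))
      (by fun_prop) hj
  unfold outF
  refine PT.iteProp (c := fun a => certF (n a) (k a) (T a) (r a) (ans a) (n a ^ 4) = true)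
    (hc4.congr fun a => by simp) (PT.const _) ?_
  exact PT.iteProp (c := fun a => ((List.range (n a)).any fun i => (List.range (n a)).any fun j =>
      ntB (n a) (gW (w a) (n a)) (cand (n a) (certF (n a) (k a) (T a) (r a) (ans a)) i j)) = true)
    (hi.congr fun a => Bool.decide_eq_true.symm) (PT.const _) (PT.const _)

theorem PT_redF {n k T : α → ℕ} {w r ans : α → List Bool} (hn : PT n) (hk : PT k) (hT : PT T)
    (hw : PT w) (hr : PT r) (ha : PT ans) :
    PT (fun a => redF (n a) (k a) (T a) (w a) (r a) (ans a)) := by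
  have h4 : PT (fun a => n a ^ 4) := PT.pow hn 4
  have hval := PT_validW hw hn
  have hc : PT (fun a => decide (validW (w a) (n a) = false ∨ n a = 0)) := by
    refine PT.decOr (p := fun a => validW (w a) (n a) = false) (q := fun a => n a = 0) ?_ ?_
    · refine (PT.not hval).congr fun a => ?_
      cases validW (w a) (n a) <;> rfl
    · exact PT.natEq hn (PT.const 0)
  have hq : PT (fun a => (n a ^ 4 + 1) * (4 * (n a ^ 4 + 1))) := by fun_prop
  have hl : PT (fun a => (ans a).length) := by fun_prop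
  unfold redF
  refine PT.iteProp (c := fun a => validW (w a) (n a) = false ∨ n a = 0) hc
    (PT_inr (PT.const _)) ?_
  refine PT.iteProp (c := fun a => (ans a).length < (n a ^ 4 + 1) * (4 * (n a ^ 4 + 1)))
    (PT.lt hl hq) (PT_inl (PT_qryF hn hk hT hw hr hl)) (PT_inr (PT_outF hn hk hT hw hr ha))

theorem PT_redProc (κ : ℕ) : PT (redProc κ) := by
  have hw : PT (fun p : (List Bool × List Bool) × List Bool => p.1.1) := by fun_prop
  have hr : PT (fun p : (List Bool × List Bool) × List Bool => p.1.2) := by fun_prop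
  have ha : PT (fun p : (List Bool × List Bool) × List Bool => p.2) := by fun_prop
  have hn := PT_nW hw
  have hj := PT_jt hn
  have hk : PT (fun p : (List Bool × List Bool) × List Bool => κ * (jt (nW p.1.1)).1) :=
    PT.mul (PT.const κ) (PT.fst hj)
  have hT : PT (fun p : (List Bool × List Bool) × List Bool => (jt (nW p.1.1)).2 ^ κ) :=
    PT.pow (PT.snd hj) κ
  exact PT_redF hn hk hT hw hr ha

theorem redProc_polyTime (κ : ℕ) : PolyTimeComputable (redProc κ) := (PT_redProc κ).tm2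

end Pool.Agent.GAKT
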