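import Pool.Agent.Lib.MP_8416b9_lc.Red2
import Pool.Agent.Lib.MP_8416b9_lc.Core2

/-!
# MP_8416b9_lc: correctness of the oracle algorithm
-/

set_option autoImplicit false

namespace Pool.Agent.GAKT

/-! ### the answers of the oracle -/

open Classical in
theorem oracleLog_eq {δ : OProc} {A : Set (List Bool)} {x : List Bool × List Bool} {M : ℕ}
    {q : ℕ → List Bool} {out : List Bool → Option Bool}
    (h1 : ∀ ans : List Bool, ans.length < M → δ (x, ans) = .inl (q ans.length))
    (h2 : ∀ ans : List Bool, M ≤ ans.length → δ (x, ans) = .inr (out ans)) (t : ℕ) :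
    oracleLog δ A x t = (List.range (min t M)).map fun s => decide (q s ∈ A) := by
  induction t with
  | zero => simp [oracleLog]
  | succ t ih =>
    have hl : (oracleLog δ A x t).length = min t M := by rw [ih]; simp
    by_cases h : t < M
    · have h3 := h1 (oracleLog δ A x t) (by rw [hl]; omega)
      have h4 : oracleLog δ A x (t + 1) =
          oracleLog δ A x t ++ [decide (q (oracleLog δ A x t).length ∈ A)] := by
        show (match δ (x, oracleLog δ A x t) with
          | .inl q => oracleLog δ A x t ++ [decide (q ∈ A)]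
          | .inr _ => oracleLog δ A x t) = _
        rw [h3]
      rw [h4, hl, ih, Nat.min_eq_left h.le, Nat.min_eq_left (by omega : t + 1 ≤ M),
        List.range_succ, List.map_append]
      rfl
    · have h3 := h2 (oracleLog δ A x t) (by rw [hl]; omega)
      have h4 : oracleLog δ A x (t + 1) = oracleLog δ A x t := by
        show (match δ (x, oracleLog δ A x t) with
          | .inl q => oracleLog δ A x t ++ [decide (q ∈ A)]
          | .inr _ => oracleLog δ A x t) = _
        rw [h3]
      rw [h4, ih, Nat.min_eq_right (by omega), Nat.min_eq_right (by omega)]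

/-! ### reading the graph -/

theorem nW_eq {w : List Bool} {n : ℕ} (h : n * n = w.length) : nW w = n := by
  unfold nW
  have hn : n < w.length + 1 := by rw [← h]; nlinarith
  cases hf : (List.range (w.length + 1)).find? (fun n => decide (n * n = w.length)) with
  | none =>
    have := List.find?_eq_none.1 hf n (List.mem_range.2 hn)
    simp [h] at this
  | some x =>
    have := List.find?_some hf
    simp only [decide_eq_true_eq] at this
    show x = n
    exact Nat.mul_self_inj.1 (this.trans h.symm)

open Classical in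
theorem adjWord_eq {n : ℕ} (G : SimpleGraph (Fin n)) :
    adjWord G = (List.range n).flatMap fun u => (List.range n).map fun v =>
      decide (∃ (hu : u < n) (hv : v < n), G.Adj ⟨u, hu⟩ ⟨v, hv⟩) := by
  unfold adjWord
  rw [← List.map_coe_finRange_eq_range, List.flatMap_map]
  refine List.flatMap_congr fun i _ => ?_
  rw [List.map_map]
  refine List.map_congr_left fun j _ => ?_
  simp only [Function.comp]
  congr 1
  exact propext ⟨fun h => ⟨i.2, j.2, h⟩, fun ⟨_, _, h⟩ => h⟩

theorem length_adjWord {n : ℕ} (G : SimpleGraph (Fin n)) : (adjWord G).length = n * n := by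
  rw [adjWord_eq]
  simp

theorem gW_adjWord {n : ℕ} (G : SimpleGraph (Fin n)) {u v : ℕ} (hu : u < n) (hv : v < n) :
    gW (adjWord G) n u v = true ↔ G.Adj ⟨u, hu⟩ ⟨v, hv⟩ := by
  unfold gW
  rw [adjWord_eq, List.getD_eq_getElem?_getD, getElem?_table hu hv]
  simp [hu, hv]

theorem validW_iff {w : List Bool} {n : ℕ} : validW w n = true ↔ n * n = w.length ∧
    (∀ u < n, gW w n u u = false) ∧ ∀ u < n, ∀ v < n, gW w n u v = gW w n v u := by
  unfold validW
  simp only [Bool.and_eq_true, decide_eq_true_eq, List.all_eq_true, List.mem_range,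
    Bool.not_eq_true', and_assoc]

theorem mem_GA_iff {w : List Bool} : w ∈ GA ↔ validW w (nW w) = true ∧
    ∃ τ, GAutOn (nW w) (gW w (nW w)) τ ∧ ∃ v < nW w, τ v ≠ v := by
  constructor
  · rintro ⟨n, G, rfl, σ, i, hi⟩
    have hn : nW (adjWord G) = n := nW_eq (length_adjWord G).symm
    rw [hn]
    have hg : ∀ u v (hu : u < n) (hv : v < n),
        (gW (adjWord G) n u v = true ↔ G.Adj ⟨u, hu⟩ ⟨v, hv⟩) := fun u v hu hv =>
      gW_adjWord G hu hv
    refine ⟨validW_iff.2 ⟨(length_adjWord G).symm, fun u hu => ?_, fun u hu v hv => ?_⟩, ?_⟩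
    · rw [← Bool.not_eq_true, hg u u hu hu]
      exact G.loopless.irrefl _
    · rw [Bool.eq_iff_iff, hg u v hu hv, hg v u hv hu]
      exact G.adj_comm _ _
    · refine ⟨fun u => if h : u < n then (σ ⟨u, h⟩ : ℕ) else u, ⟨⟨fun u hu => ?_,
        fun u hu v hv huv => ?_⟩, fun u hu v hv => ?_⟩, i, i.2, ?_⟩
      · simp only [hu, dif_pos]
        exact (σ ⟨u, hu⟩).2
      · simp only [hu, hv, dif_pos] at huv
        have := σ.injective (Fin.ext huv)
        simpa using this
      · simp only [hu, hv, dif_pos]
        rw [Bool.eq_iff_iff, hg _ _ (σ ⟨u, hu⟩).2 (σ ⟨v, hv⟩).2, hg u v hu hv]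
        exact σ.map_rel_iff
      · simp only [i.2, dif_pos]
        intro h
        exact hi (Fin.ext h)
  · rintro ⟨hv, τ, ⟨⟨ht1, ht2⟩, hτ⟩, i, hi, hm⟩
    obtain ⟨h1, h2, h3⟩ := validW_iff.1 hv
    set n := nW w with hn
    let G : SimpleGraph (Fin n) :=
      { Adj := fun u v => gW w n u v = true
        symm := ⟨fun u v h => by
          have h' : gW w n u v = true := h
          show gW w n v u = true
          rw [← h3 u u.2 v v.2, h']⟩
        loopless := ⟨fun u h => by
          have h' : gW w n u u = true := h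
          rw [h2 u u.2] at h'
          exact absurd h' (by simp)⟩ }
    have hinj : Function.Injective fun u : Fin n => (⟨τ u, ht1 u u.2⟩ : Fin n) := fun u v huv =>
      Fin.ext (ht2 u u.2 v v.2 (Fin.mk.inj huv))
    let e : Fin n ≃ Fin n := Equiv.ofBijective _ (Finite.injective_iff_bijective.1 hinj)
    refine ⟨n, G, ?_, ⟨e, fun {u v} => ?_⟩, ⟨i, hi⟩, fun h => hm (Fin.mk.inj h)⟩
    · apply List.ext_getElem?
      intro t
      by_cases ht : t < n * n
      · have hn0 : 0 < n := by
          rcases Nat.eq_zero_or_pos n with h0 | h0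
          · rw [h0] at ht; simp at ht
          · exact h0
        have hu : t / n < n := Nat.div_lt_of_lt_mul ht
        have hv : t % n < n := Nat.mod_lt _ hn0
        have e1 : t / n * n + t % n = t := Nat.div_add_mod' t n
        have e2 := gW_adjWord G hu hv
        have e3 : G.Adj ⟨t / n, hu⟩ ⟨t % n, hv⟩ ↔ gW w n (t / n) (t % n) = true := Iff.rfl
        rw [e3, ← Bool.eq_iff_iff] at e2
        unfold gW at e2
        rw [e1, List.getD_eq_getElem?_getD, List.getD_eq_getElem?_getD] at e2
        have l1 : t < w.length := by omega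
        have l2 : t < (adjWord G).length := by rw [length_adjWord]; exact ht
        rw [List.getElem?_eq_getElem l1, List.getElem?_eq_getElem l2] at e2 ⊢
        simp only [Option.getD_some] at e2
        rw [e2]
      · rw [List.getElem?_eq_none (by omega), List.getElem?_eq_none (by rw [length_adjWord]; omega)]
    · show gW w n (τ u) (τ v) = true ↔ gW w n u v = true
      rw [hτ u u.2 v v.2]

/-! ### the output as a function of the certificates -/

/-- the output computed from the certificates -/
def outC (n : ℕ) (g : ℕ → ℕ → Bool) (c : ℕ → Bool) : Option Bool :=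
  if c (n ^ 4) = true then some false
  else if ((List.range n).any fun i => (List.range n).any fun j =>
    ntB n g (cand n c i j)) = true then some true
  else none

theorem outF_eq (n k T : ℕ) (w r ans : List Bool) :
    outF n k T w r ans = outC n (gW w n) (certF n k T r ans) := rfl

theorem sOf_main (n : ℕ) (g : ℕ → ℕ → Bool) : sOf n g (n ^ 4) = sM n g := by
  funext a b
  unfold sOf
  rw [if_pos rfl]

theorem idx4_lt {n i j x l : ℕ} (hi : i < n) (hj : j < n) (hx : x < n) (hl : l < n) :
    ((i * n + j) * n + x) * n + l < n ^ 4 := by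
  have h1 : i * n + j < n * n := by nlinarith
  have h2 : (i * n + j) * n + x < n * n * n := by nlinarith
  have h3 : ((i * n + j) * n + x) * n + l < n * n * n * n := by nlinarith
  calc _ < n * n * n * n := h3
    _ = n ^ 4 := by ring

theorem sOf_idx {n i j x l : ℕ} (g : ℕ → ℕ → Bool) (hi : i < n) (hj : j < n) (hx : x < n)
    (hl : l < n) : sOf n g (((i * n + j) * n + x) * n + l) = sX n g i j x l := by
  have hn : 0 < n := by omega
  have e0 : ∀ a b : ℕ, b < n → (a * n + b) / n = a := fun a b hb => by
    rw [Nat.add_comm, Nat.add_mul_div_right _ _ hn, Nat.div_eq_of_lt hb, Nat.zero_add]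
  have e0' : ∀ a b : ℕ, b < n → (a * n + b) % n = b := fun a b hb => by
    rw [Nat.add_comm, Nat.add_mul_mod_self_right, Nat.mod_eq_of_lt hb]
  have e1 : (((i * n + j) * n + x) * n + l) / n = (i * n + j) * n + x := e0 _ _ hl
  have e2 : (((i * n + j) * n + x) * n + l) / (n * n) = i * n + j := by
    rw [← Nat.div_div_eq_div_mul, e1, e0 _ _ hx]
  have e3 : (((i * n + j) * n + x) * n + l) / (n * n * n) = i := by
    rw [← Nat.div_div_eq_div_mul, e2, e0 _ _ hj]
  funext a b
  unfold sOf
  rw [if_neg (idx4_lt hi hj hx hl).ne, e1, e2, e3, e0' _ _ hl, e0' _ _ hx, e0' _ _ hj]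

theorem ntB_iff {n : ℕ} {g : ℕ → ℕ → Bool} {τ : ℕ → ℕ} : ntB n g τ = true ↔
    GAutOn n g τ ∧ ∃ v < n, τ v ≠ v := by
  unfold ntB GAutOn PermOn
  simp only [Bool.and_eq_true, List.all_eq_true, List.any_eq_true, List.mem_range,
    decide_eq_true_eq]
  constructor
  · rintro ⟨⟨h1, v, hv, hm⟩, h2⟩
    exact ⟨⟨⟨h1, fun i hi j hj => (h2 i hi j hj).2⟩, fun i hi j hj => (h2 i hi j hj).1⟩,
      v, hv, hm⟩
  · rintro ⟨⟨⟨h1, h2⟩, h3⟩, v, hv, hm⟩
    exact ⟨⟨h1, v, hv, hm⟩, fun i hi j hj => ⟨h3 i hi j hj, h2 i hi j hj⟩⟩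

theorem outC_sound (hs : SearchStatement) {n : ℕ} {g : ℕ → ℕ → Bool} {c : ℕ → Bool} (hn : 1 ≤ n)
    (hg : ∀ u < n, g u u = false)
    (hc : ∀ v < n ^ 4 + 1, c v = true → RigidOn (2 * n) (sOf n g v)) {b : Bool}
    (hb : outC n g c = some b) : b = true ↔ ∃ τ, GAutOn n g τ ∧ ∃ v < n, τ v ≠ v := by
  unfold outC at hb
  split at hb
  · rename_i h
    have h1 := hc _ (by omega) h
    rw [sOf_main, (hs n g hn hg).2.2.1] at h1
    have : b = false := by simpa using hb.symm
    subst this
    constructor
    · intro h2; exact absurd h2 (by simp)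
    · rintro ⟨τ, h2, v, hv, h3⟩
      exact absurd (h1 τ h2 v hv) h3
  · split at hb
    · rename_i h
      have : b = true := by simpa using hb.symm
      subst this
      simp only [true_iff]
      simp only [List.any_eq_true, List.mem_range] at h
      obtain ⟨i, _, j, _, h2⟩ := h
      exact ⟨_, ntB_iff.1 h2⟩
    · exact absurd hb (by simp)

theorem outC_complete (hs : SearchStatement) {n : ℕ} {g : ℕ → ℕ → Bool} {c : ℕ → Bool}
    (hn : 1 ≤ n) (hg : ∀ u < n, g u u = false)
    (hc : ∀ v < n ^ 4 + 1, (c v = true ↔ RigidOn (2 * n) (sOf n g v))) :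
    outC n g c ≠ none := by
  obtain ⟨_, _, s1, s2⟩ := hs n g hn hg
  unfold outC
  split
  · simp
  · rename_i h
    rw [hc _ (by omega), sOf_main, s1] at h
    push Not at h
    obtain ⟨τ₀, h1, v₀, hv₀, h2⟩ := h
    obtain ⟨i, hi, j, hj, τ, hτ, hmv, hkl⟩ := s2 ⟨τ₀, h1, v₀, hv₀, h2⟩
    have hcand : ∀ x < n, cand n c i j x = τ x := by
      intro x hx
      have h3 : ∀ l < n, (c (((i * n + j) * n + x) * n + l) = false ↔ l = τ x) := by
        intro l hl
        rw [← Bool.not_eq_true, hc _ (by have := idx4_lt hi hj hx hl; omega), sOf_idx g hi hj hx hl,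
          hkl x hx l hl]
      unfold cand
      have h4 : (List.range n).find? (fun l => !(c (((i * n + j) * n + x) * n + l))) =
          some (τ x) := by
        cases hf : (List.range n).find? (fun l => !(c (((i * n + j) * n + x) * n + l))) with
        | none =>
          have h5 := List.find?_eq_none.1 hf (τ x) (List.mem_range.2 (hτ.1.1 x hx))
          rw [(h3 _ (hτ.1.1 x hx)).2 rfl] at h5
          simp at h5
        | some y =>
          have h5 := List.find?_some hf
          have h6 := List.mem_range.1 (List.mem_of_find?_eq_some hf)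
          simp only [Bool.not_eq_true'] at h5
          rw [(h3 y h6).1 h5]
      rw [h4]
      rfl
    have hnt : ntB n g (cand n c i j) = true := by
      rw [ntB_iff]
      refine ⟨⟨⟨fun u hu => ?_, fun u hu v hv => ?_⟩, fun u hu v hv => ?_⟩, ?_⟩
      · rw [hcand u hu]; exact hτ.1.1 u hu
      · rw [hcand u hu, hcand v hv]; exact hτ.1.2 u hu v hv
      · rw [hcand u hu, hcand v hv]; exact hτ.2 u hu v hv
      · obtain ⟨v, hv, h5⟩ := hmv
        exact ⟨v, hv, by rw [hcand v hv]; exact h5⟩
    rw [if_pos]
    · simp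
    · simp only [List.any_eq_true, List.mem_range]
      exact ⟨i, hi, j, hj, hnt⟩

/-! ### the certificates -/

open Classical in
/-- all the answers -/
noncomputable def allAns (A : Set (List Bool)) (n k T : ℕ) (w r : List Bool) : List Bool :=
  (List.range ((n ^ 4 + 1) * (4 * (n ^ 4 + 1)))).map fun s => decide (qryF n k T w r s ∈ A)

theorem slot_lt {Q R v u : ℕ} (hv : v < Q) (hu : u < R) : v * R + u < Q * R := by
  have : (v + 1) * R ≤ Q * R := Nat.mul_le_mul_right _ hv
  nlinarith

theorem certF_iff {A : Set (List Bool)} {n k : ℕ} {w r : List Bool} {v : ℕ}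
    (hv : v < n ^ 4 + 1) : certF n k (2 ^ k) r (allAns A n k (2 ^ k) w r) v = true ↔
      ∃ u < 4 * (n ^ 4 + 1),
        goodCoins (2 * n) k (slc r (coinN (2 * n) k) (v * (4 * (n ^ 4 + 1)) + u)) = true ∧
        testStr (2 * n) k (sOf n (gW w n) v)
          (slc r (coinN (2 * n) k) (v * (4 * (n ^ 4 + 1)) + u)) ∈ A := by
  unfold certF
  simp only [List.any_eq_true, List.mem_range, Bool.and_eq_true]
  refine exists_congr fun u => and_congr_right fun hu => ?_
  have h1 : (allAns A n k (2 ^ k) w r).getD (v * (4 * (n ^ 4 + 1)) + u) false = true ↔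
      qryF n k (2 ^ k) w r (v * (4 * (n ^ 4 + 1)) + u) ∈ A := by
    unfold allAns
    rw [List.getD_eq_getElem?_getD, List.getElem?_map, List.getElem?_range (slot_lt hv hu)]
    simp
  have h2 : (v * (4 * (n ^ 4 + 1)) + u) / (4 * (n ^ 4 + 1)) = v := by
    rw [Nat.add_comm, Nat.add_mul_div_right _ _ (by omega), Nat.div_eq_of_lt hu, Nat.zero_add]
  have h3 : qryF n k (2 ^ k) w r (v * (4 * (n ^ 4 + 1)) + u) =
      testStr (2 * n) k (sOf n (gW w n) v)
        (slc r (coinN (2 * n) k) (v * (4 * (n ^ 4 + 1)) + u)) := by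
    unfold qryF
    rw [h2, fullStrT_eq, coinT_eq]
  rw [h1, h3, goodT_eq, coinT_eq]
  exact and_comm

theorem length_slc {r : List Bool} {L Q R v u : ℕ} (hr : Q * R * L ≤ r.length) (hv : v < Q)
    (hu : u < R) : (slc r L (v * R + u)).length = L := by
  unfold slc
  rw [List.length_take, List.length_drop]
  have h1 : (v * R + u + 1) * L ≤ Q * R * L := Nat.mul_le_mul_right _ (slot_lt hv hu)
  have h2 : (v * R + u + 1) * L = (v * R + u) * L + L := by ring
  omega

theorem entOn_sOf (hs : SearchStatement) {n : ℕ} {g : ℕ → ℕ → Bool} (hn : 1 ≤ n)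
    (hg : ∀ u < n, g u u = false) (v : ℕ) : EntOn (2 * n) (cN (2 * n)) (sOf n g v) := by
  obtain ⟨s1, s2, _⟩ := hs n g hn hg
  intro a ha b hb
  unfold sOf
  split
  · exact s1 a ha b hb
  · exact s2 _ _ _ _ a ha b hb

/-! ### the theorem -/

open Classical in
theorem red_main (U : UMachine) (hmach : MachStatement) (hcompl : ComplStatement)
    (hcount : CountStatement) (hsearch : SearchStatement) (hamp : AmpStatement)
    (hparam : ParamStatement) (hsize : SizeStatement) : InZPP (RKT U) GA := by
  obtain ⟨e, he⟩ := hmach U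
  obtain ⟨κ, hκ1, hκ⟩ := hparam e
  obtain ⟨c, hc⟩ := hsize κ
  refine ⟨redProc κ, c, redProc_polyTime κ, fun w => ?_⟩
  set n := nW w with hn
  by_cases hval : validW w n = false ∨ n = 0
  · -- not a graph, or no vertex
    have hd : ∀ r ans : List Bool, redProc κ ((w, r), ans) = .inr (some false) := by
      intro r ans
      unfold redProc redF
      simp only [← hn]
      rw [if_pos hval]
    constructor
    · intro r _
      refine ⟨some false, hd _ _, fun b hb => ?_⟩
      have : b = false := by simpa using hb.symm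
      subst this
      constructor
      · intro h; exact absurd h (by simp)
      · intro h
        obtain ⟨h1, τ, h2, v, hv, h3⟩ := mem_GA_iff.1 h
        rcases hval with h4 | h4
        · rw [← hn, h4] at h1; exact absurd h1 (by simp)
        · rw [← hn, h4] at hv; exact absurd hv (by omega)
    · have : {r : Fin ((w.length + 2) ^ c) → Bool |
        redProc κ ((w, List.ofFn r), oracleLog (redProc κ) (RKT U) (w, List.ofFn r)
          ((w.length + 2) ^ c)) = .inr none} = ∅ := by
        ext r
        simp only [Set.mem_ofPred_eq, Set.mem_empty_iff_false, iff_false]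
        rw [hd]
        simp
      rw [this]
      simp
  · push Not at hval
    obtain ⟨hval, hn0⟩ := hval
    replace hval : validW w n = true := by simpa using hval
    have hn1 : 1 ≤ n := by omega
    obtain ⟨v1, v2, v3⟩ := validW_iff.1 hval
    set k := κ * (jt n).1 with hk
    have hT : (jt n).2 ^ κ = 2 ^ k := by rw [jt_pow, ← pow_mul, hk, Nat.mul_comm]
    set L := coinN (2 * n) k with hL
    obtain ⟨hp1, hp2⟩ := hκ n (jt n).1 hn1 (le_jt n)
    have hk1 : 1 ≤ k := by
      have h1 : 1 ≤ (jt n).1 := by
        by_contra h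
        have h2 : (jt n).1 = 0 := by omega
        have h3 := le_jt n
        rw [h2] at h3
        simp at h3
      exact Nat.mul_le_mul hκ1 h1
    have hsz := hc n (jt n).1 hn1 (jt_le n)
    rw [v1, ← hk, ← hL] at hsz
    set N := (w.length + 2) ^ c with hN
    have hN1 : (n ^ 4 + 1) * (4 * (n ^ 4 + 1)) * L ≤ N := by
      refine le_trans ?_ hsz
      exact Nat.mul_le_mul_left _ (by omega)
    have hN2 : (n ^ 4 + 1) * (4 * (n ^ 4 + 1)) ≤ N := by
      refine le_trans ?_ hsz
      exact Nat.le_mul_of_pos_right _ (by omega)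
    -- the run of the algorithm
    have hrun : ∀ r : List Bool,
        redProc κ ((w, r), oracleLog (redProc κ) (RKT U) (w, r) N) =
          .inr (outC n (gW w n) (certF n k (2 ^ k) r (allAns (RKT U) n k (2 ^ k) w r))) := by
      intro r
      have hnv : ¬ (validW w n = false ∨ n = 0) := by
        rw [hval]; simp [hn0]
      have h1 : ∀ ans : List Bool, ans.length < (n ^ 4 + 1) * (4 * (n ^ 4 + 1)) →
          redProc κ ((w, r), ans) = .inl (qryF n k (2 ^ k) w r ans.length) := by
        intro ans ha
        unfold redProc redF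
        simp only [← hn]
        rw [if_neg hnv, if_pos ha, hT]
      have h2 : ∀ ans : List Bool, (n ^ 4 + 1) * (4 * (n ^ 4 + 1)) ≤ ans.length →
          redProc κ ((w, r), ans) = .inr (outF n k (2 ^ k) w r ans) := by
        intro ans ha
        unfold redProc redF
        simp only [← hn]
        rw [if_neg hnv, if_neg (not_lt.2 ha), hT]
      have h3 := oracleLog_eq (A := RKT U) (q := fun t => qryF n k (2 ^ k) w r t) h1 h2 N
      rw [Nat.min_eq_right hN2] at h3
      rw [h3, h2 _ (by simp), outF_eq]
      rfl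
    -- certificates are sound
    have hsound : ∀ r : List Bool, r.length = N → ∀ v < n ^ 4 + 1,
        certF n k (2 ^ k) r (allAns (RKT U) n k (2 ^ k) w r) v = true →
          RigidOn (2 * n) (sOf n (gW w n) v) := by
      intro r hr v hv hcert
      obtain ⟨u, hu, h1, h2⟩ := (certF_iff hv).1 hcert
      by_contra hnr
      exact he (2 * n) k (sOf n (gW w n) v) _ (by omega) hk1 hp1 (entOn_sOf hsearch hn1 v2 v) hnr
        (length_slc (by rw [hr]; exact hN1) hv hu) h1 h2
    have hGA : w ∈ GA ↔ ∃ τ, GAutOn n (gW w n) τ ∧ ∃ v < n, τ v ≠ v := by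
      rw [mem_GA_iff, ← hn]
      exact and_iff_right hval
    constructor
    · intro r hr
      refine ⟨_, hrun r, fun b hb => ?_⟩
      rw [hGA]
      exact outC_sound hsearch hn1 v2 (hsound r hr) hb
    · -- completeness
      have hamp' := hamp (n ^ 4 + 1) L N
        (fun v s => ¬ (goodCoins (2 * n) k s = true ∧
          testStr (2 * n) k (sOf n (gW w n) v) s ∈ RKT U))
        {v | v < n ^ 4 + 1 ∧ RigidOn (2 * n) (sOf n (gW w n) v)} (by omega) hN1
        (fun v hv => ⟨hv.1, hcompl (2 * n) k (sOf n (gW w n) v) (RKT U) (by omega) hk1 hp2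
          (entOn_sOf hsearch hn1 v2 v) hv.2 (hcount U)⟩)
      refine le_trans (Nat.mul_le_mul_left 2 (Set.ncard_le_ncard ?_ (Set.toFinite _))) hamp'
      intro r hr
      simp only [Set.mem_ofPred_eq] at hr
      rw [hrun] at hr
      have hr' := Sum.inr.inj hr
      by_contra hcon
      simp only [Set.mem_ofPred_eq, not_exists, not_and, not_forall, Classical.not_not] at hcon
      refine outC_complete hsearch hn1 v2 (fun v hv => ⟨hsound _ (by simp) v hv, fun hrig => ?_⟩) hr'
      rw [certF_iff hv]
      obtain ⟨u, hu, h1⟩ := hcon v ⟨hv, hrig⟩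
      obtain ⟨h2, h3⟩ := h1
      exact ⟨u, hu, h2, h3⟩

end Pool.Agent.GAKT
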