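import Pool.Agent.Lib.MP_8416b9_lc.Core

/-!
# MP_8416b9_lc: the structures of the search
-/

set_option autoImplicit false

namespace Pool.Agent.GAKT

namespace Search

/-! ### permutations and automorphisms -/

theorem permOn_inv {n : ℕ} {τ : ℕ → ℕ} (h : PermOn n τ) :
    ∃ τ' : ℕ → ℕ, PermOn n τ' ∧ (∀ v < n, τ' (τ v) = v) ∧ ∀ v < n, τ (τ' v) = v := by
  let f : Fin n → Fin n := fun v => ⟨τ v, h.1 v v.2⟩
  have hf : Function.Injective f := by
    intro u v huv
    have : τ u = τ v := congrArg Fin.val huv
    exact Fin.ext (h.2 u u.2 v v.2 this)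
  have hb : Function.Bijective f := Finite.injective_iff_bijective.mp hf
  let e : Fin n ≃ Fin n := Equiv.ofBijective f hb
  have hL : ∀ (v : ℕ) (hv : v < n), ((e.symm ⟨τ v, h.1 v hv⟩ : Fin n) : ℕ) = v := by
    intro v hv
    have : e.symm (e ⟨v, hv⟩) = ⟨v, hv⟩ := e.symm_apply_apply _
    exact congrArg Fin.val this
  have hR : ∀ (v : ℕ) (hv : v < n), τ ((e.symm ⟨v, hv⟩ : Fin n) : ℕ) = v := by
    intro v hv
    have : e (e.symm ⟨v, hv⟩) = ⟨v, hv⟩ := e.apply_symm_apply _
    exact congrArg Fin.val this
  refine ⟨fun v => if hv : v < n then ((e.symm ⟨v, hv⟩ : Fin n) : ℕ) else v, ⟨?_, ?_⟩, ?_, ?_⟩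
  · intro i hi
    simp only [hi, dif_pos]
    exact (e.symm ⟨i, hi⟩).2
  · intro i hi j hj hij
    simp only [hi, hj, dif_pos] at hij
    have := e.symm.injective (Fin.ext hij)
    exact congrArg Fin.val this
  · intro v hv
    simp only [h.1 v hv, dif_pos]
    exact hL v hv
  · intro v hv
    simp only [hv, dif_pos]
    exact hR v hv

theorem permOn_comp {n : ℕ} {σ τ : ℕ → ℕ} (h : PermOn n σ) (h' : PermOn n τ) :
    PermOn n (fun v => σ (τ v)) :=
  ⟨fun i hi => h.1 _ (h'.1 i hi), fun i hi j hj hij =>
    h'.2 i hi j hj (h.2 _ (h'.1 i hi) _ (h'.1 j hj) hij)⟩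

theorem gAut_comp {n : ℕ} {g : ℕ → ℕ → Bool} {σ τ : ℕ → ℕ} (h : GAutOn n g σ)
    (h' : GAutOn n g τ) : GAutOn n g (fun v => σ (τ v)) :=
  ⟨permOn_comp h.1 h'.1, fun u hu v hv =>
    (h.2 _ (h'.1.1 u hu) _ (h'.1.1 v hv)).trans (h'.2 u hu v hv)⟩

theorem gAut_inv {n : ℕ} {g : ℕ → ℕ → Bool} {τ : ℕ → ℕ} (h : GAutOn n g τ) :
    ∃ τ' : ℕ → ℕ, GAutOn n g τ' ∧ (∀ v < n, τ' (τ v) = v) ∧ ∀ v < n, τ (τ' v) = v := by
  obtain ⟨τ', hp, h1, h2⟩ := permOn_inv h.1
  refine ⟨τ', ⟨hp, ?_⟩, h1, h2⟩
  intro u hu v hv
  rw [← h.2 _ (hp.1 u hu) _ (hp.1 v hv), h2 u hu, h2 v hv]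

/-! ### the general doubled structure -/

theorem oneHot_length (N c : ℕ) : (oneHot N c).length = N := by simp [oneHot]

theorem oneHot_inj {N c c' : ℕ} (hc : c < N) (h : oneHot N c = oneHot N c') : c = c' := by
  have h1 : (oneHot N c)[c]? = (oneHot N c')[c]? := by rw [h]
  simp [oneHot, hc] at h1
  exact h1

/-- two copies of the graph with colours `D` on the diagonal -/
def gX (n : ℕ) (g : ℕ → ℕ → Bool) (D : ℕ → ℕ) (u v : ℕ) : List Bool :=
  if u = v then oneHot (2 * n + 5) (D u)
  else if (u < n) ↔ (v < n) then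
    (if g (u % n) (v % n) then oneHot (2 * n + 5) 1 else oneHot (2 * n + 5) 0)
  else oneHot (2 * n + 5) 2

theorem gX_length (n : ℕ) (g : ℕ → ℕ → Bool) (D : ℕ → ℕ) (u v : ℕ) :
    (gX n g D u v).length = 2 * n + 5 := by
  unfold gX
  split_ifs <;> exact oneHot_length _ _

/-- the diagonal of `sX` -/
def dX (n i j k l u : ℕ) : ℕ :=
  if u < n then 3 + 2 * markL n i u + (if u = k then 1 else 0)
  else 3 + 2 * markR n i j (u - n) + (if u - n = l then 1 else 0)

/-- the diagonal of `sM` -/
def dM (n u : ℕ) : ℕ := if u < n then 3 else 4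

theorem sX_eq (n : ℕ) (g : ℕ → ℕ → Bool) (i j k l : ℕ) : sX n g i j k l = gX n g (dX n i j k l) := by
  funext u v
  unfold sX gX dX
  by_cases h : u = v
  · subst h
    by_cases h2 : u < n
    · simp [h2]
    · simp [h2]
  · simp [h]

theorem sM_eq (n : ℕ) (g : ℕ → ℕ → Bool) : sM n g = gX n g (dM n) := by
  funext u v
  unfold sM gX dM
  by_cases h : u = v
  · subst h
    by_cases h2 : u < n
    · simp [h2]
    · simp [h2]
  · simp [h]

theorem aut_gX {n : ℕ} {g : ℕ → ℕ → Bool} {D : ℕ → ℕ} (hD : ∀ u < 2 * n, D u < 2 * n + 5)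
    {σ : ℕ → ℕ} (hσ : PermOn (2 * n) σ) :
    AutOn (2 * n) (gX n g D) σ ↔ (∀ u < 2 * n, D (σ u) = D u) ∧
      (∀ u < 2 * n, ∀ v < 2 * n, u ≠ v → ((σ u < n ↔ σ v < n) ↔ (u < n ↔ v < n))) ∧
      (∀ u < 2 * n, ∀ v < 2 * n, u ≠ v → (u < n ↔ v < n) →
        g (σ u % n) (σ v % n) = g (u % n) (v % n)) := by
  constructor
  · rintro ⟨_, h⟩
    refine ⟨?_, ?_, ?_⟩
    · intro u hu
      have := h u hu u hu
      unfold gX at this
      simp only [if_true] at this
      exact oneHot_inj (hD _ (hσ.1 u hu)) this
    · intro u hu v hv huv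
      have h1 := h u hu v hv
      have h2 : σ u ≠ σ v := fun he => huv (hσ.2 u hu v hv he)
      unfold gX at h1
      rw [if_neg huv, if_neg h2] at h1
      by_cases ha : (σ u < n ↔ σ v < n)
      · by_cases hb : (u < n ↔ v < n)
        · exact iff_of_true ha hb
        · exfalso
          rw [if_pos ha, if_neg hb] at h1
          split_ifs at h1
          · exact absurd (oneHot_inj (by omega) h1) (by omega)
          · exact absurd (oneHot_inj (by omega) h1) (by omega)
      · by_cases hb : (u < n ↔ v < n)
        · exfalso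
          rw [if_neg ha, if_pos hb] at h1
          split_ifs at h1
          · exact absurd (oneHot_inj (by omega) h1) (by omega)
          · exact absurd (oneHot_inj (by omega) h1) (by omega)
        · exact iff_of_false ha hb
    · intro u hu v hv huv hs
      have h1 := h u hu v hv
      have h2 : σ u ≠ σ v := fun he => huv (hσ.2 u hu v hv he)
      unfold gX at h1
      rw [if_neg huv, if_neg h2, if_pos hs] at h1
      by_cases ha : (σ u < n ↔ σ v < n)
      · rw [if_pos ha] at h1
        cases e1 : g (σ u % n) (σ v % n) <;> cases e2 : g (u % n) (v % n)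
        · rfl
        · exfalso
          rw [e1, e2] at h1
          simp only [Bool.false_eq_true, if_false, if_true] at h1
          exact absurd (oneHot_inj (by omega) h1) (by omega)
        · exfalso
          rw [e1, e2] at h1
          simp only [Bool.false_eq_true, if_false, if_true] at h1
          exact absurd (oneHot_inj (by omega) h1) (by omega)
        · rfl
      · exfalso
        rw [if_neg ha] at h1
        split_ifs at h1
        · exact absurd (oneHot_inj (by omega) h1) (by omega)
        · exact absurd (oneHot_inj (by omega) h1) (by omega)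
  · rintro ⟨h1, h2, h3⟩
    refine ⟨hσ, ?_⟩
    intro u hu v hv
    by_cases huv : u = v
    · subst huv
      unfold gX
      simp only [if_true]
      rw [h1 u hu]
    · have hne : σ u ≠ σ v := fun he => huv (hσ.2 u hu v hv he)
      unfold gX
      rw [if_neg huv, if_neg hne]
      by_cases hs : (u < n ↔ v < n)
      · rw [if_pos hs, if_pos ((h2 u hu v hv huv).2 hs), h3 u hu v hv huv hs]
      · rw [if_neg hs, if_neg (fun h => hs ((h2 u hu v hv huv).1 h))]

/-- an automorphism preserves or swaps the sides -/
theorem sides {n : ℕ} {σ : ℕ → ℕ} (hn : 1 ≤ n)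
    (h : ∀ u < 2 * n, ∀ v < 2 * n, u ≠ v → ((σ u < n ↔ σ v < n) ↔ (u < n ↔ v < n))) :
    (∀ v < 2 * n, (σ v < n ↔ v < n)) ∨ (∀ v < 2 * n, (σ v < n ↔ ¬ v < n)) := by
  have h0 : ∀ v < 2 * n, v ≠ 0 → ((σ 0 < n ↔ σ v < n) ↔ v < n) := by
    intro v hv hv0
    have := h 0 (by omega) v hv (Ne.symm hv0)
    rw [this]
    constructor
    · intro hh; exact hh.1 (by omega)
    · intro hh; exact ⟨fun _ => hh, fun _ => by omega⟩
  by_cases hc : σ 0 < n
  · left
    intro v hv
    by_cases hv0 : v = 0
    · subst hv0; exact iff_of_true hc (by omega)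
    · have := h0 v hv hv0
      simp only [hc, true_iff] at this
      exact this
  · right
    intro v hv
    by_cases hv0 : v = 0
    · subst hv0; exact iff_of_false hc (by omega)
    · have := h0 v hv hv0
      simp only [hc, false_iff] at this
      constructor
      · intro h1 h2; exact (this.2 h2) h1
      · intro h1
        by_contra h2
        exact h1 (this.1 h2)

/-- the restriction to the left side when the sides are preserved -/
theorem left_aut {n : ℕ} {g : ℕ → ℕ → Bool} {σ : ℕ → ℕ} (hσ : PermOn (2 * n) σ)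
    (hg : ∀ u < n, g u u = false)
    (hs : ∀ v < 2 * n, (σ v < n ↔ v < n))
    (h3 : ∀ u < 2 * n, ∀ v < 2 * n, u ≠ v → (u < n ↔ v < n) →
        g (σ u % n) (σ v % n) = g (u % n) (v % n)) : GAutOn n g σ := by
  refine ⟨⟨fun i hi => (hs i (by omega)).2 hi, fun i hi j hj => hσ.2 i (by omega) j (by omega)⟩, ?_⟩
  intro u hu v hv
  by_cases huv : u = v
  · subst huv
    rw [hg u hu, hg _ ((hs u (by omega)).2 hu)]
  · have := h3 u (by omega) v (by omega) huv (iff_of_true hu hv)
    rwa [Nat.mod_eq_of_lt ((hs u (by omega)).2 hu), Nat.mod_eq_of_lt ((hs v (by omega)).2 hv),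
      Nat.mod_eq_of_lt hu, Nat.mod_eq_of_lt hv] at this

theorem right_aut {n : ℕ} {g : ℕ → ℕ → Bool} {σ : ℕ → ℕ} (hσ : PermOn (2 * n) σ)
    (hg : ∀ u < n, g u u = false)
    (hs : ∀ v < 2 * n, (σ v < n ↔ v < n))
    (h3 : ∀ u < 2 * n, ∀ v < 2 * n, u ≠ v → (u < n ↔ v < n) →
        g (σ u % n) (σ v % n) = g (u % n) (v % n)) : GAutOn n g (fun a => σ (n + a) - n) := by
  have hr : ∀ a < n, n ≤ σ (n + a) ∧ σ (n + a) < 2 * n := by
    intro a ha
    have h1 := hs (n + a) (by omega)
    have h2 := hσ.1 (n + a) (by omega)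
    exact ⟨by by_contra hc; exact absurd (h1.1 (by omega)) (by omega), h2⟩
  refine ⟨⟨fun i hi => ?_, fun i hi j hj hij => ?_⟩, ?_⟩
  · have := hr i hi
    show σ (n + i) - n < n
    omega
  · have h1 := hr i hi
    have h2 := hr j hj
    have h4 := hσ.2 (n + i) (by omega) (n + j) (by omega) (by
      have : σ (n + i) - n = σ (n + j) - n := hij
      omega)
    omega
  intro u hu v hv
  have h1 := hr u hu
  have h2 := hr v hv
  show g (σ (n + u) - n) (σ (n + v) - n) = g u v
  by_cases huv : u = v
  · subst huv
    rw [hg u hu, hg _ (by omega)]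
  · have := h3 (n + u) (by omega) (n + v) (by omega) (by omega) (iff_of_false (by omega) (by omega))
    have e1 : σ (n + u) % n = σ (n + u) - n := by
      rw [Nat.mod_eq_sub_mod h1.1, Nat.mod_eq_of_lt (by omega)]
    have e2 : σ (n + v) % n = σ (n + v) - n := by
      rw [Nat.mod_eq_sub_mod h2.1, Nat.mod_eq_of_lt (by omega)]
    rwa [e1, e2, Nat.add_mod_left, Nat.add_mod_left, Nat.mod_eq_of_lt hu, Nat.mod_eq_of_lt hv]
      at this

theorem swap_aut {n : ℕ} {g : ℕ → ℕ → Bool} {σ : ℕ → ℕ} (hσ : PermOn (2 * n) σ)
    (hg : ∀ u < n, g u u = false)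
    (hs : ∀ v < 2 * n, (σ v < n ↔ ¬ v < n))
    (h3 : ∀ u < 2 * n, ∀ v < 2 * n, u ≠ v → (u < n ↔ v < n) →
        g (σ u % n) (σ v % n) = g (u % n) (v % n)) : GAutOn n g (fun a => σ a - n) := by
  have hr : ∀ a < n, n ≤ σ a ∧ σ a < 2 * n := by
    intro a ha
    have h1 := hs a (by omega)
    have h2 := hσ.1 a (by omega)
    exact ⟨by by_contra hc; exact absurd ha (h1.1 (by omega)), h2⟩
  refine ⟨⟨fun i hi => ?_, fun i hi j hj hij => ?_⟩, ?_⟩
  · have := hr i hi
    show σ i - n < n
    omega
  · have h1 := hr i hi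
    have h2 := hr j hj
    exact hσ.2 i (by omega) j (by omega) (by
      have : σ i - n = σ j - n := hij
      omega)
  intro u hu v hv
  have h1 := hr u hu
  have h2 := hr v hv
  show g (σ u - n) (σ v - n) = g u v
  by_cases huv : u = v
  · subst huv
    rw [hg u hu, hg _ (by omega)]
  · have := h3 u (by omega) v (by omega) huv (iff_of_true hu hv)
    have e1 : σ u % n = σ u - n := by
      rw [Nat.mod_eq_sub_mod h1.1, Nat.mod_eq_of_lt (by omega)]
    have e2 : σ v % n = σ v - n := by
      rw [Nat.mod_eq_sub_mod h2.1, Nat.mod_eq_of_lt (by omega)]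
    rwa [e1, e2, Nat.mod_eq_of_lt hu, Nat.mod_eq_of_lt hv] at this

theorem dM_lt {n : ℕ} : ∀ u < 2 * n, dM n u < 2 * n + 5 := by
  intro u _
  unfold dM
  split_ifs <;> omega

theorem markL_le {n i a : ℕ} (ha : a < n) : markL n i a ≤ n := by
  unfold markL
  split_ifs <;> omega

theorem markR_le {n i j a : ℕ} (ha : a < n) (hi : i < n) : markR n i j a ≤ n := by
  unfold markR
  split_ifs <;> omega

theorem sides_M {n : ℕ} {g : ℕ → ℕ → Bool} {σ : ℕ → ℕ} (hσ : PermOn (2 * n) σ)
    (h : AutOn (2 * n) (gX n g (dM n)) σ) : ∀ v < 2 * n, (σ v < n ↔ v < n) := by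
  intro v hv
  have h1 := ((aut_gX dM_lt hσ).1 h).1 v hv
  unfold dM at h1
  by_cases ha : σ v < n <;> by_cases hb : v < n
  · exact iff_of_true ha hb
  · rw [if_pos ha, if_neg hb] at h1; omega
  · rw [if_neg ha, if_pos hb] at h1; omega
  · exact iff_of_false ha hb

/-- the automorphism of the doubled structure acting by `τ` on both sides -/
def dbl (n : ℕ) (τ : ℕ → ℕ) (v : ℕ) : ℕ := if v < n then τ v else n + τ (v - n)

theorem rigid_M {n : ℕ} {g : ℕ → ℕ → Bool} (hg : ∀ u < n, g u u = false) :
    RigidOn (2 * n) (sM n g) ↔ ∀ τ, GAutOn n g τ → ∀ v < n, τ v = v := by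
  rw [sM_eq]
  constructor
  · intro h τ hτ v hv
    have hp : PermOn (2 * n) (dbl n τ) := by
      constructor
      · intro i hi
        unfold dbl
        split_ifs with h1
        · have := hτ.1.1 i h1; omega
        · have := hτ.1.1 (i - n) (by omega); omega
      · intro i hi j hj hij
        unfold dbl at hij
        split_ifs at hij with h1 h2 h2
        · exact hτ.1.2 i h1 j h2 hij
        · have := hτ.1.1 i h1; omega
        · have := hτ.1.1 j h2; omega
        · have := hτ.1.2 (i - n) (by omega) (j - n) (by omega) (by omega); omega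
    have hside : ∀ v < 2 * n, (dbl n τ v < n ↔ v < n) := by
      intro v hv
      unfold dbl
      split_ifs with h1
      · have := hτ.1.1 v h1; omega
      · omega
    have ha : AutOn (2 * n) (gX n g (dM n)) (dbl n τ) := by
      rw [aut_gX dM_lt hp]
      refine ⟨?_, ?_, ?_⟩
      · intro u hu
        unfold dM
        simp only [hside u hu]
      · intro u hu v hv _
        rw [hside u hu, hside v hv]
      · intro u hu v hv _ huv
        by_cases h1 : u < n
        · have h2 : v < n := huv.1 h1
          have e1 := hτ.1.1 u h1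
          have e2 := hτ.1.1 v h2
          unfold dbl
          rw [if_pos h1, if_pos h2, Nat.mod_eq_of_lt e1, Nat.mod_eq_of_lt e2,
            Nat.mod_eq_of_lt h1, Nat.mod_eq_of_lt h2]
          exact hτ.2 u h1 v h2
        · have h2 : ¬ v < n := fun hh => h1 (huv.2 hh)
          have e1 := hτ.1.1 (u - n) (by omega)
          have e2 := hτ.1.1 (v - n) (by omega)
          unfold dbl
          rw [if_neg h1, if_neg h2, Nat.add_mod_left, Nat.add_mod_left, Nat.mod_eq_of_lt e1,
            Nat.mod_eq_of_lt e2, Nat.mod_eq_sub_mod (by omega : u ≥ n),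
            Nat.mod_eq_sub_mod (by omega : v ≥ n), Nat.mod_eq_of_lt (by omega : u - n < n),
            Nat.mod_eq_of_lt (by omega : v - n < n)]
          exact hτ.2 _ (by omega) _ (by omega)
    have := h _ ha v (by omega)
    unfold dbl at this
    rwa [if_pos hv] at this
  · intro h σ hσ v hv
    have hp := hσ.1
    have hs := sides_M hp hσ
    have h3 := ((aut_gX dM_lt hp).1 hσ).2.2
    by_cases hvn : v < n
    · exact h σ (left_aut hp hg hs h3) v hvn
    · have h1 := h _ (right_aut hp hg hs h3) (v - n) (by omega)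
      have h2 : ¬ σ v < n := fun hh => hvn ((hs v hv).1 hh)
      have e : n + (v - n) = v := by omega
      simp only [e] at h1
      omega

theorem dX_lt {n i j k l : ℕ} (hi : i < n) : ∀ u < 2 * n, dX n i j k l u < 2 * n + 5 := by
  intro u hu
  unfold dX
  split_ifs with h1 h2 h3
  · have := markL_le (i := i) h1; omega
  · have := markL_le (i := i) h1; omega
  · have := markR_le (j := j) (show u - n < n by omega) hi; omega
  · have := markR_le (j := j) (show u - n < n by omega) hi; omega

/-- equality of diagonal colours: same mark and same special mark -/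
theorem col_eq {a b : ℕ} {p q : Prop} [Decidable p] [Decidable q]
    (h : 3 + 2 * a + (if p then 1 else 0) = 3 + 2 * b + (if q then 1 else 0)) :
    a = b ∧ (p ↔ q) := by
  by_cases hp : p <;> by_cases hq : q
  · simp only [hp, hq, if_true] at h; exact ⟨by omega, by simp [hp, hq]⟩
  · simp only [hp, hq, if_true, if_false] at h; omega
  · simp only [hp, hq, if_true, if_false] at h; omega
  · simp only [hp, hq, if_false] at h; exact ⟨by omega, by simp [hp, hq]⟩

/-- The main equivalence. -/
theorem rigid_X {n : ℕ} {g : ℕ → ℕ → Bool} (hn : 1 ≤ n) (hg : ∀ u < n, g u u = false)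
    {i : ℕ} (hi : i < n) {τ : ℕ → ℕ} (hτ : GAutOn n g τ) (hfix : ∀ v < i, τ v = v)
    (hmax : ∀ ρ, GAutOn n g ρ → (∀ v ≤ i, ρ v = v) → ∀ v < n, ρ v = v)
    {k l : ℕ} (hk : k < n) (hl : l < n) :
    ¬ RigidOn (2 * n) (sX n g i (τ i) k l) ↔ l = τ k := by
  rw [sX_eq]
  obtain ⟨τ', hτ', hinv1, hinv2⟩ := gAut_inv hτ
  have hji : i ≤ τ i := by
    by_contra hc
    have h1 : τ (τ i) = τ i := hfix _ (by omega)
    have h2 := hτ.1.2 _ (hτ.1.1 i hi) i hi h1
    omega
  have hmark : ∀ u < n, markR n i (τ i) (τ u) = markL n i u := by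
    intro u hu
    have hτu := hτ.1.1 u hu
    unfold markR markL
    rcases lt_trichotomy u i with h1 | h1 | h1
    · have e : τ u = u := hfix u h1
      have e2 : ¬ (τ u = τ i) := fun hh => by
        have := hτ.1.2 u hu i hi hh; omega
      rw [if_neg e2, e, if_pos h1, if_pos h1.le]
    · subst h1
      simp
    · have e2 : ¬ (τ u = τ i) := fun hh => by
        have := hτ.1.2 u hu i hi hh; omega
      have e3 : ¬ (τ u < i) := fun hh => by
        have h4 := hfix _ hh
        have := hτ.1.2 _ hτu u hu h4
        omega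
      rw [if_neg e2, if_neg e3, if_neg (by omega)]
  constructor
  · intro h
    by_contra hlk
    apply h
    intro σ hσ
    have hp := hσ.1
    obtain ⟨hc1, hc2, hc3⟩ := (aut_gX (dX_lt hi) hp).1 hσ
    rcases sides hn hc2 with hs | hs
    · -- sides preserved
      have hL := left_aut hp hg hs hc3
      have hR := right_aut hp hg hs hc3
      have h1 : ∀ v < n, σ v = v := by
        apply hmax σ hL
        intro v hv
        have hvn : v < n := by omega
        have hc := hc1 v (by omega)
        unfold dX at hc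
        rw [if_pos ((hs v (by omega)).2 hvn), if_pos hvn] at hc
        have hm := (col_eq hc).1
        unfold markL at hm
        rw [if_pos hv] at hm
        split_ifs at hm
        · exact hm
        · omega
      have h2 : ∀ a < n, σ (n + a) - n = a := by
        have hR' : GAutOn n g (fun v => τ' ((fun a => σ (n + a) - n) (τ v))) :=
          gAut_comp hτ' (gAut_comp hR hτ)
        have hmR : ∀ a < n, markR n i (τ i) (σ (n + a) - n) = markR n i (τ i) a := by
          intro a ha
          have hc := hc1 (n + a) (by omega)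
          have hna : ¬ n + a < n := by omega
          have hsa : ¬ σ (n + a) < n := fun hh => hna ((hs (n + a) (by omega)).1 hh)
          unfold dX at hc
          rw [if_neg hsa, if_neg hna] at hc
          have hm := (col_eq hc).1
          rwa [Nat.add_sub_cancel_left] at hm
        have h4 := hmax _ hR' (by
          intro v hv
          have hvn : v < n := by omega
          have e1 := hmR (τ v) (hτ.1.1 v hvn)
          have e3 := hR.1.1 (τ v) (hτ.1.1 v hvn)
          simp only at e3
          set b := σ (n + τ v) - n with hb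
          have e2 : τ (τ' b) = b := hinv2 b e3
          have e4 := hmark (τ' b) (hτ'.1.1 b e3)
          rw [e2, e1, hmark v hvn] at e4
          show τ' b = v
          unfold markL at e4
          rw [if_pos hv] at e4
          split_ifs at e4
          · exact e4.symm
          · omega)
        intro a ha
        have h5 := h4 (τ' a) (hτ'.1.1 a ha)
        simp only [hinv2 a ha] at h5
        have h6 := hτ'.1.2 _ (hR.1.1 a ha) a ha h5
        exact h6
      intro v hv
      by_cases hvn : v < n
      · exact h1 v hvn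
      · have h3 := h2 (v - n) (by omega)
        have e : n + (v - n) = v := by omega
        rw [e] at h3
        have h4 : ¬ σ v < n := fun hh => hvn ((hs v hv).1 hh)
        omega
    · -- sides swapped
      exfalso
      apply hlk
      have hS := swap_aut hp hg hs hc3
      have hr : ∀ a < n, n ≤ σ a ∧ σ a < 2 * n := by
        intro a ha
        have h1 := hs a (by omega)
        have h2 := hp.1 a (by omega)
        exact ⟨by by_contra hc; exact absurd ha (h1.1 (by omega)), h2⟩
      have hcol : ∀ a < n, markR n i (τ i) (σ a - n) = markL n i a ∧ (σ a - n = l ↔ a = k) := by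
        intro a ha
        have hc := hc1 a (by omega)
        have hsa : ¬ σ a < n := by have := hr a ha; omega
        unfold dX at hc
        rw [if_neg hsa, if_pos ha] at hc
        exact col_eq hc
      have h4 := hmax _ (gAut_comp hτ' hS) (by
        intro v hv
        have hvn : v < n := by omega
        have e1 := (hcol v hvn).1
        have e3 := hS.1.1 v hvn
        simp only at e3
        show τ' (σ v - n) = v
        set b := σ v - n with hb
        have e2 : τ (τ' b) = b := hinv2 b e3
        have e4 := hmark (τ' b) (hτ'.1.1 b e3)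
        rw [e2, e1] at e4
        unfold markL at e4
        rw [if_pos hv] at e4
        split_ifs at e4
        · exact e4.symm
        · omega)
      have h5 : τ' (σ k - n) = k := h4 k hk
      have h6 := ((hcol k hk).2).2 rfl
      rw [h6] at h5
      rw [← h5, hinv2 l hl]
  · intro hlk hrig
    -- the swap
    have hp : PermOn (2 * n) (fun v => if v < n then n + τ v else τ' (v - n)) := by
      constructor
      · intro v hv
        dsimp only
        split_ifs with h1
        · have := hτ.1.1 v h1; omega
        · have := hτ'.1.1 (v - n) (by omega); omega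
      · intro u hu v hv huv
        dsimp only at huv
        split_ifs at huv with h1 h2 h2
        · exact hτ.1.2 u h1 v h2 (by omega)
        · have := hτ'.1.1 (v - n) (by omega); omega
        · have := hτ'.1.1 (u - n) (by omega); omega
        · have := hτ'.1.2 (u - n) (by omega) (v - n) (by omega) huv; omega
    have hside : ∀ v < 2 * n, ((if v < n then n + τ v else τ' (v - n)) < n ↔ ¬ v < n) := by
      intro v hv
      split_ifs with h1
      · omega
      · have := hτ'.1.1 (v - n) (by omega); omega
    have ha : AutOn (2 * n) (gX n g (dX n i (τ i) k l))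
        (fun v => if v < n then n + τ v else τ' (v - n)) := by
      rw [aut_gX (dX_lt hi) hp]
      refine ⟨?_, ?_, ?_⟩
      · intro u hu
        unfold dX
        by_cases h1 : u < n
        · have h2 : ¬ n + τ u < n := by omega
          simp only [if_pos h1, if_neg h2, Nat.add_sub_cancel_left]
          rw [hmark u h1]
          have : (τ u = l) ↔ (u = k) := by
            rw [hlk]
            exact ⟨fun hh => hτ.1.2 u h1 k hk hh, fun hh => by rw [hh]⟩
          simp only [this]
        · have h2 := hτ'.1.1 (u - n) (by omega)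
          simp only [if_neg h1, if_pos h2]
          have h3 := hmark _ h2
          rw [hinv2 (u - n) (by omega)] at h3
          rw [← h3]
          have : (τ' (u - n) = k) ↔ (u - n = l) := by
            constructor
            · intro hh
              rw [hlk, ← hh, hinv2 (u - n) (by omega)]
            · intro hh
              rw [hh, hlk, hinv1 k hk]
          simp only [this]
      · intro u hu v hv _
        have e1 := hside u hu
        have e2 := hside v hv
        rw [e1, e2]
        tauto
      · intro u hu v hv _ huv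
        by_cases h1 : u < n
        · have h2 : v < n := huv.1 h1
          have e1 := hτ.1.1 u h1
          have e2 := hτ.1.1 v h2
          simp only [if_pos h1, if_pos h2]
          rw [Nat.add_mod_left, Nat.add_mod_left, Nat.mod_eq_of_lt e1, Nat.mod_eq_of_lt e2,
            Nat.mod_eq_of_lt h1, Nat.mod_eq_of_lt h2]
          exact hτ.2 u h1 v h2
        · have h2 : ¬ v < n := fun hh => h1 (huv.2 hh)
          have e1 := hτ'.1.1 (u - n) (by omega)
          have e2 := hτ'.1.1 (v - n) (by omega)
          simp only [if_neg h1, if_neg h2]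
          rw [Nat.mod_eq_of_lt e1,
            Nat.mod_eq_of_lt e2, Nat.mod_eq_sub_mod (by omega : u ≥ n),
            Nat.mod_eq_sub_mod (by omega : v ≥ n), Nat.mod_eq_of_lt (by omega : u - n < n),
            Nat.mod_eq_of_lt (by omega : v - n < n)]
          exact hτ'.2 _ (by omega) _ (by omega)
    have := hrig _ ha 0 (by omega)
    simp only [show (0 : ℕ) < n from by omega, if_true] at this
    omega

end Search

open Search in
theorem search : SearchStatement := by
  intro n g hn hg
  refine ⟨?_, ?_, rigid_M hg, ?_⟩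
  · intro u _ v _
    rw [sM_eq, gX_length]
    unfold cN
    ring
  · intro i j k l u _ v _
    rw [sX_eq, gX_length]
    unfold cN
    ring
  · intro hex
    -- maximal i
    have hmax : ∃ i < n, (∃ τ, GAutOn n g τ ∧ (∀ v < i, τ v = v) ∧ ∃ v < n, τ v ≠ v) ∧
        ¬ (∃ τ, GAutOn n g τ ∧ (∀ v < i + 1, τ v = v) ∧ ∃ v < n, τ v ≠ v) := by
      by_contra hcon
      push Not at hcon
      have hP : ∀ i ≤ n, ∃ τ, GAutOn n g τ ∧ (∀ v < i, τ v = v) ∧ ∃ v < n, τ v ≠ v := by
        intro i
        induction i with
        | zero =>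
          intro _
          obtain ⟨τ, h1, h2⟩ := hex
          exact ⟨τ, h1, fun v hv => absurd hv (by omega), h2⟩
        | succ i ih =>
          intro hi
          exact hcon i (by omega) (ih (by omega))
      obtain ⟨τ, _, h2, v, hv, hv'⟩ := hP n le_rfl
      exact hv' (h2 v hv)
    obtain ⟨i, hi, ⟨τ, hτ, hfix, hne⟩, hno⟩ := hmax
    refine ⟨i, hi, τ i, hτ.1.1 i hi, τ, hτ, hne, ?_⟩
    intro k hk l hl
    apply rigid_X hn hg hi hτ hfix ?_ hk hl
    intro ρ hρ hρfix v hv
    by_contra hc
    exact hno ⟨ρ, hρ, fun v hv => hρfix v (by omega), v, hv, hc⟩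

end Pool.Agent.GAKT
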